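import Pool.Agent.Dini.Path

/-!
# The algebra
-/

open scoped ENNReal InnerProductSpace
open ContinuousLinearMap

namespace Dini

noncomputable section

variable {Q L : Type} [TopologicalSpace Q] [CompactSpace Q]

/-- The data used to build the algebra: continuous self maps `lam l` preserving `D`. -/
structure Data (Q L : Type) [TopologicalSpace Q] where
  lam : L → C(Q, Q)
  D : Set Q
  mem : ∀ l, ∀ q ∈ D, lam l q ∈ D

variable (S : Data Q L)

lemma Data.ev_mem {S : Data Q L} (α : List L) : ∀ q ∈ S.D, ev S.lam α q ∈ S.D := by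
  induction α with
  | nil => intro q hq; exact hq
  | cons l α ih => intro q hq; exact S.mem l _ (ih q hq)

/-- the monomials of the algebra -/
def gens : Set (H (Path S.lam) →L[ℂ] H (Path S.lam)) :=
  {a | ∃ (α : List L) (f : C(Q, ℂ)) (β : List L), (∀ q ∈ S.D, f q = 0) ∧ a = Eop S.lam α f β}

variable {S}

lemma zero_mem_gens : (0 : H (Path S.lam) →L[ℂ] H (Path S.lam)) ∈ gens S :=
  ⟨[], 0, [], fun _ _ => rfl, (Eop_zero _ _).symm⟩

lemma Eop_mul_Eop_mem {α : List L} {f : C(Q, ℂ)} {β : List L} {α' : List L} {g : C(Q, ℂ)}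
    {β' : List L} (hf : (∀ q ∈ S.D, f q = 0) ∨ (∀ q ∈ S.D, g q = 0)) :
    Eop S.lam α f β * Eop S.lam α' g β' ∈ gens S := by
  have h0 : Eop S.lam α f β * Eop S.lam α' g β'
      = TT S.lam α * Mop S.lam f * (star (TT S.lam β) * TT S.lam α') * Mop S.lam g *
        star (TT S.lam β') := by
    unfold Eop
    simp only [mul_assoc]
  rw [h0]
  rcases star_TT_mul_TT (lam := S.lam) β α' with ⟨δ, _, h⟩ | ⟨δ, _, h⟩ | h
  · rw [h]
    refine ⟨α ++ δ, (f.comp (ev S.lam δ)) * g, β', ?_, ?_⟩
    · intro q hq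
      rw [ContinuousMap.mul_apply, ContinuousMap.comp_apply]
      rcases hf with hf | hf
      · rw [hf _ (Data.ev_mem δ q hq), zero_mul]
      · rw [hf _ hq, mul_zero]
    · unfold Eop
      rw [mul_assoc (TT S.lam α), Mop_mul_TT, TT_append, Mop_mul]
      simp only [mul_assoc]
  · rw [h]
    refine ⟨α, f * (g.comp (ev S.lam δ)), β' ++ δ, ?_, ?_⟩
    · intro q hq
      rw [ContinuousMap.mul_apply, ContinuousMap.comp_apply]
      rcases hf with hf | hf
      · rw [hf _ hq, zero_mul]
      · rw [hf _ (Data.ev_mem δ q hq), mul_zero]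
    · unfold Eop
      rw [mul_assoc (TT S.lam α * Mop S.lam f), star_TT_mul_Mop, TT_append, Mop_mul, star_mul]
      simp only [mul_assoc]
  · rw [h]
    simpa using zero_mem_gens

lemma gens_mul {a b : H (Path S.lam) →L[ℂ] H (Path S.lam)} (ha : a ∈ gens S) (hb : b ∈ gens S) :
    a * b ∈ gens S := by
  obtain ⟨α, f, β, hf, rfl⟩ := ha
  obtain ⟨α', g, β', _, rfl⟩ := hb
  exact Eop_mul_Eop_mem (Or.inl hf)

lemma gens_star {a : H (Path S.lam) →L[ℂ] H (Path S.lam)} (ha : a ∈ gens S) :
    star a ∈ gens S := by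
  obtain ⟨α, f, β, hf, rfl⟩ := ha
  refine ⟨β, star f, α, ?_, Eop_star _ _ _⟩
  intro q hq
  rw [ContinuousMap.star_apply, hf q hq, star_zero]

variable (S)

/-- the polynomial part of the algebra -/
def algPoly : NonUnitalStarSubalgebra ℂ (H (Path S.lam) →L[ℂ] H (Path S.lam)) where
  carrier := (Submodule.span ℂ (gens S) : Submodule ℂ _)
  add_mem' := fun ha hb => Submodule.add_mem _ ha hb
  zero_mem' := Submodule.zero_mem _
  smul_mem' := fun c _ ha => Submodule.smul_mem _ c ha
  mul_mem' := by
    intro a b ha hb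
    have h := Submodule.mul_mem_mul (R := ℂ) ha hb
    rw [Submodule.span_mul_span] at h
    refine Submodule.span_mono ?_ h
    rintro _ ⟨x, hx, y, hy, rfl⟩
    exact gens_mul hx hy
  star_mem' := by
    intro a ha
    change star a ∈ Submodule.span ℂ (gens S)
    induction ha using Submodule.span_induction with
    | mem x hx => exact Submodule.subset_span (gens_star hx)
    | zero => rw [star_zero]; exact Submodule.zero_mem _
    | add x y _ _ hx hy => rw [star_add]; exact Submodule.add_mem _ hx hy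
    | smul c x _ hx => rw [star_smul]; exact Submodule.smul_mem _ _ hx

lemma mem_algPoly {a : H (Path S.lam) →L[ℂ] H (Path S.lam)} :
    a ∈ algPoly S ↔ a ∈ Submodule.span ℂ (gens S) := Iff.rfl

/-- The C*-algebra of the system. -/
def alg : NonUnitalStarSubalgebra ℂ (H (Path S.lam) →L[ℂ] H (Path S.lam)) :=
  (algPoly S).topologicalClosure

instance alg_isClosed : IsClosed (alg S : Set (H (Path S.lam) →L[ℂ] H (Path S.lam))) :=
  (algPoly S).isClosed_topologicalClosure

variable {S}

lemma algPoly_le : algPoly S ≤ alg S := (algPoly S).le_topologicalClosure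

lemma gens_subset {a : H (Path S.lam) →L[ℂ] H (Path S.lam)} (ha : a ∈ gens S) : a ∈ alg S :=
  algPoly_le (Submodule.subset_span ha)

lemma Eop_mem {α : List L} {f : C(Q, ℂ)} {β : List L} (hf : ∀ q ∈ S.D, f q = 0) :
    Eop S.lam α f β ∈ alg S := gens_subset ⟨α, f, β, hf, rfl⟩

lemma mem_alg_iff {a : H (Path S.lam) →L[ℂ] H (Path S.lam)} :
    a ∈ alg S ↔ a ∈ closure (algPoly S : Set (H (Path S.lam) →L[ℂ] H (Path S.lam))) := Iff.rfl

lemma exists_poly_near {a : H (Path S.lam) →L[ℂ] H (Path S.lam)} (ha : a ∈ alg S) {ε : ℝ}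
    (hε : 0 < ε) : ∃ b ∈ algPoly S, ‖a - b‖ < ε := by
  rw [mem_alg_iff, Metric.mem_closure_iff] at ha
  obtain ⟨b, hb, h⟩ := ha ε hε
  exact ⟨b, hb, by rwa [dist_eq_norm] at h⟩

/-- induction principle: closed additive properties which hold on monomials hold on `alg` -/
lemma alg_induction {P : (H (Path S.lam) →L[ℂ] H (Path S.lam)) → Prop}
    (hcl : IsClosed {a | P a}) (hadd : ∀ a b, P a → P b → P (a + b))
    (hE : ∀ α f β, (∀ q ∈ S.D, f q = 0) → P (Eop S.lam α f β)) :
    ∀ a ∈ alg S, P a := by
  intro a ha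
  rw [mem_alg_iff] at ha
  have hsub : (algPoly S : Set (H (Path S.lam) →L[ℂ] H (Path S.lam))) ⊆ {a | P a} := by
    intro b hb
    rw [SetLike.mem_coe, mem_algPoly] at hb
    have h2 : ∀ c : ℂ, P (c • b) := by
      induction hb using Submodule.span_induction with
      | mem x hx =>
        intro c
        obtain ⟨α, f, β, hf, rfl⟩ := hx
        rw [← Eop_smul]
        exact hE _ _ _ (fun q hq => by rw [ContinuousMap.smul_apply, hf q hq, smul_zero])
      | zero =>
        intro c
        rw [smul_zero, ← Eop_zero (lam := S.lam) [] []]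
        exact hE _ _ _ (fun q _ => rfl)
      | add x y _ _ hx hy =>
        intro c
        rw [smul_add]
        exact hadd _ _ (hx c) (hy c)
      | smul c x _ hx =>
        intro c'
        rw [smul_smul]
        exact hx _
    have := h2 1
    rwa [one_smul] at this
  exact closure_minimal hsub hcl ha

/-- left and right multipliers of the algebra -/
lemma mul_mem_of_mult {b : H (Path S.lam) →L[ℂ] H (Path S.lam)}
    (hb : ∀ α f β, (∀ q ∈ S.D, f q = 0) → b * Eop S.lam α f β ∈ alg S) :
    ∀ a ∈ alg S, b * a ∈ alg S := by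
  apply alg_induction
  · exact (alg_isClosed S).preimage (continuous_const.mul continuous_id)
  · intro x y hx hy
    rw [mul_add]
    exact add_mem hx hy
  · exact hb

lemma TT_mul_mem (α : List L) : ∀ a ∈ alg S, TT S.lam α * a ∈ alg S := by
  apply mul_mem_of_mult
  intro α' f β hf
  have : TT S.lam α * Eop S.lam α' f β = Eop S.lam (α ++ α') f β := by
    unfold Eop; rw [TT_append]; simp only [mul_assoc]
  rw [this]
  exact Eop_mem hf

lemma Mop_mul_mem (g : C(Q, ℂ)) : ∀ a ∈ alg S, Mop S.lam g * a ∈ alg S := by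
  apply mul_mem_of_mult
  intro α' f β hf
  have h : Mop S.lam g * Eop S.lam α' f β = Eop S.lam [] g [] * Eop S.lam α' f β := by
    unfold Eop; simp
  rw [h]
  exact gens_subset (Eop_mul_Eop_mem (Or.inr hf))

lemma star_TT_mul_mem (α : List L) : ∀ a ∈ alg S, star (TT S.lam α) * a ∈ alg S := by
  apply mul_mem_of_mult
  intro α' f β hf
  have h : star (TT S.lam α) * Eop S.lam α' f β = Eop S.lam [] 1 α * Eop S.lam α' f β := by
    unfold Eop; rw [Mop_one]; simp
  rw [h]
  exact gens_subset (Eop_mul_Eop_mem (Or.inr hf))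

lemma mul_star_mem {b : H (Path S.lam) →L[ℂ] H (Path S.lam)}
    (hb : ∀ a ∈ alg S, b * a ∈ alg S) : ∀ a ∈ alg S, a * star b ∈ alg S := by
  intro a ha
  have := star_mem (hb (star a) (star_mem ha))
  rwa [star_mul, star_star] at this

lemma mul_TT_mem (α : List L) : ∀ a ∈ alg S, a * TT S.lam α ∈ alg S := by
  have := mul_star_mem (star_TT_mul_mem (S := S) α)
  rwa [star_star] at this

lemma mul_star_TT_mem (α : List L) : ∀ a ∈ alg S, a * star (TT S.lam α) ∈ alg S :=
  mul_star_mem (TT_mul_mem (S := S) α)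

lemma mul_Mop_mem (g : C(Q, ℂ)) : ∀ a ∈ alg S, a * Mop S.lam g ∈ alg S := by
  have := mul_star_mem (Mop_mul_mem (S := S) (star g))
  rwa [Mop_star, star_star] at this

lemma Mop_mem {f : C(Q, ℂ)} (hf : ∀ q ∈ S.D, f q = 0) : Mop S.lam f ∈ alg S := by
  have : Mop S.lam f = Eop S.lam [] f [] := by unfold Eop; simp
  rw [this]; exact Eop_mem hf

/-! ### The vectors `e q α` and the coefficient functions -/

variable (S) in
/-- basis vectors of the fibre at `q` -/
def evec (q : Q) (α : List L) : H (Path S.lam) := bv (Path.app α (Path.vac S.lam q))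

lemma norm_evec (q : Q) (α : List L) : ‖evec S q α‖ = 1 := norm_bv _

lemma TT_evec (α β : List L) (q : Q) : TT S.lam α (evec S q β) = evec S q (α ++ β) := by
  unfold evec; rw [TT_bv, Path.app_append]

lemma star_TT_evec_append (α β : List L) (q : Q) :
    star (TT S.lam α) (evec S q (α ++ β)) = evec S q β := by
  rw [← TT_evec, ← ContinuousLinearMap.mul_apply, star_TT_mul_TT_self]; rfl

lemma app_vac_eq {α μ : List L} {q : Q} {η : Path S.lam}
    (h : Path.app α (Path.vac S.lam q) = Path.app μ η) :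
    ∃ γ, α = μ ++ γ ∧ η = Path.app γ (Path.vac S.lam q) := by
  induction μ generalizing α with
  | nil => exact ⟨α, rfl, h.symm⟩
  | cons m μ ih =>
    cases α with
    | nil => exact absurd h.symm Path.cons_ne_vac
    | cons a α =>
      rw [Path.app_cons, Path.app_cons, Path.cons_inj] at h
      obtain ⟨rfl, h2⟩ := h
      obtain ⟨γ, h3, h4⟩ := ih h2
      exact ⟨γ, by rw [h3]; rfl, h4⟩

lemma star_TT_evec_of_not (μ α : List L) (q : Q) (h : ∀ γ, α ≠ μ ++ γ) :
    star (TT S.lam μ) (evec S q α) = 0 := by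
  classical
  apply H.ext
  intro η
  rw [star_TT_apply]
  unfold evec
  rw [bv_apply, if_neg]
  · rfl
  · intro h'
    obtain ⟨γ, h3, _⟩ := app_vac_eq h'.symm
    exact h γ h3

lemma evec_inj {q : Q} {α β : List L} (h : Path.app α (Path.vac S.lam q) =
    Path.app β (Path.vac S.lam q)) : α = β := by
  obtain ⟨γ, h1, h2⟩ := app_vac_eq h
  cases γ with
  | nil => simpa using h1
  | cons c γ => exact absurd h2.symm Path.cons_ne_vac

lemma inner_evec (q : Q) (α β : List L) [Decidable (α = β)] :
    ⟪evec S q α, evec S q β⟫_ℂ = if α = β then 1 else 0 := by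
  classical
  unfold evec
  rw [inner_bv_left, bv_apply]
  by_cases h : α = β
  · subst h; simp
  · rw [if_neg h, if_neg]
    intro h'
    exact h (evec_inj h')

lemma Mop_evec (f : C(Q, ℂ)) (q : Q) (α : List L) :
    Mop S.lam f (evec S q α) = f (ev S.lam α q) • evec S q α := by
  unfold evec
  rw [Mop_bv, Path.pt_app, Path.pt_vac]

/-- action of a monomial on `e q (β ++ γ)` -/
lemma Eop_evec_append (α β γ : List L) (f : C(Q, ℂ)) (q : Q) :
    Eop S.lam α f β (evec S q (β ++ γ)) = f (ev S.lam γ q) • evec S q (α ++ γ) := by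
  unfold Eop
  rw [ContinuousLinearMap.mul_apply, ContinuousLinearMap.mul_apply, star_TT_evec_append,
    Mop_evec, map_smul, TT_evec]

lemma Eop_evec_of_not (α β δ : List L) (f : C(Q, ℂ)) (q : Q) (h : ∀ γ, δ ≠ β ++ γ) :
    Eop S.lam α f β (evec S q δ) = 0 := by
  unfold Eop
  rw [ContinuousLinearMap.mul_apply, star_TT_evec_of_not _ _ _ h, map_zero]

/-- elements of the algebra vanish on the fibres over `D` -/
lemma alg_evec_D : ∀ a ∈ alg S, ∀ q ∈ S.D, ∀ β, a (evec S q β) = 0 := by
  intro a ha q hq β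
  revert a
  apply alg_induction
  · exact isClosed_eq (by fun_prop) continuous_const
  · intro a b ha hb
    rw [ContinuousLinearMap.add_apply, ha, hb, add_zero]
  · intro α f δ hf
    by_cases h : ∃ γ, β = δ ++ γ
    · obtain ⟨γ, rfl⟩ := h
      rw [Eop_evec_append, hf _ (Data.ev_mem γ q hq), zero_smul]
    · push Not at h
      exact Eop_evec_of_not _ _ _ _ _ h

/-- the coefficient functions are continuous -/
lemma alg_coef_continuous (α β : List L) : ∀ a ∈ alg S,
    Continuous (fun q => ⟪evec S q α, a (evec S q β)⟫_ℂ) := by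
  classical
  apply alg_induction
  · -- closedness
    rw [← isSeqClosed_iff_isClosed]
    intro a b ha hab
    rw [Set.mem_setOf_eq]
    have hunif : TendstoUniformly (fun n q => ⟪evec S q α, a n (evec S q β)⟫_ℂ)
        (fun q => ⟪evec S q α, b (evec S q β)⟫_ℂ) Filter.atTop := by
      rw [Metric.tendstoUniformly_iff]
      intro ε hε
      have h1 := (Metric.tendsto_nhds.1 hab) ε hε
      filter_upwards [h1] with n hn q
      rw [dist_eq_norm, ← inner_sub_right, ← ContinuousLinearMap.sub_apply]
      calc ‖⟪evec S q α, (b - a n) (evec S q β)⟫_ℂ‖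
          ≤ ‖evec S q α‖ * ‖(b - a n) (evec S q β)‖ := norm_inner_le_norm _ _
        _ ≤ 1 * (‖b - a n‖ * 1) := by
            rw [norm_evec]
            have := (b - a n).le_opNorm (evec S q β)
            rw [norm_evec] at this
            gcongr
        _ = dist (a n) b := by rw [dist_comm, dist_eq_norm]; ring
        _ < ε := hn
    exact hunif.continuous (Filter.Frequently.of_forall ha)
  · intro a b ha hb
    simp only [ContinuousLinearMap.add_apply, inner_add_right]
    exact ha.add hb
  · intro μ f ν hf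
    by_cases h : ∃ γ, β = ν ++ γ
    · obtain ⟨γ, rfl⟩ := h
      have : (fun q => ⟪evec S q α, Eop S.lam μ f ν (evec S q (ν ++ γ))⟫_ℂ)
          = fun q => f (ev S.lam γ q) * (if α = μ ++ γ then 1 else 0) := by
        funext q
        rw [Eop_evec_append, inner_smul_right, inner_evec]
      rw [this]
      fun_prop
    · push Not at h
      have : (fun q => ⟪evec S q α, Eop S.lam μ f ν (evec S q β)⟫_ℂ) = fun _ => 0 := by
        funext q
        rw [Eop_evec_of_not _ _ _ _ _ h, inner_zero_right]
      rw [this]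
      exact continuous_const

open Classical in
/-- the coefficient functions -/
def coef (a : H (Path S.lam) →L[ℂ] H (Path S.lam)) (α β : List L) : C(Q, ℂ) :=
  if h : Continuous (fun q => ⟪evec S q α, a (evec S q β)⟫_ℂ) then ⟨_, h⟩ else 0

lemma coef_apply {a : H (Path S.lam) →L[ℂ] H (Path S.lam)} (ha : a ∈ alg S) (α β : List L)
    (q : Q) : coef a α β q = ⟪evec S q α, a (evec S q β)⟫_ℂ := by
  unfold coef
  rw [dif_pos (alg_coef_continuous α β a ha)]
  rfl

lemma coef_D {a : H (Path S.lam) →L[ℂ] H (Path S.lam)} (ha : a ∈ alg S) (α β : List L)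
    {q : Q} (hq : q ∈ S.D) : coef a α β q = 0 := by
  rw [coef_apply ha, alg_evec_D a ha q hq, inner_zero_right]

end

end Dini
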