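import Pool.Agent.Dini.Alg

/-!
# The approximation `Psi ∘ Phi`
-/

open scoped ENNReal InnerProductSpace
open ContinuousLinearMap

namespace Dini

noncomputable section

variable {Q L : Type} [TopologicalSpace Q] [CompactSpace Q] {S : Data Q L}

/-- the last letter lies in `s` -/
def inS (s : Finset L) (ξ : Path S.lam) : Prop := ∃ l ∈ s, ξ.head = some l

open Classical in
def shiftF (s : Finset L) (c : Path S.lam → ℂ) : Path S.lam → ℂ :=
  fun ξ => if inS s ξ then c ξ.tail else 0

lemma shiftF_bdd {s : Finset L} {c : Path S.lam → ℂ} {C : ℝ} (hC : 0 ≤ C)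
    (h : ∀ ξ, ‖c ξ‖ ≤ C) (ξ : Path S.lam) : ‖shiftF s c ξ‖ ≤ C := by
  unfold shiftF
  split_ifs
  · exact h _
  · simpa using hC

lemma sum_Top_diag (s : Finset L) (c : Path S.lam → ℂ) {C : ℝ} (hC : 0 ≤ C)
    (h : ∀ ξ, ‖c ξ‖ ≤ C) :
    ∑ l ∈ s, Top S.lam l * diagOp c * star (Top S.lam l) = diagOp (shiftF s c) := by
  classical
  apply op_ext
  intro v ξ
  rw [diagOp_apply (shiftF_bdd hC h), ContinuousLinearMap.sum_apply, lp.coeFn_sum,
    Finset.sum_apply]
  have h1 : ∀ l, (Top S.lam l * diagOp c * star (Top S.lam l)) v ξ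
      = if ξ.head = some l then c ξ.tail * v ξ else 0 := by
    intro l
    rw [ContinuousLinearMap.mul_apply, ContinuousLinearMap.mul_apply, Top_apply, star_Top]
    split_ifs with hh
    · rw [diagOp_apply h, Sop_apply, Path.cons_tail hh]
    · rfl
  simp only [h1]
  unfold shiftF
  split_ifs with hin
  · obtain ⟨l0, hl0, hl⟩ := hin
    rw [Finset.sum_eq_single l0]
    · rw [if_pos hl]
    · intro l _ hne
      rw [if_neg]
      intro h'
      rw [hl] at h'
      exact hne (Option.some.inj h').symm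
    · intro h'; exact absurd hl0 h'
  · rw [zero_mul]
    apply Finset.sum_eq_zero
    intro l hl
    rw [if_neg]
    intro h'
    exact hin ⟨l, hl, h'⟩

open Classical in
/-- words of length `k` with letters in `s` -/
def words (s : Finset L) : ℕ → Finset (List L)
  | 0 => {[]}
  | k + 1 => (s ×ˢ words s k).image (fun p => p.1 :: p.2)

lemma mem_words {s : Finset L} {k : ℕ} {α : List L} :
    α ∈ words s k ↔ α.length = k ∧ ∀ l ∈ α, l ∈ s := by
  classical
  induction k generalizing α with
  | zero =>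
    simp only [words, Finset.mem_singleton]
    constructor
    · rintro rfl; simp
    · rintro ⟨h, _⟩; exact List.length_eq_zero_iff.1 h
  | succ k ih =>
    simp only [words, Finset.mem_image, Finset.mem_product, Prod.exists]
    constructor
    · rintro ⟨l, β, ⟨h1, h2⟩, rfl⟩
      obtain ⟨h3, h4⟩ := ih.1 h2
      refine ⟨by simp [h3], ?_⟩
      intro x hx
      rcases List.mem_cons.1 hx with rfl | hx
      · exact h1
      · exact h4 x hx
    · rintro ⟨h1, h2⟩
      cases α with
      | nil => simp at h1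
      | cons l β =>
        refine ⟨l, β, ⟨h2 l (by simp), ih.2 ⟨by simpa using h1, ?_⟩⟩, rfl⟩
        intro x hx
        exact h2 x (by simp [hx])

lemma sum_words_succ {M : Type} [AddCommMonoid M] (s : Finset L) (k : ℕ) (F : List L → M) :
    ∑ α ∈ words s (k + 1), F α = ∑ l ∈ s, ∑ α ∈ words s k, F (l :: α) := by
  classical
  simp only [words]
  rw [Finset.sum_image, Finset.sum_product]
  rintro ⟨a, b⟩ _ ⟨c, d⟩ _ h
  simp only [List.cons.injEq] at h
  exact Prod.ext h.1 h.2

open Classical in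
/-- words of length `< N` -/
def wordsLt (s : Finset L) (N : ℕ) : Finset (List L) := (Finset.range N).biUnion (words s)

lemma mem_wordsLt {s : Finset L} {N : ℕ} {α : List L} :
    α ∈ wordsLt s N ↔ α.length < N ∧ ∀ l ∈ α, l ∈ s := by
  classical
  simp only [wordsLt, Finset.mem_biUnion, Finset.mem_range, mem_words]
  constructor
  · rintro ⟨k, hk, rfl, h⟩; exact ⟨hk, h⟩
  · rintro ⟨h1, h2⟩; exact ⟨_, h1, rfl, h2⟩

lemma sum_wordsLt {M : Type} [AddCommMonoid M] (s : Finset L) (N : ℕ) (F : List L → M) :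
    ∑ α ∈ wordsLt s N, F α = ∑ k ∈ Finset.range N, ∑ α ∈ words s k, F α := by
  classical
  unfold wordsLt
  rw [Finset.sum_biUnion]
  intro i _ j _ hij
  rw [Function.onFun, Finset.disjoint_left]
  intro α h1 h2
  exact hij ((mem_words.1 h1).1.symm.trans (mem_words.1 h2).1)

/-- the weights -/
def dfun (s : Finset L) (N k : ℕ) (ξ : Path S.lam) : ℝ := by
  classical
  exact if inS s ξ then 1 / Real.sqrt N else Real.sqrt (1 - k / N)

lemma dfun_nonneg (s : Finset L) (N k : ℕ) (ξ : Path S.lam) : 0 ≤ dfun s N k ξ := by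
  unfold dfun; split_ifs <;> positivity

lemma dfun_le_one (s : Finset L) {N : ℕ} (hN : 0 < N) (k : ℕ) (ξ : Path S.lam) :
    dfun s N k ξ ≤ 1 := by
  have hN' : (1 : ℝ) ≤ N := by exact_mod_cast hN
  unfold dfun; split_ifs
  · rw [div_le_one (by positivity)]
    exact Real.one_le_sqrt.2 hN'
  · rw [Real.sqrt_le_one]
    have : (0 : ℝ) ≤ k / N := by positivity
    linarith

/-- `gfun K a b = ∑_{k<K} shift^k (d_{a+k} d_{b+k})` -/
def gfun (s : Finset L) (N : ℕ) : ℕ → ℕ → ℕ → Path S.lam → ℝ
  | 0, _, _, _ => 0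
  | K + 1, a, b, ξ => dfun s N a ξ * dfun s N b ξ +
      (by classical exact if inS s ξ then gfun s N K (a + 1) (b + 1) ξ.tail else 0)

lemma sqrt_prod_bounds {x y m M : ℝ} (hm : 0 ≤ m) (h1 : m ≤ x) (h2 : m ≤ y) (h3 : x ≤ M)
    (h4 : y ≤ M) : m ≤ Real.sqrt x * Real.sqrt y ∧ Real.sqrt x * Real.sqrt y ≤ M := by
  have hx : 0 ≤ x := hm.trans h1
  have hM : 0 ≤ M := hx.trans h3
  constructor
  · calc m = Real.sqrt m * Real.sqrt m := (Real.mul_self_sqrt hm).symm
      _ ≤ _ := by gcongr
  · calc Real.sqrt x * Real.sqrt y ≤ Real.sqrt M * Real.sqrt M := by gcongr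
      _ = M := Real.mul_self_sqrt hM

lemma dfun_pos {s : Finset L} {N k : ℕ} {ξ : Path S.lam} (h : inS s ξ) :
    dfun s N k ξ = 1 / Real.sqrt N := by
  unfold dfun; rw [if_pos h]

lemma dfun_neg {s : Finset L} {N k : ℕ} {ξ : Path S.lam} (h : ¬ inS s ξ) :
    dfun s N k ξ = Real.sqrt (1 - k / N) := by
  unfold dfun; rw [if_neg h]

lemma gfun_bounds (s : Finset L) {N : ℕ} (hN : 0 < N) (K : ℕ) : ∀ (a b : ℕ)
    (_ : max a b + K = N) (ξ : Path S.lam),
    (K : ℝ) / N ≤ gfun s N K a b ξ ∧ gfun s N K a b ξ ≤ ((N : ℝ) - min (a : ℝ) (b : ℝ)) / N := by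
  have hN' : (0 : ℝ) < N := by exact_mod_cast hN
  induction K with
  | zero =>
    intro a b h ξ
    simp only [gfun]
    constructor
    · simp
    · apply div_nonneg _ hN'.le
      have h1 : min a b ≤ N := by omega
      have h2 : ((min a b : ℕ) : ℝ) ≤ N := by exact_mod_cast h1
      push_cast at h2
      linarith
  | succ K ih =>
    intro a b h ξ
    simp only [gfun]
    by_cases hin : inS s ξ
    · rw [if_pos hin, dfun_pos hin, dfun_pos hin]
      have h1 := ih (a + 1) (b + 1) (by omega) ξ.tail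
      have h2 : (1 / Real.sqrt N) * (1 / Real.sqrt N) = 1 / (N : ℝ) := by
        rw [div_mul_div_comm, one_mul, Real.mul_self_sqrt hN'.le]
      rw [h2]
      have h3 : (min ((a + 1 : ℕ) : ℝ) ((b + 1 : ℕ) : ℝ)) = min (a : ℝ) b + 1 := by
        push_cast
        rw [min_add_add_right]
      rw [h3] at h1
      constructor
      · have : ((K + 1 : ℕ) : ℝ) / N = 1 / N + (K : ℝ) / N := by push_cast; ring
        rw [this]
        linarith [h1.1]
      · have : ((N : ℝ) - min (a : ℝ) b) / N = 1 / N + (N - (min (a : ℝ) b + 1)) / N := by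
          field_simp; ring
        rw [this]
        linarith [h1.2]
    · rw [if_neg hin, dfun_neg hin, dfun_neg hin, add_zero]
      have hK : ((K + 1 : ℕ) : ℝ) / N = 1 - (max (a : ℝ) b) / N := by
        have : ((max a b + (K + 1) : ℕ) : ℝ) = N := by exact_mod_cast h
        push_cast at this
        push_cast
        field_simp
        linarith
      have hM : ((N : ℝ) - min (a : ℝ) b) / N = 1 - (min (a : ℝ) b) / N := by
        field_simp
      rw [hM]
      have h0 : 0 ≤ 1 - (max (a : ℝ) b) / N := by rw [← hK]; positivity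
      rw [hK]
      apply sqrt_prod_bounds
      · exact h0
      · have := le_max_left (a : ℝ) b
        gcongr
      · have := le_max_right (a : ℝ) b
        gcongr
      · have := min_le_left (a : ℝ) b
        gcongr
      · have := min_le_right (a : ℝ) b
        gcongr

lemma gfun_nonneg (s : Finset L) (N : ℕ) (K a b : ℕ) (ξ : Path S.lam) :
    0 ≤ gfun s N K a b ξ := by
  induction K generalizing a b ξ with
  | zero => simp [gfun]
  | succ K ih =>
    simp only [gfun]
    have h1 := dfun_nonneg s N a ξ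
    have h2 := dfun_nonneg s N b ξ
    split_ifs
    · have := ih (a + 1) (b + 1) ξ.tail
      positivity
    · positivity

lemma gfun_le (s : Finset L) {N : ℕ} (hN : 0 < N) (K a b : ℕ) (ξ : Path S.lam) :
    gfun s N K a b ξ ≤ K := by
  induction K generalizing a b ξ with
  | zero => simp [gfun]
  | succ K ih =>
    simp only [gfun]
    have h1 := dfun_nonneg s N a ξ
    have h2 := dfun_nonneg s N b ξ
    have h3 := dfun_le_one s hN a ξ
    have h4 := dfun_le_one s hN b ξ
    have h5 : dfun s N a ξ * dfun s N b ξ ≤ 1 * 1 := by gcongr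
    push_cast
    split_ifs
    · have := ih (a + 1) (b + 1) ξ.tail
      linarith
    · have : (0 : ℝ) ≤ K := by positivity
      linarith

/-- The weight operators. -/
def Dop (S : Data Q L) (s : Finset L) (N k : ℕ) : H (Path S.lam) →L[ℂ] H (Path S.lam) :=
  diagOp (fun ξ => ((dfun s N k ξ : ℝ) : ℂ))

lemma Dop_bdd (s : Finset L) {N : ℕ} (hN : 0 < N) (k : ℕ) (ξ : Path S.lam) :
    ‖((dfun s N k ξ : ℝ) : ℂ)‖ ≤ 1 := by
  rw [Complex.norm_real, Real.norm_of_nonneg (dfun_nonneg _ _ _ _)]
  exact dfun_le_one s hN k ξ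

lemma Dop_apply (s : Finset L) {N : ℕ} (hN : 0 < N) (k : ℕ) (v : H (Path S.lam))
    (ξ : Path S.lam) : Dop S s N k v ξ = (dfun s N k ξ : ℂ) * v ξ :=
  diagOp_apply (Dop_bdd s hN k) v ξ

lemma sum_TT_diag (s : Finset L) {N : ℕ} (hN : 0 < N) (K : ℕ) : ∀ (a b : ℕ),
    ∑ γ ∈ wordsLt s K, TT S.lam γ * diagOp (fun ξ => ((dfun s N (a + γ.length) ξ *
      dfun s N (b + γ.length) ξ : ℝ) : ℂ)) * star (TT S.lam γ)
      = diagOp (fun ξ => ((gfun s N K a b ξ : ℝ) : ℂ)) := by
  induction K with
  | zero =>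
    intro a b
    simp only [wordsLt, Finset.range_zero, Finset.biUnion_empty, Finset.sum_empty, gfun]
    apply op_ext
    intro v ξ
    rw [diagOp_apply (C := 0) (by simp)]
    simp
  | succ K ih =>
    intro a b
    rw [sum_wordsLt, Finset.sum_range_succ']
    have h1 : ∀ k ∈ Finset.range K, ∑ γ ∈ words s (k + 1), TT S.lam γ *
        diagOp (fun ξ => ((dfun s N (a + γ.length) ξ *
          dfun s N (b + γ.length) ξ : ℝ) : ℂ)) * star (TT S.lam γ)
        = ∑ l ∈ s, Top S.lam l * (∑ γ ∈ words s k, TT S.lam γ *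
          diagOp (fun ξ => ((dfun s N (a + 1 + γ.length) ξ *
          dfun s N (b + 1 + γ.length) ξ : ℝ) : ℂ)) * star (TT S.lam γ)) *
          star (Top S.lam l) := by
      intro k _
      rw [sum_words_succ]
      apply Finset.sum_congr rfl
      intro l _
      rw [Finset.mul_sum, Finset.sum_mul]
      apply Finset.sum_congr rfl
      intro γ _
      have e1 : a + (l :: γ).length = a + 1 + γ.length := by simp; ring
      have e2 : b + (l :: γ).length = b + 1 + γ.length := by simp; ring
      rw [e1, e2, TT_cons, star_mul]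
      simp only [mul_assoc]
    rw [Finset.sum_congr rfl h1, Finset.sum_comm]
    have h2 : ∀ l ∈ s, ∑ k ∈ Finset.range K, Top S.lam l * (∑ γ ∈ words s k, TT S.lam γ *
          diagOp (fun ξ => ((dfun s N (a + 1 + γ.length) ξ *
          dfun s N (b + 1 + γ.length) ξ : ℝ) : ℂ)) * star (TT S.lam γ)) *
          star (Top S.lam l) = Top S.lam l * diagOp (fun ξ => ((gfun s N K (a + 1) (b + 1) ξ
            : ℝ) : ℂ)) * star (Top S.lam l) := by
      intro l _
      rw [← Finset.sum_mul, ← Finset.mul_sum, ← sum_wordsLt, ih]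
    have hb : ∀ (a b : ℕ) (ξ : Path S.lam), ‖((gfun s N K a b ξ : ℝ) : ℂ)‖ ≤ K := by
      intro a b ξ
      rw [Complex.norm_real, Real.norm_of_nonneg (gfun_nonneg _ _ _ _ _ _)]
      exact gfun_le s hN _ _ _ _
    rw [Finset.sum_congr rfl h2, sum_Top_diag s _ (C := K) (by positivity) (hb _ _)]
    apply op_ext
    intro v ξ
    have hdd : ∀ ξ : Path S.lam, ‖((dfun s N a ξ * dfun s N b ξ : ℝ) : ℂ)‖ ≤ 1 := by
      intro ξ
      push_cast
      rw [norm_mul]
      have h1 := Dop_bdd s hN a ξ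
      have h2 := Dop_bdd s hN b ξ
      calc _ ≤ (1 : ℝ) * 1 := by gcongr
        _ = 1 := one_mul 1
    have hb' : ∀ ξ : Path S.lam, ‖((gfun s N (K + 1) a b ξ : ℝ) : ℂ)‖ ≤ (K + 1 : ℕ) := by
      intro ξ
      rw [Complex.norm_real, Real.norm_of_nonneg (gfun_nonneg _ _ _ _ _ _)]
      exact gfun_le s hN _ _ _ _
    simp only [words, Finset.sum_singleton, TT_nil, one_mul, star_one, mul_one, List.length_nil,
      add_zero]
    rw [ContinuousLinearMap.add_apply, lp.coeFn_add, Pi.add_apply,
      diagOp_apply (shiftF_bdd (by positivity) (hb _ _)), diagOp_apply hdd, diagOp_apply hb',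
      ← add_mul]
    congr 1
    simp only [gfun, shiftF]
    push_cast
    split_ifs
    · ring
    · simp

end

end Dini
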