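import Pool.Agent.Dini.System

/-!
Backward orbits in a dynamical presentation (MP_6e5c74_an).
-/

open Topology Set TopologicalSpace

namespace Dini

universe u

section

variable {X : Type u} [TopologicalSpace X] (pr : Presentation X) (x : X)

/-- the points of `Q` lying below `x` -/
def below : Set pr.Q := {q | ∃ h : q ∉ pr.D, x ⤳ pr.proj ⟨q, h⟩}

lemma below_nonempty : (below pr x).Nonempty := by
  obtain ⟨q, h, _, h2⟩ := pr.epi univ isOpen_univ x (mem_univ _)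
  exact ⟨q, h, h2⟩

lemma isClosed_inter_below {C : Set pr.Q} (hC : IsClosed C) (hCD : ∀ q ∈ C, q ∉ pr.D) :
    IsClosed (C ∩ below pr x) := by
  have hO := pr.cont (closure {x})ᶜ isClosed_closure.isOpen_compl
  have : C ∩ below pr x = C ∩ {q : pr.Q | ∃ h : q ∉ pr.D, pr.proj ⟨q, h⟩ ∈ (closure {x})ᶜ}ᶜ := by
    ext q
    constructor
    · rintro ⟨h1, h2, h3⟩
      refine ⟨h1, ?_⟩
      rintro ⟨h4, h5⟩
      exact h5 (specializes_iff_mem_closure.1 h3)
    · rintro ⟨h1, h2⟩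
      refine ⟨h1, hCD q h1, ?_⟩
      rw [specializes_iff_mem_closure]
      by_contra h3
      exact h2 ⟨hCD q h1, h3⟩
  rw [this]
  exact hC.inter hO.isClosed_compl

/-- good open sets -/
def Good (W : Set pr.Q) : Prop :=
  IsOpen W ∧ (∀ q ∈ closure W, q ∉ pr.D) ∧ (W ∩ below pr x).Nonempty

lemma exists_good {O : Set pr.Q} (hO : IsOpen O) (hOD : ∀ q ∈ O, q ∉ pr.D) {r : pr.Q}
    (hr : r ∈ O) (hrx : r ∈ below pr x) : ∃ W, Good pr x W ∧ closure W ⊆ O := by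
  obtain ⟨W, h1, h2, h3⟩ := exists_open_between_and_isCompact_closure (isCompact_singleton (x := r))
    hO (by simpa using hr)
  refine ⟨W, ⟨h1, fun q hq => hOD q (h3.1 hq), ⟨r, h2 (mem_singleton r), hrx⟩⟩, h3.1⟩

lemma exists_step {W V : Set pr.Q} (hW : Good pr x W) (hV : IsOpen V) (hVD : ∀ q ∈ V, q ∉ pr.D)
    (hVx : (V ∩ below pr x).Nonempty) : ∃ (W' : Set pr.Q) (j j2 : pr.J), Good pr x W' ∧
      (∀ q ∈ closure W', pr.lam j q ∈ W) ∧ (∀ q ∈ closure W', pr.lam j2 q ∈ V) := by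
  obtain ⟨hWo, hWD, q1, hq1, h1, h1'⟩ := hW
  obtain ⟨q2, hq2, h2, h2'⟩ := hVx
  have hWD' : ∀ q ∈ W, q ∉ pr.D := fun q hq => hWD q (subset_closure hq)
  have hU1 := pr.open_sat W hWo hWD'
  have hU2 := pr.open_sat V hV hVD
  obtain ⟨r, hr, ⟨⟨a1, b1, c1, d1⟩, ⟨a2, b2, c2, d2⟩⟩, hrx⟩ := pr.epi _ (hU1.inter hU2) x
    ⟨⟨q1, h1, hq1, h1'⟩, ⟨q2, h2, hq2, h2'⟩⟩
  obtain ⟨j, hj⟩ := pr.dense W hWo hWD' r hr ⟨a1, b1, c1, d1⟩
  obtain ⟨j2, hj2⟩ := pr.dense V hV hVD r hr ⟨a2, b2, c2, d2⟩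
  have hO : IsOpen (pr.Dᶜ ∩ ((pr.lam j) ⁻¹' W ∩ (pr.lam j2) ⁻¹' V)) :=
    pr.isClosed_D.isOpen_compl.inter
      ((hWo.preimage (pr.lam j).continuous).inter (hV.preimage (pr.lam j2).continuous))
  obtain ⟨W', hW', hW'2⟩ := exists_good pr x hO (fun q hq => hq.1) ⟨hr, hj, hj2⟩ ⟨hr, hrx⟩
  exact ⟨W', j, j2, hW', fun q hq => (hW'2 hq).2.1, fun q hq => (hW'2 hq).2.2⟩

end

theorem exists_backward {X : Type u} [TopologicalSpace X] (pr : Dini.Presentation X) (x : X) :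
    ∃ (w : ℕ → pr.J) (p : ℕ → pr.Q), (∀ i, p i = pr.lam (w i) (p (i+1))) ∧
      (∀ i, ∃ h : p i ∉ pr.D, x ⤳ pr.proj ⟨p i, h⟩) ∧
      ∀ V : Set pr.Q, IsOpen V → (∀ q ∈ V, q ∉ pr.D) →
        (∃ (q : pr.Q) (h : q ∉ pr.D), q ∈ V ∧ x ⤳ pr.proj ⟨q, h⟩) → ∃ i j, pr.lam j (p i) ∈ V := by
  classical
  -- countable basis
  obtain ⟨Bs, hBc, _, hB⟩ := exists_countable_basis pr.Q
  obtain ⟨e, he⟩ := (hBc.insert (∅ : Set pr.Q)).exists_eq_range ⟨∅, mem_insert _ _⟩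
  -- the step function
  have hstep : ∀ (W : {W : Set pr.Q // Good pr x W}) (k : ℕ), ∃ (W' : {W : Set pr.Q // Good pr x W})
      (j j2 : pr.J), (∀ q ∈ closure W'.1, pr.lam j q ∈ W.1) ∧
      (IsOpen (e k) → (∀ q ∈ e k, q ∉ pr.D) → (e k ∩ below pr x).Nonempty →
        ∀ q ∈ closure W'.1, pr.lam j2 q ∈ e k) := by
    intro W k
    by_cases h : IsOpen (e k) ∧ (∀ q ∈ e k, q ∉ pr.D) ∧ (e k ∩ below pr x).Nonempty
    · obtain ⟨W', j, j2, h1, h2, h3⟩ := exists_step pr x W.2 h.1 h.2.1 h.2.2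
      exact ⟨⟨W', h1⟩, j, j2, h2, fun _ _ _ => h3⟩
    · obtain ⟨W', j, j2, h1, h2, h3⟩ := exists_step pr x W.2 W.2.1
        (fun q hq => W.2.2.1 q (subset_closure hq)) W.2.2.2
      exact ⟨⟨W', h1⟩, j, j2, h2, fun a b c => absurd ⟨a, b, c⟩ h⟩
  choose nxt jj jj2 hn1 hn2 using hstep
  obtain ⟨r0, hr0⟩ := below_nonempty pr x
  obtain ⟨W0, hW0, _⟩ := exists_good pr x pr.isClosed_D.isOpen_compl (fun q hq => hq) hr0.1 hr0
  let W : ℕ → {W : Set pr.Q // Good pr x W} := fun n => Nat.rec ⟨W0, hW0⟩ (fun k W => nxt W k) n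
  have hWs : ∀ n, W (n + 1) = nxt (W n) n := fun n => rfl
  let w : ℕ → pr.J := fun n => jj (W n) n
  let K : ℕ → Set pr.Q := fun n => closure (W n).1 ∩ below pr x
  have hKc : ∀ n, IsClosed (K n) := fun n =>
    isClosed_inter_below pr x isClosed_closure (W n).2.2.1
  have hKne : ∀ n, (K n).Nonempty := by
    intro n
    obtain ⟨q, h1, h2⟩ := (W n).2.2.2
    exact ⟨q, subset_closure h1, h2⟩
  have hKmap : ∀ n, ∀ q ∈ K (n + 1), pr.lam (w n) q ∈ K n := by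
    rintro n q ⟨h1, h2, h3⟩
    have h4 : pr.lam (w n) q ∈ (W n).1 := hn1 (W n) n q h1
    have h5 : pr.lam (w n) q ∉ pr.D := (W n).2.2.1 _ (subset_closure h4)
    exact ⟨subset_closure h4, h5, h3.trans (pr.lam_spec (w n) q h2 h5)⟩
  -- inverse limit
  let C : ℕ → Set (ℕ → pr.Q) := fun n =>
    {p | (∀ i, p i ∈ K i) ∧ ∀ i, i < n → p i = pr.lam (w i) (p (i + 1))}
  have hCne' : ∀ n, ∀ q ∈ K n, ∃ p ∈ C n, p n = q := by
    intro n
    induction n with
    | zero =>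
      intro q hq
      choose p0 hp0 using hKne
      refine ⟨Function.update p0 0 q, ⟨?_, fun i hi => absurd hi (Nat.not_lt_zero _)⟩, by simp⟩
      intro i
      by_cases hi : i = 0
      · subst hi; simpa using hq
      · rw [Function.update_of_ne hi]; exact hp0 i
    | succ n ih =>
      intro q hq
      obtain ⟨p, ⟨h1, h2⟩, h3⟩ := ih _ (hKmap n q hq)
      refine ⟨Function.update p (n + 1) q, ⟨?_, ?_⟩, by simp⟩
      · intro i
        by_cases hi : i = n + 1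
        · subst hi; simpa using hq
        · rw [Function.update_of_ne hi]; exact h1 i
      · intro i hi
        rw [Function.update_of_ne (by omega)]
        by_cases hi' : i = n
        · subst hi'
          rw [Function.update_self, h3]
        · rw [Function.update_of_ne (by omega)]
          exact h2 i (by omega)
  have hCne : ∀ n, (C n).Nonempty := by
    intro n
    obtain ⟨q, hq⟩ := hKne n
    obtain ⟨p, hp, _⟩ := hCne' n q hq
    exact ⟨p, hp⟩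
  have hCcl : ∀ n, IsClosed (C n) := by
    intro n
    have : C n = (⋂ i, {p : ℕ → pr.Q | p i ∈ K i}) ∩
        ⋂ (i : ℕ) (_ : i < n), {p : ℕ → pr.Q | p i = pr.lam (w i) (p (i + 1))} := by
      ext p
      simp only [C, mem_ofPred_eq, mem_inter_iff, mem_iInter]
    rw [this]
    refine (isClosed_iInter fun i => (hKc i).preimage (continuous_apply i)).inter ?_
    refine isClosed_iInter fun i => isClosed_iInter fun _ => ?_
    exact isClosed_eq (continuous_apply i) ((pr.lam (w i)).continuous.comp (continuous_apply (i + 1)))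
  have hanti : ∀ n, C (n + 1) ⊆ C n := fun n p hp => ⟨hp.1, fun i hi => hp.2 i (by omega)⟩
  obtain ⟨p, hp⟩ := IsCompact.nonempty_iInter_of_sequence_nonempty_isCompact_isClosed C hanti hCne
    (hCcl 0).isCompact hCcl
  rw [mem_iInter] at hp
  refine ⟨w, p, fun i => (hp (i + 1)).2 i (Nat.lt_succ_self i), fun i => ((hp 0).1 i).2, ?_⟩
  rintro V hV hVD ⟨q, h, hqV, hxq⟩
  obtain ⟨O, hO, hqO, hOV⟩ := hB.exists_subset_of_mem_open hqV hV
  have : O ∈ range e := by rw [← he]; exact mem_insert_of_mem _ hO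
  obtain ⟨k, rfl⟩ := this
  refine ⟨k + 1, jj2 (W k) k, hOV ?_⟩
  exact hn2 (W k) k (hB.isOpen hO) (fun q hq => hVD q (hOV hq)) ⟨q, hqO, h, hxq⟩ _ ((hp 0).1 (k + 1)).1

end Dini
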