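import Pool.Agent.Dini.Psi

/-!
# Convergence of `Psi ∘ Phi` to the identity of the algebra
-/

open scoped ENNReal InnerProductSpace ComplexConjugate
open ContinuousLinearMap

namespace Dini

noncomputable section

variable {Q L : Type} [TopologicalSpace Q] [CompactSpace Q] {S : Data Q L}

lemma coef_Eop_append {μ ν : List L} {f : C(Q, ℂ)} (hf : ∀ q ∈ S.D, f q = 0) (γ : List L) :
    coef (Eop S.lam μ f ν) (μ ++ γ) (ν ++ γ) = f.comp (ev S.lam γ) := by
  classical
  ext q
  rw [coef_apply (Eop_mem hf), Eop_evec_append, inner_smul_right, inner_evec, if_pos rfl, mul_one]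
  rfl

lemma coef_Eop_of_not {μ ν : List L} {f : C(Q, ℂ)} (hf : ∀ q ∈ S.D, f q = 0) {α β : List L}
    (h : ∀ γ, ¬ (α = μ ++ γ ∧ β = ν ++ γ)) : coef (Eop S.lam μ f ν) α β = 0 := by
  classical
  ext q
  rw [coef_apply (Eop_mem hf)]
  by_cases h1 : ∃ γ, β = ν ++ γ
  · obtain ⟨γ, rfl⟩ := h1
    rw [Eop_evec_append, inner_smul_right, inner_evec, if_neg, mul_zero]
    · rfl
    · intro h2
      exact h γ ⟨h2, rfl⟩
  · push Not at h1
    rw [Eop_evec_of_not _ _ _ _ _ h1, inner_zero_right]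
    rfl

lemma PsiOp_Eop (s : Finset L) {N K : ℕ} (hN : 0 < N) {μ ν : List L} {f : C(Q, ℂ)}
    (hf : ∀ q ∈ S.D, f q = 0) (hμ : ∀ l ∈ μ, l ∈ s) (hν : ∀ l ∈ ν, l ∈ s)
    (hK : max μ.length ν.length + K = N) :
    PsiOp S s N (coef (Eop S.lam μ f ν)) = TT S.lam μ *
      diagOp (fun ξ => ((gfun s N K μ.length ν.length ξ : ℝ) : ℂ)) * Mop S.lam f *
      star (TT S.lam ν) := by
  classical
  unfold PsiOp
  rw [← Finset.sum_product']
  have hinj : Set.InjOn (fun γ : List L => (μ ++ γ, ν ++ γ)) (wordsLt s K) := by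
    intro γ _ γ' _ h
    simp only [Prod.mk.injEq, List.append_cancel_left_eq, and_self] at h
    exact h
  have hsub : (wordsLt s K).image (fun γ : List L => (μ ++ γ, ν ++ γ)) ⊆
      wordsLt s N ×ˢ wordsLt s N := by
    intro p hp
    rw [Finset.mem_image] at hp
    obtain ⟨γ, hγ, rfl⟩ := hp
    rw [mem_wordsLt] at hγ
    rw [Finset.mem_product, mem_wordsLt, mem_wordsLt]
    refine ⟨⟨?_, ?_⟩, ⟨?_, ?_⟩⟩
    · have := le_max_left μ.length ν.length
      simp only [List.length_append]; omega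
    · intro l hl
      rcases List.mem_append.1 hl with h | h
      · exact hμ l h
      · exact hγ.2 l h
    · have := le_max_right μ.length ν.length
      simp only [List.length_append]; omega
    · intro l hl
      rcases List.mem_append.1 hl with h | h
      · exact hν l h
      · exact hγ.2 l h
  rw [← Finset.sum_subset hsub]
  · rw [Finset.sum_image hinj, ← sum_TT_diag s hN K, Finset.mul_sum, Finset.sum_mul,
      Finset.sum_mul]
    apply Finset.sum_congr rfl
    intro γ _
    simp only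
    rw [coef_Eop_append hf, TT_append, TT_append, star_mul, ← Dop_mul_Dop s hN]
    simp only [List.length_append, mul_assoc]
    congr 2
    congr 1
    rw [← mul_assoc (Mop S.lam (f.comp (ev S.lam γ))), ← Dop_mul_Mop s hN, mul_assoc,
      ← mul_assoc (Mop S.lam (f.comp (ev S.lam γ))), ← star_TT_mul_Mop]
    simp only [mul_assoc]
  · intro p hp hnot
    rw [coef_Eop_of_not hf, Mop_zero]
    · simp
    · intro γ hγ
      apply hnot
      rw [Finset.mem_image]
      rw [Finset.mem_product, mem_wordsLt, mem_wordsLt, hγ.1, hγ.2] at hp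
      refine ⟨γ, ?_, by rw [← hγ.1, ← hγ.2]⟩
      rw [mem_wordsLt]
      obtain ⟨⟨h1, h2⟩, ⟨h3, _⟩⟩ := hp
      simp only [List.length_append] at h1 h3
      refine ⟨?_, fun l hl => h2 l (by simp [hl])⟩
      rcases max_cases μ.length ν.length with h | h <;> omega

lemma PsiOp_Eop_sub (s : Finset L) {N : ℕ} (hN : 0 < N) {μ ν : List L} {f : C(Q, ℂ)}
    (hf : ∀ q ∈ S.D, f q = 0) (hμ : ∀ l ∈ μ, l ∈ s) (hν : ∀ l ∈ ν, l ∈ s)
    (hK : max μ.length ν.length ≤ N) :
    ‖PsiOp S s N (coef (Eop S.lam μ f ν)) - Eop S.lam μ f ν‖ ≤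
      ((max μ.length ν.length : ℕ) : ℝ) / N * ‖f‖ := by
  obtain ⟨K, hK⟩ : ∃ K, max μ.length ν.length + K = N := ⟨N - max μ.length ν.length, by omega⟩
  have hN' : (0 : ℝ) < N := by exact_mod_cast hN
  set g : Path S.lam → ℂ := fun ξ => ((gfun s N K μ.length ν.length ξ : ℝ) : ℂ) with hg
  set C : ℝ := ((max μ.length ν.length : ℕ) : ℝ) / N with hC
  have hC0 : 0 ≤ C := by positivity
  have hgb : ∀ ξ, ‖g ξ‖ ≤ K := by
    intro ξ
    rw [hg]
    simp only
    rw [Complex.norm_real, Real.norm_of_nonneg (gfun_nonneg _ _ _ _ _ _)]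
    exact gfun_le s hN _ _ _ _
  have hd : ∀ ξ, ‖g ξ - 1‖ ≤ C := by
    intro ξ
    have h1 := gfun_bounds s hN K μ.length ν.length hK ξ
    have h2 : g ξ - 1 = ((gfun s N K μ.length ν.length ξ - 1 : ℝ) : ℂ) := by
      rw [hg]; push_cast; ring
    rw [h2, Complex.norm_real, Real.norm_eq_abs, abs_le]
    have h3 : (K : ℝ) / N = 1 - C := by
      rw [hC]
      have : ((max μ.length ν.length + K : ℕ) : ℝ) = N := by exact_mod_cast hK
      push_cast at this ⊢
      field_simp
      linarith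
    have h4 : ((N : ℝ) - min (μ.length : ℝ) (ν.length : ℝ)) / N ≤ 1 := by
      rw [div_le_one hN']
      have : (0 : ℝ) ≤ min (μ.length : ℝ) (ν.length : ℝ) := by positivity
      linarith
    constructor <;> linarith [h1.1, h1.2]
  have h1 : PsiOp S s N (coef (Eop S.lam μ f ν)) - Eop S.lam μ f ν =
      TT S.lam μ * diagOp (fun ξ => g ξ - 1) * Mop S.lam f * star (TT S.lam ν) := by
    rw [PsiOp_Eop s hN hf hμ hν hK]
    have h2 : diagOp (fun ξ => g ξ - 1) = diagOp g - 1 := by
      apply op_ext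
      intro v ξ
      rw [diagOp_apply hd, ContinuousLinearMap.sub_apply, lp.coeFn_sub, Pi.sub_apply,
        diagOp_apply hgb, ContinuousLinearMap.one_apply]
      ring
    rw [h2]
    unfold Eop
    noncomm_ring
  rw [h1]
  calc ‖TT S.lam μ * diagOp (fun ξ => g ξ - 1) * Mop S.lam f * star (TT S.lam ν)‖
      ≤ ‖TT S.lam μ‖ * ‖diagOp (fun ξ => g ξ - 1)‖ * ‖Mop S.lam f‖ * ‖star (TT S.lam ν)‖ := by
        refine (norm_mul_le _ _).trans ?_
        gcongr
        refine (norm_mul_le _ _).trans ?_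
        gcongr
        exact norm_mul_le _ _
    _ ≤ 1 * C * ‖f‖ * 1 := by
        rw [star_norm]
        have h1 := TT_norm (lam := S.lam) μ
        have h2 := TT_norm (lam := S.lam) ν
        have h3 := Mop_norm (lam := S.lam) f
        have h4 := diagOp_norm hC0 hd
        gcongr
    _ = C * ‖f‖ := by ring

/-- Convergence of the approximation, in an eventual form. -/
theorem PsiOp_tendsto : ∀ a ∈ alg S, ∀ ε : ℝ, 0 < ε → ∃ (s0 : Finset L) (N0 : ℕ),
    ∀ s : Finset L, s0 ⊆ s → ∀ N : ℕ, N0 ≤ N → 0 < N → ‖PsiOp S s N (coef a) - a‖ < ε := by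
  classical
  have key : ∀ a ∈ alg S, a ∈ alg S ∧ ∀ ε : ℝ, 0 < ε → ∃ (s0 : Finset L) (N0 : ℕ),
    ∀ s : Finset L, s0 ⊆ s → ∀ N : ℕ, N0 ≤ N → 0 < N → ‖PsiOp S s N (coef a) - a‖ < ε := by
    apply alg_induction
    · rw [← isSeqClosed_iff_isClosed]
      intro a b ha hab
      have hb : b ∈ alg S := (alg_isClosed S).mem_of_tendsto hab
        (Filter.Eventually.of_forall fun n => (ha n).1)
      refine ⟨hb, fun ε hε => ?_⟩
      have h1 := (Metric.tendsto_nhds.1 hab) (ε / 3) (by positivity)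
      obtain ⟨n, hn⟩ := h1.exists
      obtain ⟨s0, N0, h⟩ := (ha n).2 (ε / 3) (by positivity)
      refine ⟨s0, N0, fun s hs N hN hN0 => ?_⟩
      have h2 := h s hs N hN hN0
      have h3 : PsiOp S s N (coef b) - b = PsiOp S s N (coef (b - a n)) +
          (PsiOp S s N (coef (a n)) - a n) - (b - a n) := by
        rw [PsiOp_coef_sub s N hb (ha n).1]
        abel
      have h4 : ‖b - a n‖ < ε / 3 := by rw [← dist_eq_norm, dist_comm]; exact hn
      rw [h3]
      calc ‖PsiOp S s N (coef (b - a n)) + (PsiOp S s N (coef (a n)) - a n) - (b - a n)‖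
          ≤ ‖PsiOp S s N (coef (b - a n))‖ + ‖PsiOp S s N (coef (a n)) - a n‖ + ‖b - a n‖ := by
            refine (norm_sub_le _ _).trans ?_
            gcongr
            exact norm_add_le _ _
        _ < ε / 3 + ε / 3 + ε / 3 := by
            have h5 := PsiOp_coef_norm s hN0 (sub_mem hb (ha n).1)
            gcongr
            exact lt_of_le_of_lt h5 h4
        _ = ε := by ring
    · rintro a b ⟨ha, ha'⟩ ⟨hb, hb'⟩
      refine ⟨add_mem ha hb, fun ε hε => ?_⟩
      obtain ⟨s1, N1, h1⟩ := ha' (ε / 2) (by positivity)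
      obtain ⟨s2, N2, h2⟩ := hb' (ε / 2) (by positivity)
      refine ⟨s1 ∪ s2, max N1 N2, fun s hs N hN hN0 => ?_⟩
      have h3 := h1 s (Finset.union_subset_left hs) N ((le_max_left _ _).trans hN) hN0
      have h4 := h2 s (Finset.union_subset_right hs) N ((le_max_right _ _).trans hN) hN0
      rw [PsiOp_coef_add s N ha hb]
      calc ‖PsiOp S s N (coef a) + PsiOp S s N (coef b) - (a + b)‖
          = ‖(PsiOp S s N (coef a) - a) + (PsiOp S s N (coef b) - b)‖ := by
            congr 1; abel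
        _ ≤ ‖PsiOp S s N (coef a) - a‖ + ‖PsiOp S s N (coef b) - b‖ := norm_add_le _ _
        _ < ε / 2 + ε / 2 := by gcongr
        _ = ε := by ring
    · intro μ f ν hf
      refine ⟨Eop_mem hf, fun ε hε => ?_⟩
      obtain ⟨N0, hN0⟩ := exists_nat_gt (((max μ.length ν.length : ℕ) : ℝ) * ‖f‖ / ε)
      refine ⟨μ.toFinset ∪ ν.toFinset, max N0 (max μ.length ν.length), fun s hs N hN hNp => ?_⟩
      have h1 : ∀ l ∈ μ, l ∈ s := fun l hl => hs (by simp [hl])
      have h2 : ∀ l ∈ ν, l ∈ s := fun l hl => hs (by simp [hl])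
      refine (PsiOp_Eop_sub s hNp hf h1 h2 ((le_max_right _ _).trans hN)).trans_lt ?_
      have hNp' : (0 : ℝ) < N := by exact_mod_cast hNp
      rw [div_mul_eq_mul_div, div_lt_iff₀ hNp']
      rw [div_lt_iff₀ hε] at hN0
      have h3 : (N0 : ℝ) ≤ N := by exact_mod_cast (le_max_left _ _).trans hN
      calc _ < (N0 : ℝ) * ε := hN0
        _ ≤ N * ε := by gcongr
        _ = ε * N := by ring
  exact fun a ha => (key a ha).2

end

end Dini
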