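import Mathlib

/-!
# Definitions: primitive ideal space and nuclearity of a C*-algebra (MP_6e5c74_an)
-/

open scoped CStarAlgebra Topology ComplexOrder

namespace Dini

/-- A *-representation `π` of `A` on a Hilbert space `K` is irreducible: it is not zero, and the
only closed invariant subspaces are `0` and `K`. -/
def IsIrreducibleRep {A K : Type} [NonUnitalCStarAlgebra A] [NormedAddCommGroup K]
    [InnerProductSpace ℂ K] [CompleteSpace K] (π : A →⋆ₙₐ[ℂ] (K →L[ℂ] K)) : Prop :=
  (∃ a, π a ≠ 0) ∧ ∀ M : Submodule ℂ K, IsClosed (M : Set K) →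
    (∀ a, ∀ v ∈ M, π a v ∈ M) → M = ⊥ ∨ M = ⊤

/-- `P` is a primitive ideal of `A`: the kernel of an irreducible *-representation on a Hilbert
space. -/
def IsPrimitiveIdeal (A : Type) [NonUnitalCStarAlgebra A] (P : Set A) : Prop :=
  ∃ (K : Type) (_ : NormedAddCommGroup K) (_ : InnerProductSpace ℂ K) (_ : CompleteSpace K)
    (π : A →⋆ₙₐ[ℂ] (K →L[ℂ] K)), IsIrreducibleRep π ∧ P = {a | π a = 0}

/-- The set of primitive ideals of `A`. -/
def Prim (A : Type) [NonUnitalCStarAlgebra A] : Type := {P : Set A // IsPrimitiveIdeal A P}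

/-- If `a`, `b` do not lie in a primitive ideal, then some `a * c * b` does not. -/
lemma IsPrimitiveIdeal.exists_mul {A : Type} [NonUnitalCStarAlgebra A] {P : Set A}
    (hP : IsPrimitiveIdeal A P) {a b : A} (ha : a ∉ P) (hb : b ∉ P) : ∃ c, a * c * b ∉ P := by
  obtain ⟨K, _, _, _, π, ⟨⟨a0, ha0⟩, hirr⟩, rfl⟩ := hP
  simp only [Set.mem_setOf_eq] at ha hb ⊢
  by_contra hcon
  push Not at hcon
  obtain ⟨v, hv⟩ : ∃ v, π b v ≠ 0 := by
    by_contra h
    push Not at h
    exact hb (ContinuousLinearMap.ext h)
  set w := π b v with hw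
  -- the subspace of vectors killed by all `π (a * c)`
  let M : Submodule ℂ K :=
    { carrier := {x | ∀ c, π (a * c) x = 0}
      add_mem' := by
        intro x y hx hy c
        rw [map_add, hx c, hy c, add_zero]
      zero_mem' := fun c => map_zero _
      smul_mem' := by
        intro t x hx c
        rw [map_smul, hx c, smul_zero] }
  have hMcl : IsClosed (M : Set K) := by
    have : (M : Set K) = ⋂ c, {x | π (a * c) x = 0} := by
      ext x
      simp only [Set.mem_iInter, Set.mem_setOf_eq]
      rfl
    rw [this]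
    exact isClosed_iInter fun c => isClosed_eq (π (a * c)).continuous continuous_const
  have hMinv : ∀ c, ∀ x ∈ M, π c x ∈ M := by
    intro c x hx d
    have := hx (d * c)
    rw [← mul_assoc, map_mul, ContinuousLinearMap.mul_apply] at this
    exact this
  have hwM : w ∈ M := by
    intro c
    have := hcon c
    rw [map_mul] at this
    have h2 := congrArg (fun T : K →L[ℂ] K => T v) this
    simpa using h2
  have hMtop : M = ⊤ := by
    rcases hirr M hMcl hMinv with h | h
    · rw [h, Submodule.mem_bot] at hwM
      exact absurd hwM hv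
    · exact h
  -- the closed subspace where `π (a * c)` has range in zero: now use the kernel of `π a`
  let M2 : Submodule ℂ K :=
    { carrier := {x | ∀ c, π c x = 0}
      add_mem' := by
        intro x y hx hy c
        rw [map_add, hx c, hy c, add_zero]
      zero_mem' := fun c => map_zero _
      smul_mem' := by
        intro t x hx c
        rw [map_smul, hx c, smul_zero] }
  have hM2cl : IsClosed (M2 : Set K) := by
    have : (M2 : Set K) = ⋂ c, {x | π c x = 0} := by
      ext x
      simp only [Set.mem_iInter, Set.mem_setOf_eq]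
      rfl
    rw [this]
    exact isClosed_iInter fun c => isClosed_eq (π c).continuous continuous_const
  have hM2 : M2 = ⊥ := by
    rcases hirr M2 hM2cl (fun c x hx d => by rw [hx c, map_zero]) with h | h
    · exact h
    · exfalso
      apply ha0
      apply ContinuousLinearMap.ext
      intro x
      have : x ∈ M2 := by rw [h]; trivial
      exact this a0
  -- `π (star a) (π a x)` is zero: take `c = star a` after taking adjoints
  apply ha
  apply ContinuousLinearMap.ext
  intro x
  have h1 : star (π a) x ∈ M2 := by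
    intro c
    -- `π c (π a)^* x = 0` since its adjoint `π a (π c)^*` is zero
    have h2 : π (a * star c) = 0 := by
      apply ContinuousLinearMap.ext
      intro y
      have : y ∈ M := by rw [hMtop]; trivial
      exact this (star c)
    have h3 : π c * star (π a) = 0 := by
      have := congrArg star h2
      rw [map_mul, star_mul, star_zero, map_star, star_star] at this
      exact this
    have h4 := congrArg (fun T : K →L[ℂ] K => T x) h3
    simpa using h4
  rw [hM2, Submodule.mem_bot] at h1
  have h5 : star (π a) = 0 := by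
    apply ContinuousLinearMap.ext
    intro y
    have h1 : star (π a) y ∈ M2 := by
      intro c
      have h2 : π (a * star c) = 0 := by
        apply ContinuousLinearMap.ext
        intro z
        have : z ∈ M := by rw [hMtop]; trivial
        exact this (star c)
      have h3 : π c * star (π a) = 0 := by
        have := congrArg star h2
        rw [map_mul, star_mul, star_zero, map_star, star_star] at this
        exact this
      have h4 := congrArg (fun T : K →L[ℂ] K => T y) h3
      simpa using h4
    rw [hM2, Submodule.mem_bot] at h1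
    simpa using h1
  have h6 : π a = 0 := by
    have := congrArg star h5
    rwa [star_star, star_zero] at this
  rw [h6]

/-- A primitive ideal is closed under multiplication by elements of `A`. -/
lemma IsPrimitiveIdeal.mul_mem {A : Type} [NonUnitalCStarAlgebra A] {P : Set A}
    (hP : IsPrimitiveIdeal A P) {a b : A} (h : a ∈ P ∨ b ∈ P) : a * b ∈ P := by
  obtain ⟨K, _, _, _, π, _, rfl⟩ := hP
  simp only [Set.mem_setOf_eq] at h ⊢
  rw [map_mul]
  rcases h with h | h <;> simp [h]

/-- The hull-kernel (Jacobson) topology on the primitive ideal space of `A`: the open sets are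
the sets `{P | S is not contained in P}` for `S` a subset of `A`. -/
instance instTopologicalSpacePrim (A : Type) [NonUnitalCStarAlgebra A] :
    TopologicalSpace (Prim A) where
  IsOpen U := ∃ S : Set A, U = {P : Prim A | ¬ S ⊆ P.1}
  isOpen_univ := by
    refine ⟨Set.univ, ?_⟩
    ext P
    simp only [Set.mem_univ, Set.mem_setOf_eq, true_iff]
    obtain ⟨K, _, _, _, π, ⟨⟨a0, ha0⟩, _⟩, hP⟩ := P.2
    intro h
    have := h (Set.mem_univ a0)
    rw [hP] at this
    exact ha0 this
  isOpen_inter := by
    rintro _ _ ⟨S, rfl⟩ ⟨T, rfl⟩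
    refine ⟨{x | ∃ a ∈ S, ∃ b ∈ T, ∃ c, x = a * c * b}, ?_⟩
    ext P
    simp only [Set.mem_inter_iff, Set.mem_setOf_eq, Set.not_subset]
    constructor
    · rintro ⟨⟨a, ha, haP⟩, ⟨b, hb, hbP⟩⟩
      obtain ⟨c, hc⟩ := P.2.exists_mul haP hbP
      exact ⟨a * c * b, ⟨a, ha, b, hb, c, rfl⟩, hc⟩
    · rintro ⟨_, ⟨a, ha, b, hb, c, rfl⟩, h⟩
      refine ⟨⟨a, ha, fun h' => h ?_⟩, ⟨b, hb, fun h' => h ?_⟩⟩
      · exact P.2.mul_mem (Or.inl (P.2.mul_mem (Or.inl h')))
      · exact P.2.mul_mem (Or.inr h')
  isOpen_sUnion := by
    intro s hs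
    choose! S hS using hs
    refine ⟨⋃ U ∈ s, S U, ?_⟩
    ext P
    simp only [Set.mem_sUnion, Set.mem_setOf_eq, Set.iUnion_subset_iff, not_forall]
    constructor
    · rintro ⟨U, hU, hPU⟩
      rw [hS U hU] at hPU
      exact ⟨U, hU, hPU⟩
    · rintro ⟨U, hU, hPU⟩
      refine ⟨U, hU, ?_⟩
      rw [hS U hU]
      exact hPU

/-- Nuclearity of a C*-algebra, in the form of the completely positive approximation property:
the identity map is a point-norm limit of maps which factor through matrix algebras by completely
positive contractions. -/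
def IsNuclear (A : Type) [NonUnitalCStarAlgebra A] [PartialOrder A] [StarOrderedRing A] : Prop :=
  ∀ (F : Finset A) (ε : ℝ), 0 < ε → ∃ (n : ℕ) (φ : A →CP CStarMatrix (Fin n) (Fin n) ℂ)
    (ψ : CStarMatrix (Fin n) (Fin n) ℂ →CP A),
    (∀ a, ‖φ a‖ ≤ ‖a‖) ∧ (∀ X, ‖ψ X‖ ≤ ‖X‖) ∧ ∀ a ∈ F, ‖ψ (φ a) - a‖ < ε

end Dini
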