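import Mathlib

/-!
# Elementary operators on `ℓ²(Ξ)`
-/

open scoped ENNReal InnerProductSpace
open ContinuousLinearMap

namespace Dini

noncomputable section

variable {Ξ Ξ' : Type}

/-- The Hilbert space `ℓ²(Ξ)`. -/
abbrev H (Ξ : Type) : Type := lp (fun _ : Ξ => ℂ) 2

lemma two_toReal : (2 : ℝ≥0∞).toReal = 2 := by norm_num

lemma H.summable_sq (v : H Ξ) : Summable (fun ξ => ‖v ξ‖ ^ 2) := by
  have h := (lp.memℓp v).summable (by norm_num)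
  simpa using h

lemma H.norm_sq (v : H Ξ) : ‖v‖ ^ 2 = ∑' ξ, ‖v ξ‖ ^ 2 := by
  have h := lp.norm_rpow_eq_tsum (p := 2) (by norm_num) v
  simpa using h

lemma H.sum_le (v : H Ξ) (s : Finset Ξ) : ∑ i ∈ s, ‖v i‖ ^ 2 ≤ ‖v‖ ^ 2 := by
  rw [H.norm_sq]
  exact (H.summable_sq v).sum_le_tsum s (fun i _ => by positivity)

lemma H.memlp_of {f : Ξ → ℂ} {C : ℝ} (h : ∀ s : Finset Ξ, ∑ i ∈ s, ‖f i‖ ^ 2 ≤ C) :
    Memℓp f 2 := by
  refine memℓp_gen' (C := C) ?_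
  intro s
  simpa using h s

lemma H.norm_le {v : H Ξ} {C : ℝ} (hC : 0 ≤ C)
    (h : ∀ s : Finset Ξ, ∑ i ∈ s, ‖v i‖ ^ 2 ≤ C ^ 2) : ‖v‖ ≤ C := by
  refine lp.norm_le_of_forall_sum_le (by norm_num) hC ?_
  intro s
  simpa using h s

/-- Build a bounded operator from a linear map on functions with a norm estimate. -/
def mkOp (F : (Ξ → ℂ) →ₗ[ℂ] (Ξ' → ℂ)) (C : ℝ) (hC : 0 ≤ C)
    (h : ∀ v : H Ξ, ∀ s : Finset Ξ', ∑ i ∈ s, ‖F v i‖ ^ 2 ≤ C ^ 2 * ‖v‖ ^ 2) :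
    H Ξ →L[ℂ] H Ξ' :=
  LinearMap.mkContinuous
    { toFun := fun v => ⟨F v, H.memlp_of (h v)⟩
      map_add' := by
        intro v w
        apply lp.ext
        change F (⇑(v + w)) = F v + F w
        rw [lp.coeFn_add, map_add]
      map_smul' := by
        intro c v
        apply lp.ext
        change F (⇑(c • v)) = c • F v
        rw [lp.coeFn_smul, map_smul] } C
    (by
      intro v
      refine H.norm_le (by positivity) ?_
      intro s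
      rw [mul_pow]
      exact h v s)

lemma mkOp_apply (F : (Ξ → ℂ) →ₗ[ℂ] (Ξ' → ℂ)) (C : ℝ) (hC : 0 ≤ C)
    (h : ∀ v : H Ξ, ∀ s : Finset Ξ', ∑ i ∈ s, ‖F v i‖ ^ 2 ≤ C ^ 2 * ‖v‖ ^ 2) (v : H Ξ) (i : Ξ') :
    mkOp F C hC h v i = F v i := rfl

lemma mkOp_norm (F : (Ξ → ℂ) →ₗ[ℂ] (Ξ' → ℂ)) (C : ℝ) (hC : 0 ≤ C)
    (h : ∀ v : H Ξ, ∀ s : Finset Ξ', ∑ i ∈ s, ‖F v i‖ ^ 2 ≤ C ^ 2 * ‖v‖ ^ 2) :
    ‖mkOp F C hC h‖ ≤ C :=
  LinearMap.mkContinuous_norm_le _ hC _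

open Classical in
/-- basis vector -/
def bv (ξ : Ξ) : H Ξ := lp.single 2 ξ (1 : ℂ)

open Classical in
lemma bv_apply (ξ η : Ξ) : bv ξ η = if η = ξ then 1 else 0 := by
  unfold bv
  by_cases h : η = ξ
  · subst h
    simp
  · simp [lp.single_apply_ne, h]

lemma bv_self (ξ : Ξ) : bv ξ ξ = 1 := by simp [bv_apply]

lemma inner_bv_left (ξ : Ξ) (v : H Ξ) : ⟪bv ξ, v⟫_ℂ = v ξ := by
  classical
  unfold bv
  rw [lp.inner_single_left]
  simp

lemma inner_bv_right (ξ : Ξ) (v : H Ξ) : ⟪v, bv ξ⟫_ℂ = (starRingEnd ℂ) (v ξ) := by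
  rw [← inner_conj_symm, inner_bv_left]

lemma norm_bv (ξ : Ξ) : ‖bv ξ‖ = 1 := by
  classical
  unfold bv
  rw [lp.norm_single (by norm_num)]
  simp

lemma H.ext {v w : H Ξ} (h : ∀ ξ, v ξ = w ξ) : v = w := lp.ext (funext h)

lemma op_ext {a b : H Ξ →L[ℂ] H Ξ'} (h : ∀ v ξ, a v ξ = b v ξ) : a = b :=
  ContinuousLinearMap.ext fun v => H.ext (h v)

/-- The operators are determined by the basis vectors. -/
lemma op_ext_bv {a b : H Ξ →L[ℂ] H Ξ'} (h : ∀ ξ, a (bv ξ) = b (bv ξ)) : a = b := by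
  classical
  apply ContinuousLinearMap.ext
  intro v
  have h1 : HasSum (fun i => lp.single 2 i (v i)) v := lp.hasSum_single (by norm_num) v
  have h2 : ∀ i, lp.single 2 i (v i) = (v i) • bv i := by
    intro i
    unfold bv
    rw [← lp.single_smul]
    simp
  simp only [h2] at h1
  have ha := a.hasSum h1
  have hb := b.hasSum h1
  refine ha.unique ?_
  simpa [h] using hb

/-- composition with an injective map -/
def comapOp (e : Ξ' → Ξ) (he : Function.Injective e) : H Ξ →L[ℂ] H Ξ' :=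
  mkOp (LinearMap.funLeft ℂ ℂ e) 1 zero_le_one (by
    classical
    intro v s
    rw [one_pow, one_mul]
    calc ∑ i ∈ s, ‖(LinearMap.funLeft ℂ ℂ e) v i‖ ^ 2
        = ∑ j ∈ s.image e, ‖v j‖ ^ 2 := by
          rw [Finset.sum_image (fun x _ y _ h => he h)]
          rfl
      _ ≤ ‖v‖ ^ 2 := H.sum_le v _)

lemma comapOp_apply (e : Ξ' → Ξ) (he : Function.Injective e) (v : H Ξ) (i : Ξ') :
    comapOp e he v i = v (e i) := rfl

lemma comapOp_norm (e : Ξ' → Ξ) (he : Function.Injective e) : ‖comapOp e he‖ ≤ 1 :=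
  mkOp_norm _ _ _ _

/-- multiplication by a bounded function (and `0` if the function is not bounded) -/
def diagOp (c : Ξ → ℂ) : H Ξ →L[ℂ] H Ξ := by
  classical
  exact
  if h : ∃ C : ℝ, 0 ≤ C ∧ ∀ ξ, ‖c ξ‖ ≤ C then
    mkOp (LinearMap.pi fun i => c i • LinearMap.proj i) h.choose h.choose_spec.1 (by
      intro v s
      have hC := h.choose_spec
      generalize h.choose = C at hC
      calc ∑ i ∈ s, ‖(LinearMap.pi fun i => c i • LinearMap.proj i : (Ξ → ℂ) →ₗ[ℂ] (Ξ → ℂ)) v i‖ ^ 2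
          = ∑ i ∈ s, ‖c i‖ ^ 2 * ‖v i‖ ^ 2 := by
            apply Finset.sum_congr rfl
            intro i _
            simp [mul_pow]
        _ ≤ ∑ i ∈ s, C ^ 2 * ‖v i‖ ^ 2 := by
            apply Finset.sum_le_sum
            intro i _
            have := hC.2 i
            gcongr
        _ = C ^ 2 * ∑ i ∈ s, ‖v i‖ ^ 2 := by rw [Finset.mul_sum]
        _ ≤ C ^ 2 * ‖v‖ ^ 2 := by
            have := H.sum_le v s
            gcongr)
  else 0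

lemma diagOp_apply {c : Ξ → ℂ} {C : ℝ} (h : ∀ ξ, ‖c ξ‖ ≤ C) (v : H Ξ) (ξ : Ξ) :
    diagOp c v ξ = c ξ * v ξ := by
  have h' : ∃ C : ℝ, 0 ≤ C ∧ ∀ ξ, ‖c ξ‖ ≤ C := ⟨C, (norm_nonneg _).trans (h ξ), h⟩
  unfold diagOp
  rw [dif_pos h', mkOp_apply]
  simp

lemma diagOp_norm {c : Ξ → ℂ} {C : ℝ} (hC : 0 ≤ C) (h : ∀ ξ, ‖c ξ‖ ≤ C) : ‖diagOp c‖ ≤ C := by
  refine ContinuousLinearMap.opNorm_le_bound _ hC ?_
  intro v
  refine H.norm_le (by positivity) ?_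
  intro s
  calc ∑ i ∈ s, ‖diagOp c v i‖ ^ 2 = ∑ i ∈ s, ‖c i‖ ^ 2 * ‖v i‖ ^ 2 := by
        apply Finset.sum_congr rfl
        intro i _
        rw [diagOp_apply h, norm_mul, mul_pow]
    _ ≤ ∑ i ∈ s, C ^ 2 * ‖v i‖ ^ 2 := by
        apply Finset.sum_le_sum
        intro i _
        have := h i
        gcongr
    _ = C ^ 2 * ∑ i ∈ s, ‖v i‖ ^ 2 := by rw [Finset.mul_sum]
    _ ≤ C ^ 2 * ‖v‖ ^ 2 := by
        have := H.sum_le v s
        gcongr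
    _ = (C * ‖v‖) ^ 2 := by ring

end

end Dini
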