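import Pool.Agent.Dini.Conv

/-!
# Closed ideals of the algebra
-/

open scoped ENNReal InnerProductSpace ComplexConjugate
open ContinuousLinearMap Filter Topology

namespace Dini

noncomputable section

variable {Q L : Type} [TopologicalSpace Q] [CompactSpace Q] {S : Data Q L}

/-- closed two-sided ideals of `alg S`, as sets of operators -/
structure IsIdeal (S : Data Q L) (J : Set (H (Path S.lam) →L[ℂ] H (Path S.lam))) : Prop where
  sub : ∀ a ∈ J, a ∈ alg S
  closed : IsClosed J
  zero : (0 : H (Path S.lam) →L[ℂ] H (Path S.lam)) ∈ J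
  add : ∀ a ∈ J, ∀ b ∈ J, a + b ∈ J
  smul : ∀ (c : ℂ), ∀ a ∈ J, c • a ∈ J
  mul_left : ∀ b ∈ alg S, ∀ a ∈ J, b * a ∈ J
  mul_right : ∀ b ∈ alg S, ∀ a ∈ J, a * b ∈ J

namespace IsIdeal

variable {J : Set (H (Path S.lam) →L[ℂ] H (Path S.lam))}

lemma sum_mem (hJ : IsIdeal S J) {ι : Type} (s : Finset ι)
    (f : ι → (H (Path S.lam) →L[ℂ] H (Path S.lam))) (h : ∀ i ∈ s, f i ∈ J) :
    ∑ i ∈ s, f i ∈ J := by
  classical
  induction s using Finset.induction_on with
  | empty => simpa using hJ.zero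
  | insert i s hi ih =>
    rw [Finset.sum_insert hi]
    exact hJ.add _ (h i (by simp)) _ (ih fun j hj => h j (by simp [hj]))

/-- left multipliers of the algebra preserve ideals -/
lemma mult_left (hJ : IsIdeal S J) {m : H (Path S.lam) →L[ℂ] H (Path S.lam)}
    (hm : ∀ b ∈ alg S, m * b ∈ alg S) : ∀ a ∈ J, m * a ∈ J := by
  intro a ha
  letI : PartialOrder (alg S) := CStarAlgebra.spectralOrder _
  haveI : StarOrderedRing (alg S) := CStarAlgebra.spectralOrderedRing _
  have h1 := (CStarAlgebra.increasingApproximateUnit (alg S)).tendsto_mul_right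
    ⟨a, hJ.sub a ha⟩
  have h2 : Tendsto (fun u : alg S => m * ((u : H (Path S.lam) →L[ℂ] H (Path S.lam)) * a))
      (CStarAlgebra.approximateUnit (alg S)) (𝓝 (m * a)) := by
    have h3 := (continuous_subtype_val.tendsto _).comp h1
    exact tendsto_const_nhds.mul h3
  refine hJ.closed.mem_of_tendsto h2 (Eventually.of_forall fun u => ?_)
  rw [← mul_assoc]
  exact hJ.mul_left _ (hm _ u.2) _ ha

lemma mult_right (hJ : IsIdeal S J) {m : H (Path S.lam) →L[ℂ] H (Path S.lam)}
    (hm : ∀ b ∈ alg S, b * m ∈ alg S) : ∀ a ∈ J, a * m ∈ J := by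
  intro a ha
  letI : PartialOrder (alg S) := CStarAlgebra.spectralOrder _
  haveI : StarOrderedRing (alg S) := CStarAlgebra.spectralOrderedRing _
  have h1 := (CStarAlgebra.increasingApproximateUnit (alg S)).tendsto_mul_left
    ⟨a, hJ.sub a ha⟩
  have h2 : Tendsto (fun u : alg S => (a * (u : H (Path S.lam) →L[ℂ] H (Path S.lam))) * m)
      (CStarAlgebra.approximateUnit (alg S)) (𝓝 (a * m)) := by
    have h3 := (continuous_subtype_val.tendsto _).comp h1
    exact h3.mul tendsto_const_nhds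
  refine hJ.closed.mem_of_tendsto h2 (Eventually.of_forall fun u => ?_)
  rw [mul_assoc]
  exact hJ.mul_right _ (hm _ u.2) _ ha

end IsIdeal

/-- the open set attached to an ideal -/
def openOf (J : Set (H (Path S.lam) →L[ℂ] H (Path S.lam))) : Set Q :=
  {q | ∃ f : C(Q, ℂ), Mop S.lam f ∈ J ∧ f q ≠ 0}

lemma coef_nil_eq {a : H (Path S.lam) →L[ℂ] H (Path S.lam)} (ha : a ∈ alg S) (α β : List L) :
    coef a α β = coef (star (TT S.lam α) * a * TT S.lam β) [] [] := by
  ext q
  rw [coef_apply ha, coef_apply (mul_TT_mem _ _ (star_TT_mul_mem _ _ ha))]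
  rw [ContinuousLinearMap.mul_apply, ContinuousLinearMap.mul_apply, TT_evec, List.append_nil,
    ContinuousLinearMap.star_eq_adjoint, ContinuousLinearMap.adjoint_inner_right, TT_evec,
    List.append_nil]

lemma norm_coef_le {a : H (Path S.lam) →L[ℂ] H (Path S.lam)} (ha : a ∈ alg S) (α β : List L) :
    ‖coef a α β‖ ≤ ‖a‖ := by
  rw [ContinuousMap.norm_le _ (norm_nonneg _)]
  intro q
  rw [coef_apply ha]
  calc ‖⟪evec S q α, a (evec S q β)⟫_ℂ‖ ≤ ‖evec S q α‖ * ‖a (evec S q β)‖ :=
        norm_inner_le_norm _ _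
    _ ≤ 1 * (‖a‖ * 1) := by
        rw [norm_evec]
        have := a.le_opNorm (evec S q β)
        rw [norm_evec] at this
        gcongr
    _ = ‖a‖ := by ring

/-- compression by a fresh copy of the identity map -/
theorem compress_tendsto : ∀ a ∈ alg S, ∀ ε : ℝ, 0 < ε → ∃ s0 : Finset L,
    ∀ l ∉ s0, (∀ q, S.lam l q = q) →
      ‖star (TT S.lam [l]) * a * TT S.lam [l] - Mop S.lam (coef a [] [])‖ < ε := by
  classical
  have key : ∀ a ∈ alg S, a ∈ alg S ∧ ∀ ε : ℝ, 0 < ε → ∃ s0 : Finset L,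
    ∀ l ∉ s0, (∀ q, S.lam l q = q) →
      ‖star (TT S.lam [l]) * a * TT S.lam [l] - Mop S.lam (coef a [] [])‖ < ε := by
    apply alg_induction
    · rw [← isSeqClosed_iff_isClosed]
      intro a b ha hab
      have hb : b ∈ alg S := (alg_isClosed S).mem_of_tendsto hab
        (Filter.Eventually.of_forall fun n => (ha n).1)
      refine ⟨hb, fun ε hε => ?_⟩
      have h1 := (Metric.tendsto_nhds.1 hab) (ε / 3) (by positivity)
      obtain ⟨n, hn⟩ := h1.exists
      obtain ⟨s0, h⟩ := (ha n).2 (ε / 3) (by positivity)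
      refine ⟨s0, fun l hl hid => ?_⟩
      have h2 := h l hl hid
      have h4 : ‖b - a n‖ < ε / 3 := by rw [← dist_eq_norm, dist_comm]; exact hn
      have h3 : star (TT S.lam [l]) * b * TT S.lam [l] - Mop S.lam (coef b [] [])
          = star (TT S.lam [l]) * (b - a n) * TT S.lam [l] +
            (star (TT S.lam [l]) * a n * TT S.lam [l] - Mop S.lam (coef (a n) [] [])) -
            Mop S.lam (coef (b - a n) [] []) := by
        rw [coef_sub hb (ha n).1, Mop_sub]
        noncomm_ring
      rw [h3]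
      have h5 : ‖star (TT S.lam [l]) * (b - a n) * TT S.lam [l]‖ ≤ ‖b - a n‖ := by
        calc _ ≤ ‖star (TT S.lam [l])‖ * ‖b - a n‖ * ‖TT S.lam [l]‖ := by
              refine (norm_mul_le _ _).trans ?_
              gcongr
              exact norm_mul_le _ _
          _ ≤ 1 * ‖b - a n‖ * 1 := by
              rw [star_norm]
              have := TT_norm (lam := S.lam) [l]
              gcongr
          _ = _ := by ring
      have h6 : ‖Mop S.lam (coef (b - a n) [] [])‖ ≤ ‖b - a n‖ :=
        (Mop_norm _).trans (norm_coef_le (sub_mem hb (ha n).1) _ _)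
      calc _ ≤ ‖star (TT S.lam [l]) * (b - a n) * TT S.lam [l]‖ +
            ‖star (TT S.lam [l]) * a n * TT S.lam [l] - Mop S.lam (coef (a n) [] [])‖ +
            ‖Mop S.lam (coef (b - a n) [] [])‖ := by
              refine (norm_sub_le _ _).trans ?_
              gcongr
              exact norm_add_le _ _
        _ < ε / 3 + ε / 3 + ε / 3 := by
            gcongr
            · exact lt_of_le_of_lt h5 h4
            · exact lt_of_le_of_lt h6 h4
        _ = ε := by ring
    · rintro a b ⟨ha, ha'⟩ ⟨hb, hb'⟩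
      refine ⟨add_mem ha hb, fun ε hε => ?_⟩
      obtain ⟨s1, h1⟩ := ha' (ε / 2) (by positivity)
      obtain ⟨s2, h2⟩ := hb' (ε / 2) (by positivity)
      refine ⟨s1 ∪ s2, fun l hl hid => ?_⟩
      rw [Finset.mem_union, not_or] at hl
      have h3 := h1 l hl.1 hid
      have h4 := h2 l hl.2 hid
      rw [coef_add ha hb, Mop_add]
      calc _ = ‖(star (TT S.lam [l]) * a * TT S.lam [l] - Mop S.lam (coef a [] [])) +
            (star (TT S.lam [l]) * b * TT S.lam [l] - Mop S.lam (coef b [] []))‖ := by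
            congr 1
            noncomm_ring
        _ ≤ _ := norm_add_le _ _
        _ < ε / 2 + ε / 2 := by gcongr
        _ = ε := by ring
    · intro μ f ν hf
      refine ⟨Eop_mem hf, fun ε hε => ⟨μ.toFinset ∪ ν.toFinset, fun l hl hid => ?_⟩⟩
      rw [Finset.mem_union, not_or, List.mem_toFinset, List.mem_toFinset] at hl
      suffices h : star (TT S.lam [l]) * Eop S.lam μ f ν * TT S.lam [l] =
          Mop S.lam (coef (Eop S.lam μ f ν) [] []) by
        rw [h, sub_self, norm_zero]
        exact hε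
      have hz : ∀ μ : List L, l ∉ μ → μ ≠ [] → star (TT S.lam [l]) * TT S.lam μ = 0 := by
        intro μ hlμ hμ
        obtain ⟨m, μ', rfl⟩ := List.exists_cons_of_ne_nil hμ
        rw [TT_cons, TT_cons, TT_nil, mul_one, star_Top, ← mul_assoc, Sop_mul_Top, if_neg,
          zero_mul]
        rintro rfl
        exact hlμ (by simp)
      by_cases hμ : μ = []
      · by_cases hν : ν = []
        · subst hμ hν
          have h1 : coef (Eop S.lam [] f []) [] [] = f := by
            have := coef_Eop_append (S := S) (μ := []) (ν := []) hf []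
            simpa using this
          rw [h1]
          have h2 : Eop S.lam [] f [] = Mop S.lam f := by unfold Eop; simp
          rw [h2, mul_assoc, Mop_mul_TT, ← mul_assoc, star_TT_mul_TT_self, one_mul]
          congr 1
          ext q
          simp [hid]
        · have h1 : coef (Eop S.lam μ f ν) [] [] = 0 := by
            apply coef_Eop_of_not hf
            rintro γ ⟨_, h⟩
            have := List.append_eq_nil_iff.1 h.symm
            exact hν this.1
          rw [h1, Mop_zero]
          have h2 := congrArg star (hz ν hl.2 hν)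
          rw [star_mul, star_star, star_zero] at h2
          unfold Eop
          rw [mul_assoc, mul_assoc, h2]
          simp
      · have h1 : coef (Eop S.lam μ f ν) [] [] = 0 := by
          apply coef_Eop_of_not hf
          rintro γ ⟨h, _⟩
          have := List.append_eq_nil_iff.1 h.symm
          exact hμ this.1
        rw [h1, Mop_zero]
        unfold Eop
        rw [← mul_assoc, ← mul_assoc, hz μ hl.1 hμ]
        simp
  exact fun a ha => (key a ha).2

/-- a hypothesis on the data: infinitely many letters carry the identity map -/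
def Fresh (S : Data Q L) : Prop := ∀ s : Finset L, ∃ l ∉ s, ∀ q, S.lam l q = q

theorem IsIdeal.Mop_coef_mem {J : Set (H (Path S.lam) →L[ℂ] H (Path S.lam))}
    (hJ : IsIdeal S J) (hS : Fresh S) {a : H (Path S.lam) →L[ℂ] H (Path S.lam)} (ha : a ∈ J)
    (α β : List L) : Mop S.lam (coef a α β) ∈ J := by
  have hstar : ∀ (α : List L) (a : H (Path S.lam) →L[ℂ] H (Path S.lam)), a ∈ J →
      star (TT S.lam α) * a ∈ J := fun α => hJ.mult_left (star_TT_mul_mem α)
  have hT : ∀ (α : List L) (a : H (Path S.lam) →L[ℂ] H (Path S.lam)), a ∈ J →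
      a * TT S.lam α ∈ J := fun α => hJ.mult_right (mul_TT_mem α)
  rw [coef_nil_eq (hJ.sub a ha)]
  have hb : star (TT S.lam α) * a * TT S.lam β ∈ J := hT _ _ (hstar _ _ ha)
  generalize star (TT S.lam α) * a * TT S.lam β = b at hb
  have hcl := hJ.closed
  rw [← hcl.closure_eq, Metric.mem_closure_iff]
  intro ε hε
  obtain ⟨s0, h⟩ := compress_tendsto b (hJ.sub b hb) ε hε
  obtain ⟨l, hl, hid⟩ := hS s0
  refine ⟨_, hT [l] _ (hstar [l] _ hb), ?_⟩
  rw [dist_comm, dist_eq_norm]
  exact h l hl hid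

/-- Claim 1: the coefficients of an element of an ideal vanish off the open set of the ideal. -/
theorem IsIdeal.coef_eq_zero {J : Set (H (Path S.lam) →L[ℂ] H (Path S.lam))}
    (hJ : IsIdeal S J) (hS : Fresh S) {a : H (Path S.lam) →L[ℂ] H (Path S.lam)} (ha : a ∈ J)
    (α β : List L) {q : Q} (hq : q ∉ openOf J) : coef a α β q = 0 := by
  by_contra h
  exact hq ⟨_, hJ.Mop_coef_mem hS ha α β, h⟩

lemma coef_Mop_nil {f : C(Q, ℂ)} (hf : Mop S.lam f ∈ alg S) : coef (Mop S.lam f) [] [] = f := by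
  classical
  ext q
  rw [coef_apply hf, Mop_evec, inner_smul_right, inner_evec, if_pos rfl, mul_one]
  rfl

/-- `M_f` is in the ideal as soon as `f` vanishes off the open set of the ideal. -/
theorem IsIdeal.Mop_mem_of [T2Space Q] {J : Set (H (Path S.lam) →L[ℂ] H (Path S.lam))}
    (hJ : IsIdeal S J) {f : C(Q, ℂ)} (hf : ∀ q ∉ openOf J, f q = 0) : Mop S.lam f ∈ J := by
  let I : Ideal C(Q, ℂ) :=
    { carrier := {f | Mop S.lam f ∈ J}
      add_mem' := by
        intro f g hf hg
        change Mop S.lam (f + g) ∈ J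
        rw [Mop_add]
        exact hJ.add _ hf _ hg
      zero_mem' := by
        change Mop S.lam 0 ∈ J
        rw [Mop_zero]
        exact hJ.zero
      smul_mem' := by
        intro g f hf
        change Mop S.lam (g * f) ∈ J
        rw [Mop_mul]
        exact hJ.mult_left (Mop_mul_mem g) _ hf }
  have hcont : Continuous (fun f : C(Q, ℂ) => Mop S.lam f) := by
    refine (LipschitzWith.of_dist_le_mul (K := 1) fun f g => ?_).continuous
    rw [dist_eq_norm, dist_eq_norm, ← Mop_sub, NNReal.coe_one, one_mul]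
    exact Mop_norm _
  have hI : IsClosed (I : Set C(Q, ℂ)) := hJ.closed.preimage hcont
  have h1 := ContinuousMap.idealOfSet_ofIdeal_isClosed hI
  have h2 : f ∈ ContinuousMap.idealOfSet ℂ (ContinuousMap.setOfIdeal I) := by
    rw [ContinuousMap.mem_idealOfSet]
    intro q hq
    apply hf
    rintro ⟨g, hg, hgq⟩
    exact hq (ContinuousMap.mem_setOfIdeal.2 ⟨g, hg, hgq⟩)
  rw [h1] at h2
  exact h2

/-- Claim 2. -/
theorem IsIdeal.mem_of_coef [T2Space Q] {J : Set (H (Path S.lam) →L[ℂ] H (Path S.lam))}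
    (hJ : IsIdeal S J) {a : H (Path S.lam) →L[ℂ] H (Path S.lam)} (ha : a ∈ alg S)
    (h : ∀ α β, ∀ q ∉ openOf J, coef a α β q = 0) : a ∈ J := by
  rw [← hJ.closed.closure_eq, Metric.mem_closure_iff]
  intro ε hε
  obtain ⟨s0, N0, h1⟩ := PsiOp_tendsto a ha ε hε
  refine ⟨PsiOp S s0 (N0 + 1) (coef a), ?_, ?_⟩
  · unfold PsiOp
    refine hJ.sum_mem _ _ fun α _ => hJ.sum_mem _ _ fun β _ => ?_
    have h2 : Mop S.lam (coef a α β) ∈ J := hJ.Mop_mem_of (h α β)
    apply hJ.mult_right (mul_star_TT_mem β)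
    apply hJ.mult_right (mul_Dop_mem s0 (Nat.succ_pos _) _)
    rw [mul_assoc]
    apply hJ.mult_left (TT_mul_mem α)
    exact hJ.mult_left (Dop_mul_mem s0 (Nat.succ_pos _) _) _ h2
  · rw [dist_comm, dist_eq_norm]
    exact h1 s0 subset_rfl _ (Nat.le_succ _) (Nat.succ_pos _)

theorem IsIdeal.mem_iff [T2Space Q] {J : Set (H (Path S.lam) →L[ℂ] H (Path S.lam))}
    (hJ : IsIdeal S J) (hS : Fresh S) {a : H (Path S.lam) →L[ℂ] H (Path S.lam)} (ha : a ∈ alg S) :
    a ∈ J ↔ ∀ α β, ∀ q ∉ openOf J, coef a α β q = 0 :=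
  ⟨fun h α β _ hq => hJ.coef_eq_zero hS h α β hq, hJ.mem_of_coef ha⟩

lemma isOpen_openOf (J : Set (H (Path S.lam) →L[ℂ] H (Path S.lam))) : IsOpen (openOf J) := by
  have : openOf J = ⋃ f ∈ {f : C(Q, ℂ) | Mop S.lam f ∈ J}, {q | f q ≠ 0} := by
    ext q
    simp only [openOf, Set.mem_iUnion, exists_prop]
    rfl
  rw [this]
  exact isOpen_biUnion fun f _ => isOpen_ne_fun f.continuous continuous_const

lemma IsIdeal.openOf_D {J : Set (H (Path S.lam) →L[ℂ] H (Path S.lam))}
    (hJ : IsIdeal S J) : ∀ q ∈ openOf J, q ∉ S.D := by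
  rintro q ⟨f, hf, hq⟩ hD
  apply hq
  rw [← coef_Mop_nil (hJ.sub _ hf)]
  exact coef_D (hJ.sub _ hf) _ _ hD

lemma IsIdeal.openOf_inv {J : Set (H (Path S.lam) →L[ℂ] H (Path S.lam))}
    (hJ : IsIdeal S J) (l : L) : ∀ q, S.lam l q ∈ openOf J → q ∈ openOf J := by
  rintro q ⟨f, hf, hq⟩
  refine ⟨f.comp (ev S.lam [l]), ?_, ?_⟩
  · have h1 : star (TT S.lam [l]) * Mop S.lam f * TT S.lam [l] =
        Mop S.lam (f.comp (ev S.lam [l])) := by
      rw [mul_assoc, Mop_mul_TT, ← mul_assoc, star_TT_mul_TT_self, one_mul]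
    rw [← h1]
    exact hJ.mult_right (mul_TT_mem [l]) _ (hJ.mult_left (star_TT_mul_mem [l]) _ hf)
  · exact hq

end

end Dini
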