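import Pool.Agent.Dini.Rep

/-!
# Irreducibility of the orbit representations
-/

open scoped ENNReal InnerProductSpace ComplexConjugate
open ContinuousLinearMap Filter Topology

namespace Dini

noncomputable section

variable {Q L : Type} [TopologicalSpace Q] [CompactSpace Q] {S : Data Q L}

lemma exists_bump [T2Space Q] {C : Set Q} (hC : IsClosed C) {q : Q} (hq : q ∉ C) :
    ∃ g : C(Q, ℂ), (∀ x ∈ C, g x = 0) ∧ g q = 1 ∧ ‖g‖ ≤ 1 := by
  obtain ⟨f, hf0, hf1, hf⟩ := exists_continuous_zero_one_of_isClosed hC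
    (isClosed_singleton (x := q)) (Set.disjoint_singleton_right.2 hq)
  refine ⟨⟨fun x => (f x : ℂ), Complex.continuous_ofReal.comp f.continuous⟩, ?_, ?_, ?_⟩
  · intro x hx
    have := hf0 hx
    simp only [ContinuousMap.coe_mk, Pi.zero_apply] at this ⊢
    rw [this]; simp
  · have := hf1 (Set.mem_singleton q)
    simp only [ContinuousMap.coe_mk, Pi.one_apply] at this ⊢
    rw [this]; simp
  · rw [ContinuousMap.norm_le _ zero_le_one]
    intro x
    simp only [ContinuousMap.coe_mk, Complex.norm_real]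
    rw [Real.norm_of_nonneg (hf x).1]
    exact (hf x).2

lemma single_eq_smul_bv {Ξ : Type} [DecidableEq Ξ] (i : Ξ) (c : ℂ) :
    (lp.single 2 i c : H Ξ) = c • bv i := by
  apply H.ext
  intro j
  rw [lp.coeFn_smul, Pi.smul_apply, bv_apply]
  by_cases h : j = i
  · subst h; simp
  · rw [lp.single_apply_ne _ _ _ h, if_neg h]; simp

lemma hasSum_bv {Ξ : Type} (v : H Ξ) : HasSum (fun i => v i • bv i) v := by
  classical
  have h1 : HasSum (fun i => lp.single 2 i (v i)) v := lp.hasSum_single (by norm_num) v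
  simpa only [single_eq_smul_bv] using h1

lemma rep_Eop_bv_app {O : Set (Path S.lam)} (hO : Inv O) {μ ν : List L} {f : C(Q, ℂ)}
    (hf : ∀ q ∈ S.D, f q = 0) {ξ : Path S.lam} (hξ : ξ ∈ O) :
    rep O hO ⟨Eop S.lam μ f ν, Eop_mem hf⟩ (bv ⟨Path.app ν ξ, (hO.app ν ξ).2 hξ⟩) =
      f ξ.pt • bv ⟨Path.app μ ξ, (hO.app μ ξ).2 hξ⟩ := by
  rw [rep_apply, Iop_bv, Eop_bv_app, map_smul]
  congr 1
  exact Rop_bv O ⟨Path.app μ ξ, (hO.app μ ξ).2 hξ⟩

lemma rep_Eop_bv_of_not {O : Set (Path S.lam)} (hO : Inv O) {μ ν : List L} {f : C(Q, ℂ)}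
    (hf : ∀ q ∈ S.D, f q = 0) {ξ : O} (hξ : ∀ η, ξ.1 ≠ Path.app ν η) :
    rep O hO ⟨Eop S.lam μ f ν, Eop_mem hf⟩ (bv ξ) = 0 := by
  rw [rep_apply, Iop_bv]
  rw [Eop_bv_of_not _ _ _ hξ, map_zero]

namespace BPath

lemma exists_letter_ne (ω : BPath S) {ξ η : ω.orb} (h : ξ ≠ η) :
    ∃ i, ξ.1.letters i ≠ η.1.letters i := by
  by_contra hcon
  push Not at hcon
  exact h (Subtype.ext (ω.orb_ext ξ.2 η.2 hcon))

/-- from a nonzero coefficient to the basis vector of the orbit -/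
lemma mem_of_coeff [T2Space Q] (hD : IsClosed S.D) (ω : BPath S) (hω : ∀ n, ω.p n ∉ S.D)
    (M : Submodule ℂ (H ω.orb)) (hM : IsClosed (M : Set (H ω.orb)))
    (hinv : ∀ a, ∀ v ∈ M, rep ω.orb ω.orb_inv a v ∈ M) {v : H ω.orb} (hv : v ∈ M)
    (ξ : ω.orb) : v ξ • bv (⟨ω.path 0, ω.path_mem_orb 0⟩ : ω.orb) ∈ M := by
  classical
  obtain ⟨α, n, hξ⟩ := ξ.2
  rw [← SetLike.mem_coe, ← hM.closure_eq, Metric.mem_closure_iff]
  intro ε hε
  have h1 := hasSum_bv v
  have h2 : ∀ᶠ T : Finset ω.orb in atTop, dist (∑ i ∈ T, v i • bv i) v < ε :=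
    (Metric.tendsto_nhds.1 h1) ε hε
  obtain ⟨T, hT, hξT⟩ := (h2.and (eventually_ge_atTop {ξ})).exists
  have hξT : ξ ∈ T := hξT (Finset.mem_singleton_self ξ)
  -- the places where the letters differ
  have hex : ∀ ζ : ω.orb, ∃ i, ζ ≠ ξ → ζ.1.letters i ≠ ξ.1.letters i := by
    intro ζ
    by_cases h : ζ = ξ
    · exact ⟨0, fun h' => absurd h h'⟩
    · obtain ⟨i, hi⟩ := ω.exists_letter_ne h
      exact ⟨i, fun _ => hi⟩
  choose pl hpl using hex
  set m := T.sup pl + 1 with hm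
  set β := α ++ ω.seg n m with hβ
  set δ := ω.seg 0 (n + m) with hδ
  have hβξ : ξ.1 = Path.app β (ω.path (n + m)) := by
    rw [hβ, Path.app_append, app_seg]; exact hξ
  have hδω : ω.path 0 = Path.app δ (ω.path (n + m)) := by
    have := ω.app_seg 0 (n + m)
    rw [zero_add] at this
    exact this.symm
  obtain ⟨g, hgD, hg1, hgn⟩ := exists_bump hD (hω (n + m))
  set E : alg S := ⟨Eop S.lam δ g β, Eop_mem hgD⟩ with hE
  have hEξ : rep ω.orb ω.orb_inv E (bv ξ) = bv (⟨ω.path 0, ω.path_mem_orb 0⟩ : ω.orb) := by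
    have h3 := rep_Eop_bv_app ω.orb_inv (μ := δ) (ν := β) hgD (ω.path_mem_orb (n + m))
    rw [path_pt, hg1, one_smul] at h3
    have e1 : ξ = ⟨Path.app β (ω.path (n + m)),
        (ω.orb_inv.app β _).2 (ω.path_mem_orb (n + m))⟩ := Subtype.ext hβξ
    have e2 : (⟨ω.path 0, ω.path_mem_orb 0⟩ : ω.orb) = ⟨Path.app δ (ω.path (n + m)),
        (ω.orb_inv.app δ _).2 (ω.path_mem_orb (n + m))⟩ := Subtype.ext hδω
    rw [e1, e2]
    exact h3
  have hEζ : ∀ ζ ∈ T, ζ ≠ ξ → rep ω.orb ω.orb_inv E (bv ζ) = 0 := by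
    intro ζ hζ hne
    refine rep_Eop_bv_of_not _ hgD ?_
    intro η h
    apply hpl ζ hne
    rw [hβξ, h]
    apply letters_app_lt
    rw [hβ, List.length_append, seg_length]
    have : pl ζ ≤ T.sup pl := Finset.le_sup hζ
    omega
  refine ⟨rep ω.orb ω.orb_inv E v, hinv E v hv, ?_⟩
  have h4 : rep ω.orb ω.orb_inv E (∑ i ∈ T, v i • bv i) =
      v ξ • bv (⟨ω.path 0, ω.path_mem_orb 0⟩ : ω.orb) := by
    rw [map_sum, Finset.sum_eq_single ξ]
    · rw [map_smul, hEξ]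
    · intro ζ hζ hne
      rw [map_smul, hEζ ζ hζ hne, smul_zero]
    · intro h; exact absurd hξT h
  rw [← h4, dist_eq_norm, ← map_sub]
  calc _ ≤ ‖(E : H (Path S.lam) →L[ℂ] H (Path S.lam))‖ * ‖(∑ i ∈ T, v i • bv i) - v‖ :=
        rep_norm_le _ _ _ _
    _ ≤ 1 * ‖(∑ i ∈ T, v i • bv i) - v‖ := by
        have : ‖(E : H (Path S.lam) →L[ℂ] H (Path S.lam))‖ ≤ 1 := (Eop_norm _ _ _).trans hgn
        gcongr
    _ < ε := by rw [one_mul, ← dist_eq_norm]; exact hT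

theorem irreducible [T2Space Q] (hD : IsClosed S.D) (ω : BPath S) (hω : ∀ n, ω.p n ∉ S.D) :
    IsIrreducibleRep (rep ω.orb ω.orb_inv) := by
  classical
  have hgen : ∀ (α : List L) (n : ℕ), ∃ a : alg S,
      rep ω.orb ω.orb_inv a (bv (⟨ω.path 0, ω.path_mem_orb 0⟩ : ω.orb)) =
        bv (⟨Path.app α (ω.path n), (ω.orb_inv.app α _).2 (ω.path_mem_orb n)⟩ : ω.orb) := by
    intro α n
    obtain ⟨g, hgD, hg1, hgn⟩ := exists_bump hD (hω n)
    refine ⟨⟨Eop S.lam α g (ω.seg 0 n), Eop_mem hgD⟩, ?_⟩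
    have h3 := rep_Eop_bv_app ω.orb_inv (μ := α) (ν := ω.seg 0 n) hgD (ω.path_mem_orb n)
    rw [path_pt, hg1, one_smul] at h3
    have e2 : (⟨ω.path 0, ω.path_mem_orb 0⟩ : ω.orb) = ⟨Path.app (ω.seg 0 n) (ω.path n),
        (ω.orb_inv.app _ _).2 (ω.path_mem_orb n)⟩ := by
      apply Subtype.ext
      have := ω.app_seg 0 n
      rw [zero_add] at this
      exact this.symm
    rw [e2]
    exact h3
  constructor
  · obtain ⟨a, ha⟩ := hgen [] 0
    refine ⟨a, fun h => ?_⟩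
    rw [h] at ha
    have := congrArg norm ha
    rw [norm_bv] at this
    simp at this
  · intro M hM hinv
    by_cases hbot : M = ⊥
    · exact Or.inl hbot
    · right
      obtain ⟨v, hv, hv0⟩ := (Submodule.ne_bot_iff M).1 hbot
      obtain ⟨ξ, hξ⟩ : ∃ ξ, v ξ ≠ 0 := by
        by_contra hcon
        push Not at hcon
        exact hv0 (H.ext hcon)
      have h1 := ω.mem_of_coeff hD hω M hM hinv hv ξ
      have h2 : bv (⟨ω.path 0, ω.path_mem_orb 0⟩ : ω.orb) ∈ M := by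
        have := M.smul_mem (v ξ)⁻¹ h1
        rwa [smul_smul, inv_mul_cancel₀ hξ, one_smul] at this
      have h3 : ∀ ζ : ω.orb, bv ζ ∈ M := by
        intro ζ
        obtain ⟨α, n, hζ⟩ := ζ.2
        obtain ⟨a, ha⟩ := hgen α n
        have e : ζ = ⟨Path.app α (ω.path n), (ω.orb_inv.app α _).2 (ω.path_mem_orb n)⟩ :=
          Subtype.ext hζ
        rw [e, ← ha]
        exact hinv a _ h2
      rw [eq_top_iff]
      intro u _
      refine hM.mem_of_tendsto (hasSum_bv u) (Eventually.of_forall fun T => ?_)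
      exact M.sum_mem fun i _ => M.smul_mem _ (h3 i)

end BPath

end

end Dini
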