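import Pool.Agent.Dini.Irr
import Pool.Agent.Dini.Backward

/-!
# The primitive ideal space of the algebra of a dynamical presentation
-/

open scoped ENNReal InnerProductSpace ComplexConjugate
open ContinuousLinearMap Filter Topology

namespace Dini

noncomputable section

universe u

variable {X : Type u} [TopologicalSpace X] (pr : Presentation X)

/-- the data of a presentation: every map is repeated infinitely often -/
def Presentation.data : Data pr.Q (pr.J × ℕ) where
  lam l := pr.lam l.1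
  D := pr.D
  mem l q hq := pr.lam_mem l.1 q hq

lemma Presentation.fresh : Fresh pr.data := by
  intro s
  obtain ⟨n, hn⟩ := Infinite.exists_notMem_finset (s.image Prod.snd)
  refine ⟨(pr.j0, n), fun h => hn (Finset.mem_image.2 ⟨_, h, rfl⟩), fun q => pr.lam_j0 q⟩

/-- operators on the path space of the presentation -/
abbrev Presentation.Op : Type := H (Path pr.data.lam) →L[ℂ] H (Path pr.data.lam)

/-- the algebra of the presentation -/
abbrev Presentation.A : NonUnitalStarSubalgebra ℂ pr.Op := alg pr.data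

lemma spec_ev (α : List (pr.J × ℕ)) (q : pr.Q) (h : q ∉ pr.D) (h' : ev pr.data.lam α q ∉ pr.D) :
    pr.proj ⟨q, h⟩ ⤳ pr.proj ⟨ev pr.data.lam α q, h'⟩ := by
  induction α with
  | nil => exact specializes_rfl
  | cons l α ih =>
    have h1 : ev pr.data.lam α q ∉ pr.D := fun h2 => h' (pr.data.mem l _ h2)
    exact (ih h1).trans (pr.lam_spec l.1 _ h1 h')

/-- coefficients of a product with functions -/
lemma coef_Mop_mul_mul {a : pr.Op} (ha : a ∈ pr.A) {f g : C(pr.Q, ℂ)}
    (α β : List (pr.J × ℕ)) (q : pr.Q) :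
    coef (Mop pr.data.lam f * a * Mop pr.data.lam g) α β q =
      f (ev pr.data.lam α q) * g (ev pr.data.lam β q) * coef a α β q := by
  rw [coef_apply (mul_Mop_mem g _ (Mop_mul_mem f a ha)), coef_apply ha,
    ContinuousLinearMap.mul_apply, ContinuousLinearMap.mul_apply, Mop_evec, map_smul, map_smul,
    inner_smul_right, ← ContinuousLinearMap.adjoint_inner_left,
    ← ContinuousLinearMap.star_eq_adjoint, Mop_star, Mop_evec, inner_smul_left]
  simp only [ContinuousMap.star_apply, RCLike.star_def, Complex.conj_conj]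
  ring

lemma coef_Mop {f : C(pr.Q, ℂ)} (hf : Mop pr.data.lam f ∈ pr.A)
    (α β : List (pr.J × ℕ)) (q : pr.Q) (h : coef (Mop pr.data.lam f) α β q ≠ 0) :
    f (ev pr.data.lam β q) ≠ 0 := by
  intro h0
  apply h
  rw [coef_apply hf, Mop_evec, h0, zero_smul, inner_zero_right]

/-- the ideal of a point -/
def kerX (x : X) : Set pr.A :=
  {a | ∀ (α β : List (pr.J × ℕ)) (q : pr.Q) (h : q ∉ pr.D), x ⤳ pr.proj ⟨q, h⟩ →
    coef (a : pr.Op) α β q = 0}

/-- functions supported in the preimage of an open set -/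
lemma exists_bump_pre {U : Set X} (hU : IsOpen U) (q : pr.Q) (h : q ∉ pr.D)
    (hq : pr.proj ⟨q, h⟩ ∈ U) : ∃ f : C(pr.Q, ℂ),
    (∀ p, f p ≠ 0 → ∃ h : p ∉ pr.D, pr.proj ⟨p, h⟩ ∈ U) ∧ f q = 1 ∧
      Mop pr.data.lam f ∈ pr.A := by
  obtain ⟨f, hf0, hf1, _⟩ := exists_bump (pr.cont U hU).isClosed_compl
    (q := q) (fun hc => hc ⟨h, hq⟩)
  have hsupp : ∀ p, f p ≠ 0 → ∃ h : p ∉ pr.D, pr.proj ⟨p, h⟩ ∈ U := by
    intro p hp
    by_contra hcon
    exact hp (hf0 p hcon)
  refine ⟨f, hsupp, hf1, Mop_mem ?_⟩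
  intro p hp
  by_contra hne
  exact (hsupp p hne).1 hp

lemma kerX_primitive (x : X) : IsPrimitiveIdeal pr.A (kerX pr x) := by
  obtain ⟨w, p, hstep, hp, hdense⟩ := exists_backward pr x
  let ω : BPath pr.data :=
    { w := fun i => (w i, 2 * i)
      p := p
      inj := by
        intro i j h
        have := congrArg Prod.snd h
        simp only at this
        omega
      step := hstep }
  have hωD : ∀ n, ω.p n ∉ pr.data.D := fun n => (hp n).1
  refine ⟨H ω.orb, inferInstance, inferInstance, inferInstance, rep ω.orb ω.orb_inv,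
    ω.irreducible pr.isClosed_D hωD, ?_⟩
  ext a
  constructor
  · intro ha
    apply ω.rep_eq_zero_of_coef
    intro α β n
    exact ha α β (p n) (hp n).1 (hp n).2
  · intro ha α β q h hq
    by_contra hne
    have hVo : IsOpen {q : pr.Q | coef (a : pr.Op) α β q ≠ 0} :=
      isOpen_ne_fun (coef (a : pr.Op) α β).continuous continuous_const
    obtain ⟨i, j, hij⟩ := hdense {q | coef (a : pr.Op) α β q ≠ 0} hVo
      (fun q hq hD => hq (coef_D a.2 α β hD)) ⟨q, h, hne, hq⟩
    apply hij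
    refine ω.coef_eq_zero_of_rep ha α β i _ ?_
    intro s
    obtain ⟨n, hn⟩ := Infinite.exists_notMem_finset (s.image (fun l => l.2 / 2))
    refine ⟨(j, 2 * n + 1), fun hs => hn (Finset.mem_image.2 ⟨_, hs, by simp; omega⟩), ?_, rfl⟩
    intro k hk
    have := congrArg Prod.snd hk
    simp only [ω] at this
    omega

/-- the open sets of `X` and the ideals of points -/
lemma mem_iff_kerX {U : Set X} (hU : IsOpen U) (x : X) :
    x ∈ U ↔ ¬ {a : pr.A | ∃ f : C(pr.Q, ℂ), (a : pr.Op) = Mop pr.data.lam f ∧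
      ∀ p, f p ≠ 0 → ∃ h : p ∉ pr.D, pr.proj ⟨p, h⟩ ∈ U} ⊆ kerX pr x := by
  constructor
  · intro hx hsub
    obtain ⟨q, h, hq, hxq⟩ := pr.epi U hU x hx
    obtain ⟨f, hf, hf1, hfA⟩ := exists_bump_pre pr hU q h hq
    have h1 : (⟨Mop pr.data.lam f, hfA⟩ : pr.A) ∈ kerX pr x := hsub ⟨f, rfl, hf⟩
    have h2 := h1 [] [] q h hxq
    simp only at h2
    rw [coef_Mop_nil hfA, hf1] at h2
    exact one_ne_zero h2
  · intro h
    rw [Set.not_subset] at h
    obtain ⟨a, ⟨f, haf, hf⟩, ha⟩ := h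
    unfold kerX at ha
    simp only [Set.mem_setOf_eq, not_forall] at ha
    obtain ⟨α, β, q, hq, hxq, hne⟩ := ha
    rw [haf] at hne
    have h1 := coef_Mop pr (haf ▸ a.2) α β q hne
    obtain ⟨h2, h3⟩ := hf _ h1
    exact (hxq.trans (spec_ev pr β q hq h2)).mem_open hU h3

lemma isOpen_notMem_kerX (a : pr.A) : IsOpen {x | a ∉ kerX pr x} := by
  have : {x | a ∉ kerX pr x} = ⋃ (α : List (pr.J × ℕ)) (β : List (pr.J × ℕ)),
      {x | ∃ (q : pr.Q) (h : q ∉ pr.D), q ∈ {q : pr.Q | coef (a : pr.Op) α β q ≠ 0} ∧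
        x ⤳ pr.proj ⟨q, h⟩} := by
    ext x
    simp only [kerX, Set.mem_setOf_eq, Set.mem_iUnion, not_forall]
    constructor
    · rintro ⟨α, β, q, h, hx, hne⟩
      exact ⟨α, β, q, h, hne, hx⟩
    · rintro ⟨α, β, q, h, hne, hx⟩
      exact ⟨α, β, q, h, hx, hne⟩
  rw [this]
  refine isOpen_iUnion fun α => isOpen_iUnion fun β => pr.open_sat _ ?_ ?_
  · exact isOpen_ne_fun (coef (a : pr.Op) α β).continuous continuous_const
  · intro q hq hD
    exact hq (coef_D a.2 α β hD)

/-- every primitive ideal comes from a point -/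
lemma exists_kerX [QuasiSober X] {P : Set pr.A} (hP : IsPrimitiveIdeal pr.A P) :
    ∃ x, P = kerX pr x := by
  have hPI := hP
  obtain ⟨K, _, _, _, π, ⟨⟨a0, ha0⟩, _⟩, hPπ⟩ := hP
  -- the set of operators
  let J : Set pr.Op := Subtype.val '' P
  have hmem : ∀ a : pr.A, (a : pr.Op) ∈ J ↔ a ∈ P := by
    intro a
    constructor
    · rintro ⟨b, hb, hab⟩
      rwa [← Subtype.ext hab]
    · intro h
      exact ⟨a, h, rfl⟩
  have hPc : IsClosed P := by
    rw [hPπ]
    letI : PartialOrder pr.A := CStarAlgebra.spectralOrder _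
    haveI : StarOrderedRing pr.A := CStarAlgebra.spectralOrderedRing _
    have hc : Continuous π := by
      have := NonUnitalStarAlgHom.norm_apply_le (F := pr.A →⋆ₙₐ[ℂ] (K →L[ℂ] K)) π
      refine (LipschitzWith.of_dist_le_mul (K := 1) fun f g => ?_).continuous
      rw [dist_eq_norm, dist_eq_norm, ← map_sub, NNReal.coe_one, one_mul]
      exact this _
    exact isClosed_eq hc continuous_const
  have hJ : IsIdeal pr.data J :=
    { sub := by
        rintro _ ⟨a, _, rfl⟩
        exact a.2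
      closed := by
        refine (Topology.IsClosedEmbedding.isClosed_iff_image_isClosed ?_).1 hPc
        exact (alg_isClosed pr.data).isClosedEmbedding_subtypeVal
      zero := by
        refine ⟨0, ?_, rfl⟩
        rw [hPπ]
        exact map_zero π
      add := by
        rintro _ ⟨a, ha, rfl⟩ _ ⟨b, hb, rfl⟩
        refine ⟨a + b, ?_, rfl⟩
        rw [hPπ] at ha hb ⊢
        simp only [Set.mem_setOf_eq] at ha hb ⊢
        rw [map_add, ha, hb, add_zero]
      smul := by
        rintro c _ ⟨a, ha, rfl⟩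
        refine ⟨c • a, ?_, rfl⟩
        rw [hPπ] at ha ⊢
        simp only [Set.mem_setOf_eq] at ha ⊢
        rw [map_smul, ha, smul_zero]
      mul_left := by
        rintro b hb _ ⟨a, ha, rfl⟩
        exact ⟨⟨b, hb⟩ * a, hPI.mul_mem (Or.inr ha), rfl⟩
      mul_right := by
        rintro b hb _ ⟨a, ha, rfl⟩
        exact ⟨a * ⟨b, hb⟩, hPI.mul_mem (Or.inl ha), rfl⟩ }
  have hiff : ∀ a : pr.A, a ∈ P ↔ ∀ α β, ∀ q ∉ openOf J, coef (a : pr.Op) α β q = 0 := by
    intro a
    rw [← hmem]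
    exact hJ.mem_iff pr.fresh a.2
  set V := openOf J with hV
  have hVo : IsOpen V := isOpen_openOf J
  have hVD : ∀ q ∈ V, q ∉ pr.D := hJ.openOf_D
  set U : Set X := {x | ∃ (q : pr.Q) (h : q ∉ pr.D), q ∈ V ∧ x ⤳ pr.proj ⟨q, h⟩} with hU
  have hUo : IsOpen U := pr.open_sat V hVo hVD
  have hUV : ∀ (q : pr.Q) (h : q ∉ pr.D), pr.proj ⟨q, h⟩ ∈ U ↔ q ∈ V := by
    intro q h
    constructor
    · rintro ⟨q', h', hq', hs⟩
      obtain ⟨j, hj⟩ := pr.dense V hVo hVD q h ⟨q', h', hq', hs⟩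
      exact hJ.openOf_inv (j, 0) q hj
    · intro hq
      exact ⟨q, h, hq, specializes_rfl⟩
  have hirr : IsIrreducible Uᶜ := by
    constructor
    · have h1 : ¬ (a0 ∈ P) := by
        rw [hPπ]
        exact ha0
      rw [hiff] at h1
      push Not at h1
      obtain ⟨α, β, q, hq, hne⟩ := h1
      have hqD : q ∉ pr.D := fun hD => hne (coef_D a0.2 α β hD)
      exact ⟨pr.proj ⟨q, hqD⟩, fun h => hq ((hUV q hqD).1 h)⟩
    · rintro u v hu hv ⟨y, hyU, hyu⟩ ⟨z, hzU, hzv⟩
      obtain ⟨q1, h1, hq1, hy1⟩ := pr.epi u hu y hyu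
      obtain ⟨q2, h2, hq2, hz2⟩ := pr.epi v hv z hzv
      obtain ⟨f1, hf1, hf1', hf1A⟩ := exists_bump_pre pr hu q1 h1 hq1
      obtain ⟨f2, hf2, hf2', hf2A⟩ := exists_bump_pre pr hv q2 h2 hq2
      have hq1V : q1 ∉ V := fun h => hyU (hy1.mem_open hUo ((hUV q1 h1).2 h))
      have hq2V : q2 ∉ V := fun h => hzU (hz2.mem_open hUo ((hUV q2 h2).2 h))
      have hn1 : (⟨Mop pr.data.lam f1, hf1A⟩ : pr.A) ∉ P := by
        intro h
        rw [← hmem] at h
        exact hq1V ⟨f1, h, by rw [hf1']; exact one_ne_zero⟩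
      have hn2 : (⟨Mop pr.data.lam f2, hf2A⟩ : pr.A) ∉ P := by
        intro h
        rw [← hmem] at h
        exact hq2V ⟨f2, h, by rw [hf2']; exact one_ne_zero⟩
      obtain ⟨c, hc⟩ := hPI.exists_mul hn1 hn2
      rw [hiff] at hc
      push Not at hc
      obtain ⟨α, β, q, hq, hne⟩ := hc
      have hqD : q ∉ pr.D := fun hD => hne (coef_D (Subtype.property _) α β hD)
      have hne' : coef (Mop pr.data.lam f1 * (c : pr.Op) * Mop pr.data.lam f2) α β q ≠ 0 := hne
      rw [coef_Mop_mul_mul pr c.2] at hne'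
      have hA : f1 (ev pr.data.lam α q) ≠ 0 := fun h0 => hne' (by rw [h0]; ring)
      have hB : f2 (ev pr.data.lam β q) ≠ 0 := fun h0 => hne' (by rw [h0]; ring)
      obtain ⟨hA1, hA2⟩ := hf1 _ hA
      obtain ⟨hB1, hB2⟩ := hf2 _ hB
      exact ⟨pr.proj ⟨q, hqD⟩, fun h => hq ((hUV q hqD).1 h),
        (spec_ev pr α q hqD hA1).mem_open hu hA2, (spec_ev pr β q hqD hB1).mem_open hv hB2⟩
  obtain ⟨x, hx⟩ := QuasiSober.sober hirr hUo.isClosed_compl
  refine ⟨x, ?_⟩
  have hxV : ∀ (q : pr.Q) (h : q ∉ pr.D), x ⤳ pr.proj ⟨q, h⟩ ↔ q ∉ V := by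
    intro q h
    rw [specializes_iff_mem_closure, hx.def, Set.mem_compl_iff, hUV]
  ext a
  rw [hiff]
  constructor
  · intro h α β q hq hxq
    exact h α β q ((hxV q hq).1 hxq)
  · intro h α β q hq
    by_cases hqD : q ∈ pr.D
    · exact coef_D a.2 α β hqD
    · exact h α β q hqD ((hxV q hqD).2 hq)

/-- the map to the primitive ideal space -/
def toPrim (x : X) : Prim pr.A := ⟨kerX pr x, kerX_primitive pr x⟩

/-- the homeomorphism -/
theorem exists_homeo [T0Space X] [QuasiSober X] : Nonempty (X ≃ₜ Prim pr.A) := by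
  have hinj : Function.Injective (toPrim pr) := by
    intro x y hxy
    have hker : kerX pr x = kerX pr y := congrArg Subtype.val hxy
    apply T0Space.t0
    rw [inseparable_iff_forall_isOpen]
    intro U hU
    rw [mem_iff_kerX pr hU x, mem_iff_kerX pr hU y, hker]
  have hsurj : Function.Surjective (toPrim pr) := by
    intro P
    obtain ⟨x, hx⟩ := exists_kerX pr P.2
    exact ⟨x, Subtype.ext hx.symm⟩
  let e : X ≃ Prim pr.A := Equiv.ofBijective _ ⟨hinj, hsurj⟩
  refine ⟨e.toHomeomorph ?_⟩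
  intro s
  constructor
  · intro hs
    refine ⟨{a : pr.A | ∃ f : C(pr.Q, ℂ), (a : pr.Op) = Mop pr.data.lam f ∧
      ∀ p, f p ≠ 0 → ∃ h : p ∉ pr.D, pr.proj ⟨p, h⟩ ∈ (e ⁻¹' s)}, ?_⟩
    ext P
    obtain ⟨x, rfl⟩ := hsurj P
    have := mem_iff_kerX pr hs x
    exact this
  · rintro ⟨S, rfl⟩
    have : e ⁻¹' {P : Prim pr.A | ¬ S ⊆ P.1} = ⋃ a ∈ S, {x | a ∉ kerX pr x} := by
      ext x
      simp only [Set.mem_preimage, Set.mem_setOf_eq, Set.not_subset, Set.mem_iUnion, exists_prop]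
      rfl
    rw [this]
    exact isOpen_biUnion fun a _ => isOpen_notMem_kerX pr a

end

end Dini
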