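import Pool.Agent.Dini.Defs

/-!
An abstract criterion for the completely positive approximation property (MP_6e5c74_an).
-/

open scoped CStarAlgebra Topology ComplexOrder InnerProductSpace ComplexConjugate

namespace Dini

section general

/-- build a `CStarMatrix` from its entries -/
def cs {m n A : Type*} (f : m → n → A) : CStarMatrix m n A := CStarMatrix.ofMatrix (Matrix.of f)

lemma cs_apply {m n A : Type*} (f : m → n → A) (i : m) (j : n) : cs f i j = f i j := rfl

lemma cs_sum_apply {m n A ι : Type*} [AddCommMonoid A] (s : Finset ι)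
    (f : ι → CStarMatrix m n A) (i : m) (j : n) : (∑ x ∈ s, f x) i j = ∑ x ∈ s, f x i j := by
  classical
  induction s using Finset.induction_on with
  | empty => simp
  | insert a s ha ih => rw [Finset.sum_insert ha, Finset.sum_insert ha, CStarMatrix.add_apply, ih]

open scoped MatrixOrder in
lemma exists_star_mul {I : Type*} [Fintype I] {G : Matrix I I ℂ} (hG : G.PosSemidef) :
    ∃ B : Matrix I I ℂ, G = star B * B := by
  classical
  exact CStarAlgebra.nonneg_iff_eq_star_mul_self.mp hG.nonneg

lemma ncs_nonneg {C : Type*} [NonUnitalCStarAlgebra C] [PartialOrder C] [StarOrderedRing C]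
    {a : C} (ha : 0 ≤ a) : ∃ b : C, a = star b * b :=
  CStarAlgebra.nonneg_iff_eq_star_mul_self.1 ha

lemma cs_nonneg {A : Type*} [NonUnitalCStarAlgebra A] [PartialOrder A] [StarOrderedRing A]
    {k : ℕ} {M : CStarMatrix (Fin k) (Fin k) A} (hM : 0 ≤ M) :
    ∃ N : CStarMatrix (Fin k) (Fin k) A, M = star N * N :=
  ncs_nonneg hM

lemma rankOne_nonneg {A : Type*} [NonUnitalCStarAlgebra A] [PartialOrder A] [StarOrderedRing A]
    {k : ℕ} (y : Fin k → A) :
    0 ≤ (cs fun i j => star (y i) * y j : CStarMatrix (Fin k) (Fin k) A) := by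
  cases k with
  | zero =>
    refine le_of_eq ?_
    ext i
    exact i.elim0
  | succ k =>
    have h : (cs fun i j => star (y i) * y j :
        CStarMatrix (Fin (k + 1)) (Fin (k + 1)) A)
        = star (cs fun i j => if i = 0 then y j else 0 :
            CStarMatrix (Fin (k + 1)) (Fin (k + 1)) A) *
          (cs fun i j => if i = 0 then y j else 0) := by
      ext i j
      rw [CStarMatrix.mul_apply]
      rw [Finset.sum_eq_single 0]
      · rw [CStarMatrix.star_apply, cs_apply, cs_apply, cs_apply, if_pos rfl, if_pos rfl]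
      · intro b _ hb
        rw [CStarMatrix.star_apply, cs_apply, cs_apply, if_neg hb, if_neg hb, mul_zero]
      · simp
    rw [h]
    exact star_mul_self_nonneg _

end general

section phi

variable {K : Type} [NormedAddCommGroup K] [InnerProductSpace ℂ K] [CompleteSpace K]
    (A : NonUnitalStarSubalgebra ℂ (K →L[ℂ] K))

open Classical in
/-- compression to block diagonal matrices -/
noncomputable def phiLin {n : ℕ} {B : Type} (blk : Fin n → B) (e : Fin n → K) :
    A →ₗ[ℂ] CStarMatrix (Fin n) (Fin n) ℂ where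
  toFun a := cs fun p q =>
    if blk p = blk q then ⟪e p, (a : K →L[ℂ] K) (e q)⟫_ℂ else 0
  map_add' a b := by
    ext p q
    rw [CStarMatrix.add_apply, cs_apply, cs_apply, cs_apply]
    split_ifs
    · simp
    · simp
  map_smul' c a := by
    ext p q
    rw [CStarMatrix.smul_apply, cs_apply, cs_apply]
    split_ifs
    · simp
    · simp

variable [IsClosed (A : Set (K →L[ℂ] K))] [PartialOrder A] [StarOrderedRing A]

open Classical in
lemma phiLin_cp {n : ℕ} {B : Type} [Fintype B] (blk : Fin n → B) (e : Fin n → K) (k : ℕ)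
    (M : CStarMatrix (Fin k) (Fin k) A) (hM : 0 ≤ M) : 0 ≤ M.map (phiLin A blk e) := by
  obtain ⟨N, rfl⟩ := cs_nonneg hM
  let v : B → Fin k → (Fin k × Fin n) → K := fun b l ip =>
    if blk ip.2 = b then ((N l ip.1 : A) : K →L[ℂ] K) (e ip.2) else 0
  let G : Matrix (Fin k × Fin n) (Fin k × Fin n) ℂ := ∑ b, ∑ l, Matrix.gram ℂ (v b l)
  have hG : G.PosSemidef := Matrix.posSemidef_sum _ fun b _ => Matrix.posSemidef_sum _ fun l _ =>
    Matrix.posSemidef_gram ℂ (v b l)
  have hGe : ∀ i j p q, ((star N * N).map (phiLin A blk e)) i j p q = G (i, p) (j, q) := by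
    intro i j p q
    simp only [G, Matrix.sum_apply, Matrix.gram_apply, v]
    rw [CStarMatrix.map_apply, CStarMatrix.mul_apply]
    change (if blk p = blk q then
      ⟪e p, ((∑ l, (star N) i l * N l j : A) : K →L[ℂ] K) (e q)⟫_ℂ else 0) = _
    rw [Finset.sum_eq_single (blk p)]
    · simp only [if_true]
      by_cases h : blk p = blk q
      · rw [if_pos h]
        have e1 : ((∑ l, (star N) i l * N l j : A) : K →L[ℂ] K)
            = ∑ l, (star ((N l i : A) : K →L[ℂ] K)) * ((N l j : A) : K →L[ℂ] K) := by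
          simp [CStarMatrix.star_apply]
        rw [e1, sum_apply, inner_sum]
        refine Finset.sum_congr rfl fun l _ => ?_
        rw [if_pos h.symm, mul_apply_eq_comp, ContinuousLinearMap.star_eq_adjoint,
          ContinuousLinearMap.adjoint_inner_right]
      · rw [if_neg h]
        symm
        refine Finset.sum_eq_zero fun l _ => ?_
        rw [if_neg (fun h' => h h'.symm), inner_zero_right]
    · intro b _ hb
      refine Finset.sum_eq_zero fun l _ => ?_
      rw [if_neg (fun h' => hb h'.symm), inner_zero_left]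
    · simp
  obtain ⟨B0, hB0⟩ := exists_star_mul hG
  let Y : CStarMatrix (Fin k) (Fin k) (CStarMatrix (Fin n) (Fin n) ℂ) :=
    cs fun i j => cs fun p q => B0 (i, p) (j, q)
  have hY : (star N * N).map (phiLin A blk e) = star Y * Y := by
    ext i j p q
    rw [hGe, hB0, CStarMatrix.mul_apply, cs_sum_apply, Matrix.mul_apply, Fintype.sum_prod_type]
    refine Finset.sum_congr rfl fun l _ => ?_
    rw [CStarMatrix.mul_apply]
    refine Finset.sum_congr rfl fun r _ => ?_
    rw [CStarMatrix.star_apply, CStarMatrix.star_apply, Matrix.star_apply]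
    rfl
  rw [hY]
  exact star_mul_self_nonneg _

end phi

section psi

variable {A : Type*} [NonUnitalCStarAlgebra A] [PartialOrder A] [StarOrderedRing A]

open Classical in
/-- the map back from block matrices -/
noncomputable def psiLin {n : ℕ} {B : Type} (blk : Fin n → B) (R : Fin n → A) :
    CStarMatrix (Fin n) (Fin n) ℂ →ₗ[ℂ] A where
  toFun X := ∑ p, ∑ q, if blk p = blk q then X p q • (R p * star (R q)) else 0
  map_add' X Y := by
    rw [← Finset.sum_add_distrib]
    refine Finset.sum_congr rfl fun p _ => ?_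
    rw [← Finset.sum_add_distrib]
    refine Finset.sum_congr rfl fun q _ => ?_
    split_ifs
    · rw [CStarMatrix.add_apply, add_smul]
    · simp
  map_smul' c X := by
    rw [RingHom.id_apply, Finset.smul_sum]
    refine Finset.sum_congr rfl fun p _ => ?_
    rw [Finset.smul_sum]
    refine Finset.sum_congr rfl fun q _ => ?_
    split_ifs
    · rw [CStarMatrix.smul_apply, smul_smul, smul_eq_mul]
    · simp

open Classical in
lemma psiLin_cp {n : ℕ} {B : Type} [Fintype B] (blk : Fin n → B) (R : Fin n → A) (k : ℕ)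
    (M : CStarMatrix (Fin k) (Fin k) (CStarMatrix (Fin n) (Fin n) ℂ)) (hM : 0 ≤ M) :
    0 ≤ M.map (psiLin blk R) := by
  obtain ⟨N, rfl⟩ := cs_nonneg hM
  let y : Fin k → B → Fin n → Fin k → A := fun c b w j =>
    ∑ q, if blk q = b then (N c j w q) • star (R q) else 0
  have h : (star N * N).map (psiLin blk R)
      = ∑ c, ∑ b, ∑ w, (cs fun i j => star (y c b w i) * y c b w j :
        CStarMatrix (Fin k) (Fin k) A) := by
    ext i j
    rw [CStarMatrix.map_apply, cs_sum_apply, CStarMatrix.mul_apply, map_sum]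
    refine Finset.sum_congr rfl fun c _ => ?_
    rw [cs_sum_apply, CStarMatrix.star_apply]
    change (∑ p, ∑ q, if blk p = blk q then (star (N c i) * N c j) p q • (R p * star (R q))
      else 0) = _
    have e1 : ∀ b, (∑ w, (cs fun i j => star (y c b w i) * y c b w j :
        CStarMatrix (Fin k) (Fin k) A)) i j = ∑ w, star (y c b w i) * y c b w j := by
      intro b
      rw [cs_sum_apply]
      rfl
    simp only [e1]
    have e2 : ∀ b w, star (y c b w i) * y c b w j = ∑ p, ∑ q,
        if blk p = b ∧ blk q = b then (star (N c i w p) * N c j w q) • (R p * star (R q)) else 0 := by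
      intro b w
      simp only [y]
      rw [star_sum, Finset.sum_mul]
      refine Finset.sum_congr rfl fun p _ => ?_
      rw [Finset.mul_sum]
      refine Finset.sum_congr rfl fun q _ => ?_
      by_cases h1 : blk p = b
      · by_cases h2 : blk q = b
        · rw [if_pos h1, if_pos h2, if_pos ⟨h1, h2⟩, star_smul, star_star, smul_mul_smul_comm]
        · rw [if_neg h2, mul_zero, if_neg (fun h => h2 h.2)]
      · rw [if_neg h1, star_zero, zero_mul, if_neg (fun h => h1 h.1)]
    simp only [e2]
    have e3 : ∀ p q, (if blk p = blk q then (star (N c i) * N c j) p q • (R p * star (R q)) else 0)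
        = ∑ b, ∑ w, if blk p = b ∧ blk q = b then
          (star (N c i w p) * N c j w q) • (R p * star (R q)) else 0 := by
      intro p q
      rw [Finset.sum_eq_single (blk p)]
      · by_cases h1 : blk p = blk q
        · simp only [h1, and_self, if_true]
          rw [CStarMatrix.mul_apply, Finset.sum_smul]
          refine Finset.sum_congr rfl fun w _ => ?_
          rw [CStarMatrix.star_apply]
        · rw [if_neg h1]
          symm
          refine Finset.sum_eq_zero fun w _ => ?_
          rw [if_neg (fun h => h1 h.2.symm)]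
      · intro b _ hb
        refine Finset.sum_eq_zero fun w _ => ?_
        rw [if_neg (fun h => hb h.1.symm)]
      · simp
    simp only [e3]
    rw [Finset.sum_congr rfl fun p _ => Finset.sum_comm]
    rw [Finset.sum_comm]
    refine Finset.sum_congr rfl fun b _ => ?_
    rw [Finset.sum_congr rfl fun p _ => Finset.sum_comm]
    rw [Finset.sum_comm]
  rw [h]
  exact Finset.sum_nonneg fun c _ => Finset.sum_nonneg fun b _ => Finset.sum_nonneg fun w _ =>
    rankOne_nonneg (y c b w)

end psi

section norms

open scoped WithCStarModule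

variable {n : ℕ}

/-- scalar vectors as elements of the Hilbert module -/
def vec (v : Fin n → ℂ) : C⋆ᵐᵒᵈ(ℂ, Fin n → ℂ) := (WithCStarModule.equiv _ _).symm v

lemma vec_apply (v : Fin n → ℂ) (i : Fin n) : vec v i = v i := rfl

lemma norm_vec (v : C⋆ᵐᵒᵈ(ℂ, Fin n → ℂ)) : ‖v‖ = √(∑ i, ‖v i‖ ^ 2) := by
  rw [WithCStarModule.pi_norm]
  congr 1
  simp only [WithCStarModule.inner_def]
  have e : ∀ i, v i * star (v i) = ((‖v i‖ ^ 2 : ℝ) : ℂ) := by
    intro i
    rw [Complex.star_def, Complex.mul_conj, Complex.normSq_eq_norm_sq]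
  simp only [e]
  rw [← Complex.ofReal_sum, Complex.norm_real, Real.norm_of_nonneg]
  positivity

lemma inner_toCLM (X : CStarMatrix (Fin n) (Fin n) ℂ) (v w : C⋆ᵐᵒᵈ(ℂ, Fin n → ℂ)) :
    ⟪w, CStarMatrix.toCLM X v⟫_ℂ = ∑ j, (∑ i, v i * X i j) * star (w j) := by
  rw [CStarMatrix.toCLM_apply_eq_sum]
  rfl

lemma norm_inner_toCLM_le (X : CStarMatrix (Fin n) (Fin n) ℂ) (v w : Fin n → ℂ) :
    ‖∑ j, (∑ i, v i * X i j) * star (w j)‖ ≤
      ‖X‖ * (√(∑ i, ‖v i‖ ^ 2) * √(∑ i, ‖w i‖ ^ 2)) := by
  have h1 := inner_toCLM X (vec v) (vec w)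
  have h2 : ‖⟪vec w, CStarMatrix.toCLM X (vec v)⟫_ℂ‖ ≤ ‖vec w‖ * ‖CStarMatrix.toCLM X (vec v)‖ :=
    CStarModule.norm_inner_le (C⋆ᵐᵒᵈ(ℂ, Fin n → ℂ))
  rw [h1] at h2
  have h3 : ‖CStarMatrix.toCLM X (vec v)‖ ≤ ‖X‖ * ‖vec v‖ :=
    (CStarMatrix.toCLM X).le_opNorm (vec v)
  have hv : ‖vec v‖ = √(∑ i, ‖v i‖ ^ 2) := norm_vec _
  have hw : ‖vec w‖ = √(∑ i, ‖w i‖ ^ 2) := norm_vec _
  rw [hv] at h3
  rw [hw] at h2
  refine le_trans h2 ?_
  calc √(∑ i, ‖w i‖ ^ 2) * ‖CStarMatrix.toCLM X (vec v)‖
      ≤ √(∑ i, ‖w i‖ ^ 2) * (‖X‖ * √(∑ i, ‖v i‖ ^ 2)) :=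
        mul_le_mul_of_nonneg_left h3 (Real.sqrt_nonneg _)
    _ = ‖X‖ * (√(∑ i, ‖v i‖ ^ 2) * √(∑ i, ‖w i‖ ^ 2)) := by ring

open Classical in
lemma phiLin_norm {K : Type} [NormedAddCommGroup K] [InnerProductSpace ℂ K] [CompleteSpace K]
    (A : NonUnitalStarSubalgebra ℂ (K →L[ℂ] K)) {B : Type} [Fintype B] (blk : Fin n → B)
    (e : Fin n → K)
    (H : ∀ (b : B) (u : Fin n → ℂ), ‖∑ p, if blk p = b then u p • e p else 0‖ ≤
      √(∑ p, if blk p = b then ‖u p‖ ^ 2 else 0)) (a : A) :
    ‖phiLin A blk e a‖ ≤ ‖(a : K →L[ℂ] K)‖ := by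
  have hcs := CStarMatrix.norm_le_of_forall_inner_le (M := phiLin A blk e a)
    (C := ‖(a : K →L[ℂ] K)‖₊) (fun v w => by
      rw [inner_toCLM]
      have e1 : ∑ j, (∑ i, v i * phiLin A blk e a i j) * star (w j)
          = ∑ b, ⟪∑ i, (if blk i = b then star (v i) • e i else 0),
              (a : K →L[ℂ] K) (∑ j, if blk j = b then star (w j) • e j else 0)⟫_ℂ := by
        have e2 : ∀ b, ⟪∑ i, (if blk i = b then star (v i) • e i else 0),
              (a : K →L[ℂ] K) (∑ j, if blk j = b then star (w j) • e j else 0)⟫_ℂ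
            = ∑ j, ∑ i, if blk i = b ∧ blk j = b then
                v i * ⟪e i, (a : K →L[ℂ] K) (e j)⟫_ℂ * star (w j) else 0 := by
          intro b
          rw [map_sum, inner_sum]
          refine Finset.sum_congr rfl fun j _ => ?_
          rw [sum_inner]
          refine Finset.sum_congr rfl fun i _ => ?_
          by_cases h1 : blk i = b
          · by_cases h2 : blk j = b
            · rw [if_pos h1, if_pos h2, if_pos ⟨h1, h2⟩, map_smul, inner_smul_left,
                inner_smul_right]
              simp only [RCLike.star_def, starRingEnd_self_apply]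
              ring
            · rw [if_neg h2, map_zero, inner_zero_right, if_neg (fun h => h2 h.2)]
          · rw [if_neg h1, inner_zero_left, if_neg (fun h => h1 h.1)]
        simp only [e2]
        rw [Finset.sum_comm]
        refine Finset.sum_congr rfl fun j _ => ?_
        rw [Finset.sum_mul, Finset.sum_comm]
        refine Finset.sum_congr rfl fun i _ => ?_
        rw [Finset.sum_eq_single (blk i)]
        · change v i * (if blk i = blk j then ⟪e i, (a : K →L[ℂ] K) (e j)⟫_ℂ else 0) * star (w j) = _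
          by_cases h : blk i = blk j
          · rw [if_pos h, if_pos ⟨rfl, h.symm⟩]
          · rw [if_neg h, if_neg (fun h' => h h'.2.symm), mul_zero, zero_mul]
        · intro b _ hb
          rw [if_neg (fun h => hb h.1.symm)]
        · simp
      rw [e1]
      refine (norm_sum_le _ _).trans ?_
      have e3 : ∀ b, ‖⟪∑ i, (if blk i = b then star (v i) • e i else 0),
              (a : K →L[ℂ] K) (∑ j, if blk j = b then star (w j) • e j else 0)⟫_ℂ‖ ≤
            ‖(a : K →L[ℂ] K)‖ * (√(∑ p, if blk p = b then ‖v p‖ ^ 2 else 0) *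
              √(∑ p, if blk p = b then ‖w p‖ ^ 2 else 0)) := by
        intro b
        have h1 := H b (fun p => star (v p))
        have h2 := H b (fun p => star (w p))
        simp only [norm_star] at h1 h2
        refine (norm_inner_le_norm _ _).trans ?_
        refine (mul_le_mul h1 (((a : K →L[ℂ] K).le_opNorm _).trans
          (mul_le_mul_of_nonneg_left h2 (norm_nonneg _))) (norm_nonneg _)
          (Real.sqrt_nonneg _)).trans (le_of_eq ?_)
        ring
      refine (Finset.sum_le_sum fun b _ => e3 b).trans ?_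
      rw [← Finset.mul_sum, coe_nnnorm, mul_assoc]
      refine mul_le_mul_of_nonneg_left ?_ (norm_nonneg _)
      refine (Real.sum_sqrt_mul_sqrt_le _ (fun b => ?_) (fun b => ?_)).trans (le_of_eq ?_)
      · exact Finset.sum_nonneg fun p _ => by split_ifs <;> positivity
      · exact Finset.sum_nonneg fun p _ => by split_ifs <;> positivity
      · rw [norm_vec, norm_vec]
        congr 2
        · rw [Finset.sum_comm]
          refine Finset.sum_congr rfl fun p _ => ?_
          simp
        · rw [Finset.sum_comm]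
          refine Finset.sum_congr rfl fun p _ => ?_
          simp)
  simpa using hcs

end norms

section main

open Classical in
theorem isNuclear_of {K : Type} [NormedAddCommGroup K] [InnerProductSpace ℂ K] [CompleteSpace K]
    (A : NonUnitalStarSubalgebra ℂ (K →L[ℂ] K)) [IsClosed (A : Set (K →L[ℂ] K))]
    [PartialOrder A] [StarOrderedRing A]
    (h : ∀ (F : Finset A) (ε : ℝ), 0 < ε → ∃ (B W : Type) (_ : Fintype B) (_ : Fintype W)
      (e : B → W → K) (R : B → W → A),
      (∀ b, Orthonormal ℂ (e b)) ∧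
      (∀ (x : B → W → W → ℂ) (C : ℝ), 0 ≤ C →
        (∀ b, ∀ u v : W → ℂ, ‖∑ α, ∑ β, conj (u α) * (x b α β * v β)‖ ≤
          C * (√(∑ α, ‖u α‖ ^ 2) * √(∑ β, ‖v β‖ ^ 2))) →
        ‖∑ b, ∑ α, ∑ β, x b α β • (R b α * star (R b β))‖ ≤ C) ∧
      ∀ a ∈ F, ‖∑ b, ∑ α, ∑ β, ⟪e b α, (a : K →L[ℂ] K) (e b β)⟫_ℂ • (R b α * star (R b β)) - a‖
        < ε) :
    IsNuclear A := by
  intro F ε hε
  obtain ⟨B, W, _, _, e, R, hort, hR, happ⟩ := h F ε hε
  let n := Fintype.card (B × W)
  let eq : Fin n ≃ B × W := (Fintype.equivFin (B × W)).symm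
  let blk : Fin n → B := fun p => (eq p).1
  let e' : Fin n → K := fun p => e (eq p).1 (eq p).2
  let R' : Fin n → A := fun p => R (eq p).1 (eq p).2
  -- reindexing of sums
  have hsum : ∀ {M : Type} [AddCommMonoid M] (f : Fin n → Fin n → M),
      (∑ p, ∑ q, if blk p = blk q then f p q else 0)
        = ∑ b, ∑ α, ∑ β, f (eq.symm (b, α)) (eq.symm (b, β)) := by
    intro M _ f
    rw [← eq.symm.sum_comp, Fintype.sum_prod_type]
    refine Finset.sum_congr rfl fun b _ => Finset.sum_congr rfl fun α _ => ?_
    rw [← eq.symm.sum_comp, Fintype.sum_prod_type, Finset.sum_eq_single b]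
    · refine Finset.sum_congr rfl fun β _ => ?_
      have : blk (eq.symm (b, α)) = blk (eq.symm (b, β)) := by simp [blk]
      rw [if_pos this]
    · intro b' _ hb'
      refine Finset.sum_eq_zero fun β _ => ?_
      have : ¬ blk (eq.symm (b, α)) = blk (eq.symm (b', β)) := by
        simp only [blk, Equiv.apply_symm_apply]
        exact fun h => hb' h.symm
      rw [if_neg this]
    · simp
  have hsum1 : ∀ {M : Type} [AddCommMonoid M] (b : B) (f : Fin n → M),
      (∑ p, if blk p = b then f p else 0) = ∑ α, f (eq.symm (b, α)) := by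
    intro M _ b f
    rw [← eq.symm.sum_comp, Fintype.sum_prod_type, Finset.sum_eq_single b]
    · refine Finset.sum_congr rfl fun β _ => ?_
      have : blk (eq.symm (b, β)) = b := by simp [blk]
      rw [if_pos this]
    · intro b' _ hb'
      refine Finset.sum_eq_zero fun β _ => ?_
      have : ¬ blk (eq.symm (b', β)) = b := by
        simp only [blk, Equiv.apply_symm_apply]
        exact hb'
      rw [if_neg this]
    · simp
  refine ⟨n, ⟨phiLin A blk e', phiLin_cp A blk e'⟩, ⟨psiLin blk R', psiLin_cp blk R'⟩, ?_, ?_, ?_⟩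
  · intro a
    refine phiLin_norm A blk e' ?_ a
    intro b u
    rw [hsum1, hsum1]
    apply le_of_eq
    have h1 : (∑ α, u (eq.symm (b, α)) • e' (eq.symm (b, α))) = ∑ α, u (eq.symm (b, α)) • e b α := by
      refine Finset.sum_congr rfl fun α _ => ?_
      simp [e']
    rw [h1]
    have h2 := (hort b).inner_sum (fun α => u (eq.symm (b, α))) (fun α => u (eq.symm (b, α)))
      Finset.univ
    rw [← Real.sqrt_sq (norm_nonneg (∑ α, u (eq.symm (b, α)) • e b α))]
    congr 1
    have h3 : ((‖∑ α, u (eq.symm (b, α)) • e b α‖ ^ 2 : ℝ) : ℂ) =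
        ((∑ α, ‖u (eq.symm (b, α))‖ ^ 2 : ℝ) : ℂ) := by
      push_cast
      rw [← RCLike.ofReal_eq_complex_ofReal, ← inner_self_eq_norm_sq_to_K (𝕜 := ℂ), h2]
      refine Finset.sum_congr rfl fun α _ => ?_
      rw [Complex.conj_mul']
      rfl
    exact_mod_cast h3
  · intro X
    change ‖∑ p, ∑ q, if blk p = blk q then X p q • (R' p * star (R' q)) else 0‖ ≤ ‖X‖
    rw [hsum]
    have h1 : (∑ b, ∑ α, ∑ β, X (eq.symm (b, α)) (eq.symm (b, β)) •
        (R' (eq.symm (b, α)) * star (R' (eq.symm (b, β)))))
        = ∑ b, ∑ α, ∑ β, X (eq.symm (b, α)) (eq.symm (b, β)) • (R b α * star (R b β)) := by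
      refine Finset.sum_congr rfl fun b _ => Finset.sum_congr rfl fun α _ =>
        Finset.sum_congr rfl fun β _ => ?_
      simp [R']
    rw [h1]
    refine hR (fun b α β => X (eq.symm (b, α)) (eq.symm (b, β))) ‖X‖ (norm_nonneg _) ?_
    intro b u v
    have h2 := norm_inner_toCLM_le X (fun p => if blk p = b then conj (u (eq p).2) else 0)
      (fun q => if blk q = b then conj (v (eq q).2) else 0)
    have h3 : ∀ w : W → ℂ, (∑ i, ‖(if blk i = b then conj (w (eq i).2) else 0 : ℂ)‖ ^ 2)
        = ∑ α, ‖w α‖ ^ 2 := by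
      intro w
      have : ∀ i, ‖(if blk i = b then conj (w (eq i).2) else 0 : ℂ)‖ ^ 2
          = if blk i = b then ‖w (eq i).2‖ ^ 2 else 0 := by
        intro i
        split_ifs
        · simp
        · simp
      simp only [this]
      rw [hsum1]
      simp
    rw [h3, h3] at h2
    refine le_trans (le_of_eq ?_) h2
    congr 1
    rw [Finset.sum_comm]
    have h4 : ∀ q, (∑ i, (if blk i = b then conj (u (eq i).2) else 0) * X i q) *
        star (if blk q = b then conj (v (eq q).2) else 0 : ℂ) =
        if blk q = b then (∑ α, conj (u α) * X (eq.symm (b, α)) q) * v (eq q).2 else 0 := by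
      intro q
      by_cases hq : blk q = b
      · rw [if_pos hq, if_pos hq]
        congr 1
        · have : ∀ i, (if blk i = b then conj (u (eq i).2) else 0) * X i q
              = if blk i = b then conj (u (eq i).2) * X i q else 0 := by
            intro i; split_ifs <;> simp
          simp only [this]
          rw [hsum1]
          simp
        · simp
      · rw [if_neg hq, if_neg hq, star_zero, mul_zero]
    simp only [h4]
    rw [hsum1]
    refine Finset.sum_congr rfl fun β _ => ?_
    rw [Equiv.apply_symm_apply, Finset.sum_mul]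
    refine Finset.sum_congr rfl fun α _ => ?_
    ring
  · intro a ha
    have h1 := happ a ha
    refine lt_of_le_of_lt (le_of_eq ?_) h1
    congr 2
    change (∑ p, ∑ q, if blk p = blk q then (phiLin A blk e' a) p q • (R' p * star (R' q)) else 0) = _
    rw [hsum]
    refine Finset.sum_congr rfl fun b _ => Finset.sum_congr rfl fun α _ =>
      Finset.sum_congr rfl fun β _ => ?_
    have h2 : phiLin A blk e' a (eq.symm (b, α)) (eq.symm (b, β))
        = ⟪e b α, (a : K →L[ℂ] K) (e b β)⟫_ℂ := by
      change (if blk (eq.symm (b, α)) = blk (eq.symm (b, β)) then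
        ⟪e' (eq.symm (b, α)), (a : K →L[ℂ] K) (e' (eq.symm (b, β)))⟫_ℂ else 0) = _
      have : blk (eq.symm (b, α)) = blk (eq.symm (b, β)) := by simp [blk]
      rw [if_pos this]
      simp [e']
    rw [h2]
    simp [R']

end main

end Dini
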