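import Pool.Agent.Dini.NucAbstract
import Pool.Agent.Dini.Conv

/-!
# Nuclearity of the algebra
-/

open scoped CStarAlgebra Topology ComplexOrder InnerProductSpace ComplexConjugate
open ContinuousLinearMap

namespace Dini

noncomputable section

variable {Q L : Type} [TopologicalSpace Q] [CompactSpace Q] {S : Data Q L}

lemma Dop_norm (s : Finset L) {N : ℕ} (hN : 0 < N) (k : ℕ) : ‖Dop S s N k‖ ≤ 1 :=
  diagOp_norm zero_le_one (Dop_bdd s hN k)

/-- one term of `PsiOp` -/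
lemma term_norm (s : Finset L) {N : ℕ} (hN : 0 < N) (α β : List L) (f : C(Q, ℂ)) :
    ‖TT S.lam α * Dop S s N α.length * Mop S.lam f * Dop S s N β.length * star (TT S.lam β)‖
      ≤ ‖f‖ := by
  calc ‖TT S.lam α * Dop S s N α.length * Mop S.lam f * Dop S s N β.length * star (TT S.lam β)‖
      ≤ ‖TT S.lam α‖ * ‖Dop S s N α.length‖ * ‖Mop S.lam f‖ * ‖Dop S s N β.length‖ *
          ‖star (TT S.lam β)‖ := by
        refine (norm_mul_le _ _).trans ?_
        gcongr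
        refine (norm_mul_le _ _).trans ?_
        gcongr
        refine (norm_mul_le _ _).trans ?_
        gcongr
        exact norm_mul_le _ _
    _ ≤ 1 * 1 * ‖f‖ * 1 * 1 := by
        rw [star_norm]
        have h1 := TT_norm (lam := S.lam) α
        have h2 := TT_norm (lam := S.lam) β
        have h3 := Mop_norm (lam := S.lam) f
        have h4 := Dop_norm (S := S) s hN α.length
        have h5 := Dop_norm (S := S) s hN β.length
        gcongr
    _ = ‖f‖ := by ring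

lemma PsiOp_sub_norm (s : Finset L) {N : ℕ} (hN : 0 < N) (x y : List L → List L → C(Q, ℂ)) :
    ‖PsiOp S s N x - PsiOp S s N y‖ ≤
      ∑ α ∈ wordsLt s N, ∑ β ∈ wordsLt s N, ‖x α β - y α β‖ := by
  have h : PsiOp S s N x - PsiOp S s N y = PsiOp S s N (fun α β => x α β - y α β) := by
    unfold PsiOp
    rw [← Finset.sum_sub_distrib]
    apply Finset.sum_congr rfl
    intro α _
    rw [← Finset.sum_sub_distrib]
    apply Finset.sum_congr rfl
    intro β _
    rw [Mop_sub, mul_sub, sub_mul, sub_mul]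
  rw [h]
  unfold PsiOp
  refine (norm_sum_le _ _).trans (Finset.sum_le_sum fun α _ => ?_)
  refine (norm_sum_le _ _).trans (Finset.sum_le_sum fun β _ => ?_)
  exact term_norm s hN α β _

/-- the row elements -/
def Rrow (S : Data Q L) (s : Finset L) (N : ℕ) (r : C(Q, ℂ)) (α : List L) :
    H (Path S.lam) →L[ℂ] H (Path S.lam) :=
  TT S.lam α * Dop S s N α.length * Mop S.lam r

lemma Rrow_mem (s : Finset L) {N : ℕ} (hN : 0 < N) {r : C(Q, ℂ)} (hr : ∀ q ∈ S.D, r q = 0)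
    (α : List L) : Rrow S s N r α ∈ alg S := by
  unfold Rrow
  rw [mul_assoc]
  apply TT_mul_mem
  apply Dop_mul_mem s hN
  exact Mop_mem hr

lemma Rrow_mul_star (s : Finset L) {N : ℕ} (hN : 0 < N) (r : C(Q, ℂ)) (α β : List L) :
    Rrow S s N r α * star (Rrow S s N r β) =
      TT S.lam α * Dop S s N α.length * Mop S.lam (r * star r) * Dop S s N β.length *
        star (TT S.lam β) := by
  unfold Rrow
  rw [star_mul, star_mul, Mop_star, Dop_star s hN, Mop_mul]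
  simp only [mul_assoc]

lemma Mop_sum {ι : Type} (t : Finset ι) (f : ι → C(Q, ℂ)) :
    Mop S.lam (∑ b ∈ t, f b) = ∑ b ∈ t, Mop S.lam (f b) := by
  classical
  induction t using Finset.induction_on with
  | empty => simp [Mop_zero]
  | insert a t ha ih => rw [Finset.sum_insert ha, Finset.sum_insert ha, Mop_add, ih]

/-- extension by zero of a matrix indexed by a finset -/
def ext0 (W : Finset (List L)) (x : W → W → ℂ) (α β : List L) : ℂ := by
  classical
  exact if h : α ∈ W ∧ β ∈ W then x ⟨α, h.1⟩ ⟨β, h.2⟩ else 0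

lemma ext0_coe (W : Finset (List L)) (x : W → W → ℂ) (α β : W) :
    ext0 W x (α : List L) (β : List L) = x α β := by
  unfold ext0
  rw [dif_pos ⟨α.2, β.2⟩]

/-- The sum in terms of `PsiOp`. -/
lemma sum_eq_PsiOp {B : Type} [Fintype B] (s : Finset L) {N : ℕ} (hN : 0 < N)
    (x : B → wordsLt s N → wordsLt s N → ℂ) (r : B → C(Q, ℂ)) :
    ∑ b, ∑ α, ∑ β, x b α β • (Rrow S s N (r b) α * star (Rrow S s N (r b) β)) =
      PsiOp S s N (fun α β => ∑ b, ext0 (wordsLt s N) (x b) α β • (r b * star (r b))) := by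
  classical
  unfold PsiOp
  rw [← Finset.sum_coe_sort (wordsLt s N)]
  rw [Finset.sum_comm]
  apply Finset.sum_congr rfl
  intro α _
  rw [← Finset.sum_coe_sort (wordsLt s N)]
  rw [Finset.sum_comm]
  apply Finset.sum_congr rfl
  intro β _
  rw [Mop_sum, Finset.mul_sum, Finset.sum_mul, Finset.sum_mul]
  apply Finset.sum_congr rfl
  intro b _
  rw [ext0_coe, Rrow_mul_star s hN, Mop_smul, mul_smul_comm, smul_mul_assoc, smul_mul_assoc]

lemma sum_bound {B : Type} [Fintype B] (s : Finset L) {N : ℕ} (hN : 0 < N)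
    (x : B → wordsLt s N → wordsLt s N → ℂ) (r : B → C(Q, ℂ)) (g : B → Q → ℝ)
    (hg : ∀ b q, 0 ≤ g b q) (hg1 : ∀ q, ∑ b, g b q ≤ 1)
    (hr : ∀ b q, (r b * star (r b)) q = (g b q : ℂ)) (C : ℝ) (hC : 0 ≤ C)
    (hx : ∀ b, ∀ u v : wordsLt s N → ℂ, ‖∑ α, ∑ β, conj (u α) * (x b α β * v β)‖ ≤
          C * (√(∑ α, ‖u α‖ ^ 2) * √(∑ β, ‖v β‖ ^ 2))) :
    ‖∑ b, ∑ α, ∑ β, x b α β • (Rrow S s N (r b) α * star (Rrow S s N (r b) β))‖ ≤ C := by
  classical
  rw [sum_eq_PsiOp s hN]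
  apply PsiOp_norm s hN _ C hC
  intro q u v
  have e1 : ∑ α ∈ wordsLt s N, ∑ β ∈ wordsLt s N, conj (u α) *
      ((∑ b, ext0 (wordsLt s N) (x b) α β • (r b * star (r b))) q * v β)
      = ∑ b, (g b q : ℂ) * ∑ α : wordsLt s N, ∑ β : wordsLt s N,
        conj (u α) * (x b α β * v β) := by
    symm
    simp only [Finset.mul_sum]
    rw [← Finset.sum_coe_sort (wordsLt s N)]
    rw [Finset.sum_comm]
    apply Finset.sum_congr rfl
    intro α _
    rw [← Finset.sum_coe_sort (wordsLt s N)]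
    rw [Finset.sum_comm]
    apply Finset.sum_congr rfl
    intro β _
    rw [ContinuousMap.sum_apply, Finset.sum_mul, Finset.mul_sum]
    apply Finset.sum_congr rfl
    intro b _
    rw [ContinuousMap.smul_apply, hr, ext0_coe, smul_eq_mul]
    ring
  have e2 : ∀ w : List L → ℂ, ∑ α ∈ wordsLt s N, ‖w α‖ ^ 2 = ∑ α : wordsLt s N, ‖w α‖ ^ 2 :=
    fun w => (Finset.sum_coe_sort (wordsLt s N) (fun α => ‖w α‖ ^ 2)).symm
  rw [e1, e2, e2]
  calc ‖∑ b, (g b q : ℂ) * ∑ α : wordsLt s N, ∑ β : wordsLt s N,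
        conj (u α) * (x b α β * v β)‖
      ≤ ∑ b, g b q * (C * (√(∑ α : wordsLt s N, ‖u α‖ ^ 2) *
          √(∑ β : wordsLt s N, ‖v β‖ ^ 2))) := by
        refine (norm_sum_le _ _).trans (Finset.sum_le_sum fun b _ => ?_)
        rw [norm_mul, Complex.norm_real, Real.norm_of_nonneg (hg b q)]
        have := hx b (fun α => u α) (fun β => v β)
        have h2 := hg b q
        gcongr
    _ = (∑ b, g b q) * (C * (√(∑ α : wordsLt s N, ‖u α‖ ^ 2) *
          √(∑ β : wordsLt s N, ‖v β‖ ^ 2))) := by rw [Finset.sum_mul]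
    _ ≤ 1 * (C * (√(∑ α : wordsLt s N, ‖u α‖ ^ 2) *
          √(∑ β : wordsLt s N, ‖v β‖ ^ 2))) := by
        have := hg1 q
        gcongr
    _ = _ := one_mul _

/-- A finite family of weights adapted to a continuous map `c` to a normed space. -/
lemma exists_weights [T2Space Q] {E : Type} [NormedAddCommGroup E] (c : Q → E)
    (hc : Continuous c) (D : Set Q) (hD : ∀ q ∈ D, c q = 0) (δ : ℝ) (hδ : 0 < δ) :
    ∃ (B : Type) (_ : Fintype B) (p : B → Q) (g : B → C(Q, ℝ)),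
      (∀ b q, 0 ≤ g b q) ∧ (∀ q, ∑ b, g b q ≤ 1) ∧ (∀ b, ∀ q ∈ D, g b q = 0) ∧
      (∀ b q, g b q ≠ 0 → dist (c q) (c (p b)) < δ) ∧
      (∀ q, δ ≤ ‖c q‖ → ∑ b, g b q = 1) := by
  classical
  obtain ⟨t, ht⟩ := CompactSpace.elim_nhds_subcover (fun q => c ⁻¹' Metric.ball (c q) δ)
    (fun q => hc.continuousAt.preimage_mem_nhds (Metric.ball_mem_nhds _ hδ))
  let U : t → Set Q := fun q => c ⁻¹' Metric.ball (c q) δ
  have hU : (Set.univ : Set Q) ⊆ ⋃ i, U i := by
    intro q _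
    have : q ∈ ⋃ x ∈ t, c ⁻¹' Metric.ball (c x) δ := by rw [ht]; trivial
    rw [Set.mem_iUnion₂] at this
    obtain ⟨x, hx, hq⟩ := this
    exact Set.mem_iUnion.2 ⟨⟨x, hx⟩, hq⟩
  obtain ⟨θ, hθ⟩ := PartitionOfUnity.exists_isSubordinate_of_locallyFinite isClosed_univ U
    (fun i => hc.isOpen_preimage _ Metric.isOpen_ball) (locallyFinite_of_finite U) hU
  have hsum : ∀ q, ∑ b, θ b q = 1 := by
    intro q
    rw [← finsum_eq_sum_of_fintype]
    exact θ.sum_eq_one (Set.mem_univ q)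
  let h : C(Q, ℝ) := ⟨fun q => min 1 (‖c q‖ / δ), by fun_prop⟩
  have hh0 : ∀ q, 0 ≤ h q := fun q => le_min zero_le_one (by positivity)
  have hh1 : ∀ q, h q ≤ 1 := fun q => min_le_left _ _
  refine ⟨t, inferInstance, fun b => b, fun b => θ b * h, ?_, ?_, ?_, ?_, ?_⟩
  · intro b q
    exact mul_nonneg (θ.nonneg b q) (hh0 q)
  · intro q
    have : ∑ b, (θ b * h) q = (∑ b, θ b q) * h q := by
      rw [Finset.sum_mul]; rfl
    rw [this, hsum, one_mul]
    exact hh1 q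
  · intro b q hq
    have : h q = 0 := by
      change min 1 (‖c q‖ / δ) = 0
      rw [hD q hq]
      simp
    rw [ContinuousMap.mul_apply, this, mul_zero]
  · intro b q hq
    have h1 : θ b q ≠ 0 := by
      intro h0
      apply hq
      rw [ContinuousMap.mul_apply, h0, zero_mul]
    have h2 : q ∈ U b := hθ b (subset_tsupport _ h1)
    exact h2
  · intro q hq
    have : ∑ b, (θ b * h) q = (∑ b, θ b q) * h q := by
      rw [Finset.sum_mul]; rfl
    rw [this, hsum, one_mul]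
    change min 1 (‖c q‖ / δ) = 1
    rw [min_eq_left]
    rwa [one_le_div hδ]

lemma approx_one {B : Type} [Fintype B] (z : B → ℂ) (z0 : ℂ) (g : B → ℝ) (δ : ℝ)
    (hδ : 0 < δ) (hg0 : ∀ b, 0 ≤ g b) (hg1 : ∑ b, g b ≤ 1)
    (hd : ∀ b, g b ≠ 0 → ‖z b - z0‖ ≤ δ) (hs : ∑ b, g b = 1 ∨ ‖z0‖ ≤ δ) :
    ‖∑ b, z b * (g b : ℂ) - z0‖ ≤ 2 * δ := by
  have e1 : ∑ b, z b * (g b : ℂ) - z0
      = ∑ b, (z b - z0) * (g b : ℂ) + z0 * (∑ b, (g b : ℂ) - 1) := by
    simp only [sub_mul, Finset.sum_sub_distrib, ← Finset.mul_sum]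
    ring
  rw [e1]
  have e2 : ‖∑ b, (z b - z0) * (g b : ℂ)‖ ≤ δ := by
    calc ‖∑ b, (z b - z0) * (g b : ℂ)‖ ≤ ∑ b, δ * g b := by
          refine (norm_sum_le _ _).trans (Finset.sum_le_sum fun b _ => ?_)
          rw [norm_mul, Complex.norm_real, Real.norm_of_nonneg (hg0 b)]
          by_cases h0 : g b = 0
          · rw [h0, mul_zero, mul_zero]
          · exact mul_le_mul_of_nonneg_right (hd b h0) (hg0 b)
      _ = δ * ∑ b, g b := by rw [Finset.mul_sum]
      _ ≤ δ * 1 := mul_le_mul_of_nonneg_left hg1 hδ.le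
      _ = δ := mul_one δ
  have e3 : ‖z0 * (∑ b, (g b : ℂ) - 1)‖ ≤ δ := by
    have hcast : ∑ b, (g b : ℂ) - 1 = ((∑ b, g b - 1 : ℝ) : ℂ) := by push_cast; rfl
    rw [hcast, norm_mul, Complex.norm_real]
    rcases hs with hs | hs
    · rw [hs, sub_self, norm_zero, mul_zero]
      exact hδ.le
    · have h7 : ‖∑ b, g b - 1‖ ≤ 1 := by
        rw [Real.norm_eq_abs, abs_le]
        have h9 : 0 ≤ ∑ b, g b := Finset.sum_nonneg fun b _ => hg0 b
        constructor <;> linarith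
      calc ‖z0‖ * ‖∑ b, g b - 1‖ ≤ δ * 1 :=
            mul_le_mul hs h7 (norm_nonneg _) hδ.le
        _ = δ := mul_one δ
  calc _ ≤ _ := norm_add_le _ _
    _ ≤ δ + δ := add_le_add e2 e3
    _ = 2 * δ := by ring

lemma delta_pos (ε : ℝ) (hε : 0 < ε) (n : ℕ) : 0 < ε / (4 * ((n : ℝ) * n + 1)) := by
  positivity

lemma delta_sum (ε : ℝ) (hε : 0 < ε) (n : ℕ) :
    (n : ℝ) * n * (2 * (ε / (4 * ((n : ℝ) * n + 1)))) ≤ ε / 2 := by
  have h : (0 : ℝ) < (n : ℝ) * n + 1 := by positivity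
  have h2 : (0 : ℝ) ≤ 2 * (ε / (4 * ((n : ℝ) * n + 1))) := by positivity
  calc (n : ℝ) * n * (2 * (ε / (4 * ((n : ℝ) * n + 1))))
      ≤ ((n : ℝ) * n + 1) * (2 * (ε / (4 * ((n : ℝ) * n + 1)))) :=
        mul_le_mul_of_nonneg_right (by linarith) h2
    _ = ε / 2 := by
        field_simp
        ring

lemma double_sum_le {ι : Type} (W : Finset ι) (F : ι → ι → ℝ) (c : ℝ)
    (h : ∀ α ∈ W, ∀ β ∈ W, F α β ≤ c) :
    ∑ α ∈ W, ∑ β ∈ W, F α β ≤ (W.card : ℝ) * W.card * c := by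
  calc ∑ α ∈ W, ∑ β ∈ W, F α β ≤ ∑ α ∈ W, ∑ β ∈ W, c :=
        Finset.sum_le_sum fun α hα => Finset.sum_le_sum fun β hβ => h α hα β hβ
    _ = (W.card : ℝ) * W.card * c := by
        simp only [Finset.sum_const, nsmul_eq_mul]
        ring

/-- The approximation of finitely many elements by finite weighted sums. -/
lemma exists_approx [T2Space Q] (F : Finset (H (Path S.lam) →L[ℂ] H (Path S.lam)))
    (hF : ∀ a ∈ F, a ∈ alg S) (ε : ℝ) (hε : 0 < ε) :
    ∃ (s : Finset L) (N : ℕ) (_ : 0 < N) (B : Type) (_ : Fintype B) (p : B → Q)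
      (r : B → C(Q, ℂ)) (g : B → Q → ℝ), (∀ b q, 0 ≤ g b q) ∧ (∀ q, ∑ b, g b q ≤ 1) ∧
      (∀ b q, (r b * star (r b)) q = (g b q : ℂ)) ∧ (∀ b, ∀ q ∈ S.D, r b q = 0) ∧
      ∀ a ∈ F, ‖∑ b, ∑ α : wordsLt s N, ∑ β : wordsLt s N,
        ⟪evec S (p b) (α : List L), a (evec S (p b) (β : List L))⟫_ℂ •
          (Rrow S s N (r b) α * star (Rrow S s N (r b) β)) - a‖ < ε := by
  classical
  choose! s0 N0 hsN using fun (a : H (Path S.lam) →L[ℂ] H (Path S.lam)) (ha : a ∈ alg S) =>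
    PsiOp_tendsto a ha (ε / 2) (half_pos hε)
  obtain ⟨s, hs⟩ : ∃ s : Finset L, ∀ a ∈ F, s0 a ⊆ s :=
    ⟨F.biUnion s0, fun a ha => Finset.subset_biUnion_of_mem s0 ha⟩
  obtain ⟨N, hN, hN0⟩ : ∃ N : ℕ, (∀ a ∈ F, N0 a ≤ N) ∧ 0 < N :=
    ⟨F.sup N0 + 1, fun a ha => (Finset.le_sup ha).trans (Nat.le_succ _), Nat.succ_pos _⟩
  have happ : ∀ a ∈ F, ‖PsiOp S s N (coef a) - a‖ < ε / 2 :=
    fun a ha => hsN a (hF a ha) s (hs a ha) N (hN a ha) hN0
  obtain ⟨δ, hδ, hδ2⟩ : ∃ δ : ℝ, 0 < δ ∧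
      ((wordsLt s N).card : ℝ) * (wordsLt s N).card * (2 * δ) ≤ ε / 2 :=
    ⟨_, delta_pos ε hε (wordsLt s N).card, delta_sum ε hε (wordsLt s N).card⟩
  let c : Q → (F × wordsLt s N × wordsLt s N → ℂ) := fun q i => coef i.1.1 i.2.1 i.2.2 q
  have hc : Continuous c := by
    apply continuous_pi
    intro i
    exact (coef i.1.1 (i.2.1 : List L) (i.2.2 : List L)).continuous
  obtain ⟨B, _, p, g, hg0, hg1, hgD, hgd, hgs⟩ := exists_weights c hc S.D (by
    intro q hq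
    funext i
    exact coef_D (hF _ i.1.2) _ _ hq) δ hδ
  let r : B → C(Q, ℂ) := fun b => ⟨fun q => ((√(g b q) : ℝ) : ℂ), by fun_prop⟩
  have hr : ∀ b q, (r b * star (r b)) q = (g b q : ℂ) := by
    intro b q
    rw [ContinuousMap.mul_apply, ContinuousMap.star_apply]
    change ((√(g b q) : ℝ) : ℂ) * conj ((√(g b q) : ℝ) : ℂ) = _
    rw [Complex.conj_ofReal, ← Complex.ofReal_mul, Real.mul_self_sqrt (hg0 b q)]
  have hrD : ∀ b, ∀ q ∈ S.D, r b q = 0 := by
    intro b q hq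
    change ((√(g b q) : ℝ) : ℂ) = 0
    rw [hgD b q hq, Real.sqrt_zero, Complex.ofReal_zero]
  refine ⟨s, N, hN0, B, inferInstance, p, r, fun b q => g b q, hg0, hg1, hr, hrD, ?_⟩
  intro a ha
  rw [sum_eq_PsiOp s hN0]
  have hdiff : ∀ α ∈ wordsLt s N, ∀ β ∈ wordsLt s N,
      ‖(∑ b, ext0 (wordsLt s N) (fun (α β : wordsLt s N) =>
        ⟪evec S (p b) (α : List L), a (evec S (p b) (β : List L))⟫_ℂ) α β •
          (r b * star (r b))) - coef a α β‖ ≤ 2 * δ := by
    intro α hα β hβ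
    rw [ContinuousMap.norm_le _ (mul_nonneg zero_le_two hδ.le)]
    intro q
    have hXq : (∑ b, ext0 (wordsLt s N) (fun (α β : wordsLt s N) =>
        ⟪evec S (p b) (α : List L), a (evec S (p b) (β : List L))⟫_ℂ) α β •
          (r b * star (r b))) q = ∑ b, coef a α β (p b) * (g b q : ℂ) := by
      rw [ContinuousMap.sum_apply]
      apply Finset.sum_congr rfl
      intro b _
      rw [ContinuousMap.smul_apply, hr, smul_eq_mul]
      congr 1
      rw [coef_apply (hF a ha)]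
      exact ext0_coe (wordsLt s N) _ ⟨α, hα⟩ ⟨β, hβ⟩
    have hcomp : ∀ q, c q ⟨⟨a, ha⟩, ⟨α, hα⟩, ⟨β, hβ⟩⟩ = coef a α β q := fun q => rfl
    rw [ContinuousMap.sub_apply, hXq]
    refine approx_one (fun b => coef a α β (p b)) (coef a α β q) (fun b => g b q) δ hδ
      (fun b => hg0 b q) (hg1 q) ?_ ?_
    · intro b h0
      have h3 := hgd b q h0
      rw [← hcomp, ← hcomp, ← dist_eq_norm, dist_comm]
      exact (dist_le_pi_dist _ _ _).trans h3.le
    · by_cases hq : δ ≤ ‖c q‖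
      · exact Or.inl (hgs q hq)
      · right
        rw [← hcomp]
        exact (norm_le_pi_norm _ _).trans (not_le.1 hq).le
  have h2 := ((PsiOp_sub_norm (S := S) s hN0 _ (coef a)).trans
    (double_sum_le (wordsLt s N) _ _ hdiff)).trans hδ2
  have h3 := happ a ha
  refine (norm_sub_le_norm_sub_add_norm_sub _ (PsiOp S s N (coef a)) _).trans_lt ?_
  linarith

variable (S) in
open Classical in
theorem alg_isNuclear [T2Space Q] [PartialOrder (alg S)] [StarOrderedRing (alg S)] :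
    IsNuclear (alg S) := by
  apply isNuclear_of
  intro F ε hε
  obtain ⟨s, N, hN0, B, _, p, r, g, hg0, hg1, hr, hrD, hmain⟩ := exists_approx (S := S)
    (F.image Subtype.val) (by
      intro a ha
      obtain ⟨b, _, rfl⟩ := Finset.mem_image.1 ha
      exact b.2) ε hε
  let R : B → wordsLt s N → alg S :=
    fun b α => ⟨Rrow S s N (r b) α, Rrow_mem s hN0 (hrD b) α⟩
  have hcoe : ∀ x : B → wordsLt s N → wordsLt s N → ℂ,
      ((∑ b, ∑ α, ∑ β, x b α β • (R b α * star (R b β)) : alg S) :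
        H (Path S.lam) →L[ℂ] H (Path S.lam))
      = ∑ b, ∑ α : wordsLt s N, ∑ β : wordsLt s N,
        x b α β • (Rrow S s N (r b) α * star (Rrow S s N (r b) β)) := by
    intro x
    rw [AddSubmonoidClass.coe_finsetSum]
    refine Finset.sum_congr rfl fun b _ => ?_
    rw [AddSubmonoidClass.coe_finsetSum]
    refine Finset.sum_congr rfl fun α _ => ?_
    rw [AddSubmonoidClass.coe_finsetSum]
    refine Finset.sum_congr rfl fun β _ => ?_
    rfl
  refine ⟨B, wordsLt s N, inferInstance, inferInstance, fun b α => evec S (p b) α, R, ?_, ?_, ?_⟩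
  · intro b
    exact (evec_orthonormal (S := S) (p b)).comp (fun α : wordsLt s N => (α : List L))
      Subtype.val_injective
  · intro x C hC hx
    have h1 := sum_bound (S := S) s hN0 x r g hg0 hg1 hr C hC hx
    rw [← hcoe x] at h1
    exact h1
  · intro a ha
    have h1 := hmain a.1 (Finset.mem_image.2 ⟨a, ha, rfl⟩)
    rw [← hcoe (fun b α β => ⟪evec S (p b) (α : List L),
      (a : H (Path S.lam) →L[ℂ] H (Path S.lam)) (evec S (p b) (β : List L))⟫_ℂ)] at h1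
    exact h1

end

end Dini
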