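import Pool.Agent.Dini.Hilb

/-!
# The path space and the basic operators
-/

open scoped ENNReal InnerProductSpace
open ContinuousLinearMap

namespace Dini

noncomputable section

variable {Q L : Type} [TopologicalSpace Q]

/-- A (finite or backward infinite) path: letters `w i` (read from the last one) and points `p i`
with `p i = lam (w i) (p (i+1))`; the path stops when `w i = none`. -/
def IsPath (lam : L → C(Q, Q)) (w : ℕ → Option L) (p : ℕ → Q) : Prop :=
  ∀ i, (∀ l, w i = some l → p i = lam l (p (i + 1))) ∧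
    (w i = none → w (i + 1) = none ∧ p (i + 1) = p i)

/-- The type of paths. -/
def Path (lam : L → C(Q, Q)) : Type := {x : (ℕ → Option L) × (ℕ → Q) // IsPath lam x.1 x.2}

namespace Path

variable {lam : L → C(Q, Q)}

def letters (x : Path lam) : ℕ → Option L := x.1.1
def points (x : Path lam) : ℕ → Q := x.1.2

def head (x : Path lam) : Option L := x.1.1 0
def pt (x : Path lam) : Q := x.1.2 0

def tail (x : Path lam) : Path lam :=
  ⟨(fun i => x.1.1 (i + 1), fun i => x.1.2 (i + 1)), fun i => x.2 (i + 1)⟩

def cons (l : L) (x : Path lam) : Path lam :=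
  ⟨(fun i => Nat.casesOn i (some l) x.1.1, fun i => Nat.casesOn i (lam l (x.1.2 0)) x.1.2), by
    intro i
    cases i with
    | zero =>
      constructor
      · intro l' hl'
        have h : l = l' := Option.some.inj hl'
        subst h
        rfl
      · intro h
        simp at h
    | succ i => exact x.2 i⟩

def vac (lam : L → C(Q, Q)) (q : Q) : Path lam :=
  ⟨(fun _ => none, fun _ => q), fun _ => ⟨fun l h => by simp at h, fun _ => ⟨rfl, rfl⟩⟩⟩

lemma ext' {x y : Path lam} (h1 : ∀ i, x.letters i = y.letters i)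
    (h2 : ∀ i, x.points i = y.points i) : x = y :=
  Subtype.ext (Prod.ext (funext h1) (funext h2))

@[simp] lemma head_cons (l : L) (x : Path lam) : (cons l x).head = some l := rfl
@[simp] lemma tail_cons (l : L) (x : Path lam) : (cons l x).tail = x := rfl
@[simp] lemma pt_cons (l : L) (x : Path lam) : (cons l x).pt = lam l x.pt := rfl
@[simp] lemma head_vac (q : Q) : (vac lam q).head = none := rfl
@[simp] lemma pt_vac (q : Q) : (vac lam q).pt = q := rfl

lemma cons_tail {l : L} {x : Path lam} (h : x.head = some l) : cons l x.tail = x := by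
  apply ext'
  · intro i
    cases i with
    | zero => exact h.symm
    | succ i => rfl
  · intro i
    cases i with
    | zero => exact ((x.2 0).1 l h).symm
    | succ i => rfl

lemma cons_inj {l l' : L} {x y : Path lam} : cons l x = cons l' y ↔ l = l' ∧ x = y := by
  constructor
  · intro h
    refine ⟨?_, ?_⟩
    · have := congrArg head h
      simpa using this
    · have := congrArg tail h
      simpa using this
  · rintro ⟨rfl, rfl⟩; rfl

lemma cons_injective (l : L) : Function.Injective (cons (lam := lam) l) :=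
  fun x y h => (cons_inj.1 h).2

lemma head_eq_some_iff {l : L} {x : Path lam} : x.head = some l ↔ ∃ y, x = cons l y :=
  ⟨fun h => ⟨x.tail, (cons_tail h).symm⟩, by rintro ⟨y, rfl⟩; rfl⟩

lemma cons_ne_vac {l : L} {x : Path lam} {q : Q} : cons l x ≠ vac lam q := by
  intro h
  have := congrArg head h
  simp at this

/-- append a word -/
def app (α : List L) (x : Path lam) : Path lam := α.foldr cons x

@[simp] lemma app_nil (x : Path lam) : app [] x = x := rfl
@[simp] lemma app_cons (l : L) (α : List L) (x : Path lam) :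
    app (l :: α) x = cons l (app α x) := rfl

lemma app_append (α β : List L) (x : Path lam) : app (α ++ β) x = app α (app β x) := by
  simp [app, List.foldr_append]

lemma app_injective (α : List L) : Function.Injective (app (lam := lam) α) := by
  induction α with
  | nil => exact fun _ _ h => h
  | cons l α ih => exact fun x y h => ih (cons_injective l h)

end Path

/-- The composite map of a word. -/
def ev (lam : L → C(Q, Q)) : List L → C(Q, Q)
  | [] => ContinuousMap.id Q
  | l :: α => (lam l).comp (ev lam α)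

@[simp] lemma ev_nil (lam : L → C(Q, Q)) : ev lam [] = ContinuousMap.id Q := rfl
@[simp] lemma ev_cons (lam : L → C(Q, Q)) (l : L) (α : List L) :
    ev lam (l :: α) = (lam l).comp (ev lam α) := rfl

lemma ev_append (lam : L → C(Q, Q)) (α β : List L) :
    ev lam (α ++ β) = (ev lam α).comp (ev lam β) := by
  induction α with
  | nil => rfl
  | cons l α ih => simp [ih, ContinuousMap.comp_assoc]

lemma Path.pt_app {lam : L → C(Q, Q)} (α : List L) (x : Path lam) :
    (Path.app α x).pt = ev lam α x.pt := by
  induction α with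
  | nil => rfl
  | cons l α ih => simp [ih]

section Ops

variable {lam : L → C(Q, Q)}

/-- remove the last letter if it is `l` -/
def Sop (lam : L → C(Q, Q)) (l : L) : H (Path lam) →L[ℂ] H (Path lam) :=
  comapOp (Path.cons l) (Path.cons_injective l)

/-- append the letter `l` -/
def Top (lam : L → C(Q, Q)) (l : L) : H (Path lam) →L[ℂ] H (Path lam) :=
  star (Sop lam l)

lemma star_Top (l : L) : star (Top lam l) = Sop lam l := star_star _

lemma Sop_apply (l : L) (v : H (Path lam)) (ξ : Path lam) :
    Sop lam l v ξ = v (Path.cons l ξ) := rfl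

lemma Sop_norm (l : L) : ‖Sop lam l‖ ≤ 1 := comapOp_norm _ _

lemma star_norm (a : H (Path lam) →L[ℂ] H (Path lam)) : ‖star a‖ = ‖a‖ := by
  rw [ContinuousLinearMap.star_eq_adjoint, LinearIsometryEquiv.norm_map]

lemma Top_norm (l : L) : ‖Top lam l‖ ≤ 1 := by
  rw [Top, star_norm]; exact Sop_norm l

lemma Sop_bv_cons (l : L) (ξ : Path lam) : Sop lam l (bv (Path.cons l ξ)) = bv ξ := by
  classical
  apply H.ext
  intro η
  rw [Sop_apply, bv_apply, bv_apply]
  simp [Path.cons_inj]

open Classical in
lemma Sop_bv (l : L) (ξ : Path lam) :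
    Sop lam l (bv ξ) = if ξ.head = some l then bv ξ.tail else 0 := by
  split_ifs with h
  · conv_lhs => rw [← Path.cons_tail h]
    exact Sop_bv_cons l _
  · apply H.ext
    intro η
    rw [Sop_apply, bv_apply]
    rw [if_neg]
    · rfl
    · intro h'
      exact h (by rw [← h']; rfl)

open Classical in
lemma Top_apply (l : L) (v : H (Path lam)) (ξ : Path lam) :
    Top lam l v ξ = if ξ.head = some l then v ξ.tail else 0 := by
  rw [← inner_bv_left, Top, ContinuousLinearMap.star_eq_adjoint,
    ContinuousLinearMap.adjoint_inner_right, Sop_bv]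
  split_ifs with h
  · rw [inner_bv_left]
  · simp

lemma Top_bv (l : L) (ξ : Path lam) : Top lam l (bv ξ) = bv (Path.cons l ξ) := by
  classical
  apply H.ext
  intro η
  rw [Top_apply, bv_apply, bv_apply]
  split_ifs with h1 h2 h3 h4
  · rfl
  · exact absurd (by rw [← Path.cons_tail h1, h2]) h3
  · exact absurd (by rw [h4]; rfl) h2
  · rfl
  · exact absurd (by rw [‹η = _›]; rfl) h1
  · rfl

open Classical in
lemma Sop_mul_Top (l l' : L) :
    Sop lam l * Top lam l' = if l = l' then 1 else 0 := by
  apply op_ext_bv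
  intro ξ
  rw [ContinuousLinearMap.mul_apply, Top_bv, Sop_bv]
  simp only [Path.head_cons, Option.some.injEq, Path.tail_cons]
  split_ifs with h1 h2 h2
  · rfl
  · exact absurd h1.symm h2
  · exact absurd h2.symm h1
  · rfl

/-- multiplication by a function of the end point -/
def Mop (lam : L → C(Q, Q)) (f : C(Q, ℂ)) : H (Path lam) →L[ℂ] H (Path lam) :=
  diagOp (fun ξ => f ξ.pt)

variable [CompactSpace Q]

lemma Mop_apply (f : C(Q, ℂ)) (v : H (Path lam)) (ξ : Path lam) :
    Mop lam f v ξ = f ξ.pt * v ξ :=
  diagOp_apply (C := ‖f‖) (fun ξ => f.norm_coe_le_norm _) v ξ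

lemma Mop_norm (f : C(Q, ℂ)) : ‖Mop lam f‖ ≤ ‖f‖ :=
  diagOp_norm (norm_nonneg _) (fun ξ => f.norm_coe_le_norm _)

lemma Mop_bv (f : C(Q, ℂ)) (ξ : Path lam) : Mop lam f (bv ξ) = f ξ.pt • bv ξ := by
  classical
  apply H.ext
  intro η
  rw [Mop_apply, lp.coeFn_smul, Pi.smul_apply, bv_apply]
  split_ifs with h
  · rw [h]; simp
  · simp

lemma Mop_mul (f g : C(Q, ℂ)) : Mop lam (f * g) = Mop lam f * Mop lam g := by
  apply op_ext
  intro v ξ
  rw [ContinuousLinearMap.mul_apply, Mop_apply, Mop_apply, Mop_apply, ContinuousMap.mul_apply,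
    mul_assoc]

lemma Mop_add (f g : C(Q, ℂ)) : Mop lam (f + g) = Mop lam f + Mop lam g := by
  apply op_ext
  intro v ξ
  rw [ContinuousLinearMap.add_apply, Mop_apply, lp.coeFn_add, Pi.add_apply, Mop_apply, Mop_apply,
    ContinuousMap.add_apply, add_mul]

lemma Mop_smul (c : ℂ) (f : C(Q, ℂ)) : Mop lam (c • f) = c • Mop lam f := by
  apply op_ext
  intro v ξ
  rw [ContinuousLinearMap.smul_apply, Mop_apply, lp.coeFn_smul, Pi.smul_apply, Mop_apply,
    ContinuousMap.smul_apply, smul_mul_assoc]

lemma Mop_zero : Mop lam (0 : C(Q, ℂ)) = 0 := by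
  have := Mop_smul (lam := lam) 0 (0 : C(Q, ℂ))
  simpa using this

lemma Mop_one : Mop lam (1 : C(Q, ℂ)) = 1 := by
  apply op_ext
  intro v ξ
  rw [Mop_apply]
  simp

lemma Mop_sub (f g : C(Q, ℂ)) : Mop lam (f - g) = Mop lam f - Mop lam g := by
  apply op_ext
  intro v ξ
  rw [ContinuousLinearMap.sub_apply, Mop_apply, lp.coeFn_sub, Pi.sub_apply, Mop_apply, Mop_apply,
    ContinuousMap.sub_apply, sub_mul]

lemma Mop_star (f : C(Q, ℂ)) : star (Mop lam f) = Mop lam (star f) := by
  apply op_ext
  intro v ξ
  rw [← inner_bv_left, ContinuousLinearMap.star_eq_adjoint,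
    ContinuousLinearMap.adjoint_inner_right, Mop_bv, inner_smul_left, inner_bv_left, Mop_apply]
  rfl

lemma Mop_mul_Top (f : C(Q, ℂ)) (l : L) :
    Mop lam f * Top lam l = Top lam l * Mop lam (f.comp (lam l)) := by
  apply op_ext_bv
  intro ξ
  rw [ContinuousLinearMap.mul_apply, ContinuousLinearMap.mul_apply, Top_bv, Mop_bv, Mop_bv,
    map_smul, Top_bv]
  rfl

/-- the operator of a word -/
def TT (lam : L → C(Q, Q)) : List L → (H (Path lam) →L[ℂ] H (Path lam))
  | [] => 1
  | l :: α => Top lam l * TT lam α

@[simp] lemma TT_nil : TT lam [] = 1 := rfl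
@[simp] lemma TT_cons (l : L) (α : List L) : TT lam (l :: α) = Top lam l * TT lam α := rfl

lemma TT_append (α β : List L) : TT lam (α ++ β) = TT lam α * TT lam β := by
  induction α with
  | nil => simp
  | cons l α ih => simp [ih, mul_assoc]

lemma TT_bv (α : List L) (ξ : Path lam) : TT lam α (bv ξ) = bv (Path.app α ξ) := by
  induction α with
  | nil => rfl
  | cons l α ih =>
    rw [TT_cons, ContinuousLinearMap.mul_apply, ih, Top_bv]; rfl

lemma TT_norm (α : List L) : ‖TT lam α‖ ≤ 1 := by
  induction α with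
  | nil => exact ContinuousLinearMap.norm_id_le
  | cons l α ih =>
    rw [TT_cons]
    calc ‖Top lam l * TT lam α‖ ≤ ‖Top lam l‖ * ‖TT lam α‖ := norm_mul_le _ _
      _ ≤ 1 * 1 := by
        have := Top_norm (lam := lam) l
        gcongr
      _ = 1 := one_mul 1

lemma star_TT_apply (α : List L) (v : H (Path lam)) (ξ : Path lam) :
    star (TT lam α) v ξ = v (Path.app α ξ) := by
  rw [← inner_bv_left, ContinuousLinearMap.star_eq_adjoint,
    ContinuousLinearMap.adjoint_inner_right, TT_bv, inner_bv_left]

lemma star_TT_mul_TT_self (α : List L) : star (TT lam α) * TT lam α = 1 := by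
  apply op_ext_bv
  intro ξ
  apply H.ext
  intro η
  classical
  rw [ContinuousLinearMap.mul_apply, star_TT_apply, TT_bv, ContinuousLinearMap.one_apply,
    bv_apply, bv_apply]
  simp [(Path.app_injective α).eq_iff]

/-- `T_β^* T_α` is `0`, a `T` or a `T^*`. -/
lemma star_TT_mul_TT (β α : List L) :
    (∃ δ, α = β ++ δ ∧ star (TT lam β) * TT lam α = TT lam δ) ∨
    (∃ δ, β = α ++ δ ∧ star (TT lam β) * TT lam α = star (TT lam δ)) ∨
    star (TT lam β) * TT lam α = 0 := by
  classical
  induction β generalizing α with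
  | nil => left; exact ⟨α, rfl, by simp⟩
  | cons b β ih =>
    cases α with
    | nil => right; left; exact ⟨b :: β, rfl, by simp⟩
    | cons a α =>
      have key : star (TT lam (b :: β)) * TT lam (a :: α)
          = if b = a then star (TT lam β) * TT lam α else 0 := by
        rw [TT_cons, TT_cons, star_mul, star_Top, mul_assoc, ← mul_assoc (Sop lam b),
          Sop_mul_Top]
        split_ifs <;> simp
      rw [key]
      split_ifs with h
      · subst h
        rcases ih α with ⟨δ, h1, h2⟩ | ⟨δ, h1, h2⟩ | h2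
        · left; exact ⟨δ, by rw [h1]; rfl, h2⟩
        · right; left; exact ⟨δ, by rw [h1]; rfl, h2⟩
        · right; right; exact h2
      · right; right; rfl

lemma Mop_mul_TT (f : C(Q, ℂ)) (α : List L) :
    Mop lam f * TT lam α = TT lam α * Mop lam (f.comp (ev lam α)) := by
  induction α generalizing f with
  | nil => simp
  | cons l α ih =>
    rw [TT_cons, ← mul_assoc, Mop_mul_Top, mul_assoc, ih, mul_assoc]
    rfl

lemma star_TT_mul_Mop (f : C(Q, ℂ)) (α : List L) :
    star (TT lam α) * Mop lam f = Mop lam (f.comp (ev lam α)) * star (TT lam α) := by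
  have h := congrArg star (Mop_mul_TT (lam := lam) (star f) α)
  rw [star_mul, star_mul, Mop_star, Mop_star, star_star] at h
  rw [h]
  have h2 : star ((star f).comp (ev lam α)) = f.comp (ev lam α) := by
    ext x
    simp
  rw [h2]

/-- the monomials `T_α f T_β^*` -/
def Eop (lam : L → C(Q, Q)) (α : List L) (f : C(Q, ℂ)) (β : List L) :
    H (Path lam) →L[ℂ] H (Path lam) :=
  TT lam α * Mop lam f * star (TT lam β)

lemma Eop_norm (α : List L) (f : C(Q, ℂ)) (β : List L) : ‖Eop lam α f β‖ ≤ ‖f‖ := by
  unfold Eop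
  calc ‖TT lam α * Mop lam f * star (TT lam β)‖
      ≤ ‖TT lam α * Mop lam f‖ * ‖star (TT lam β)‖ := norm_mul_le _ _
    _ ≤ (‖TT lam α‖ * ‖Mop lam f‖) * ‖star (TT lam β)‖ := by
        gcongr
        exact norm_mul_le _ _
    _ ≤ (1 * ‖f‖) * 1 := by
        rw [star_norm]
        have h1 := TT_norm (lam := lam) α
        have h2 := TT_norm (lam := lam) β
        have h3 := Mop_norm (lam := lam) f
        gcongr
    _ = ‖f‖ := by ring

lemma Eop_star (α : List L) (f : C(Q, ℂ)) (β : List L) :
    star (Eop lam α f β) = Eop lam β (star f) α := by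
  unfold Eop
  rw [star_mul, star_mul, star_star, Mop_star, mul_assoc]

lemma Eop_add (α : List L) (f g : C(Q, ℂ)) (β : List L) :
    Eop lam α (f + g) β = Eop lam α f β + Eop lam α g β := by
  unfold Eop; rw [Mop_add, mul_add, add_mul]

lemma Eop_smul (α : List L) (c : ℂ) (f : C(Q, ℂ)) (β : List L) :
    Eop lam α (c • f) β = c • Eop lam α f β := by
  unfold Eop; rw [Mop_smul, mul_smul_comm, smul_mul_assoc]

lemma Eop_zero (α β : List L) : Eop lam α 0 β = 0 := by
  unfold Eop; rw [Mop_zero]; simp

lemma Eop_apply_app (α : List L) (f : C(Q, ℂ)) (β : List L) (v : H (Path lam))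
    (η : Path lam) : Eop lam α f β v (Path.app α η) = f η.pt * v (Path.app β η) := by
  unfold Eop
  rw [ContinuousLinearMap.mul_apply, ContinuousLinearMap.mul_apply, ← star_TT_apply,
    ← ContinuousLinearMap.mul_apply, star_TT_mul_TT_self, ContinuousLinearMap.one_apply,
    Mop_apply, star_TT_apply]

end Ops

end

end Dini
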