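import Pool.Agent.Dini.Approx

/-!
# The approximation `Psi ∘ Phi`, part 2
-/

open scoped ENNReal InnerProductSpace ComplexConjugate
open ContinuousLinearMap

namespace Dini

noncomputable section

variable {Q L : Type} [TopologicalSpace Q] [CompactSpace Q] {S : Data Q L}

lemma hasSum_inner_Mop (f : C(Q, ℂ)) (u v : H (Path S.lam)) :
    HasSum (fun η => conj (u η) * (f η.pt * v η)) ⟪u, Mop S.lam f v⟫_ℂ := by
  have h := lp.hasSum_inner (𝕜 := ℂ) u (Mop S.lam f v)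
  have h2 : (fun i => ⟪u i, (Mop S.lam f v) i⟫_ℂ) = fun η => conj (u η) * (f η.pt * v η) := by
    funext η
    rw [Mop_apply, RCLike.inner_apply]
    ring
  rwa [h2] at h

lemma bilin_bound {ι : Type} (W : Finset ι) (x : ι → ι → C(Q, ℂ)) (C : ℝ) (hC : 0 ≤ C)
    (hx : ∀ q, ∀ a b : ι → ℂ, ‖∑ α ∈ W, ∑ β ∈ W, conj (a α) * (x α β q * b β)‖ ≤
      C * (√(∑ α ∈ W, ‖a α‖ ^ 2) * √(∑ β ∈ W, ‖b β‖ ^ 2))) (U V : ι → H (Path S.lam)) :
    ‖∑ α ∈ W, ∑ β ∈ W, ⟪U α, Mop S.lam (x α β) (V β)⟫_ℂ‖ ≤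
      C * (√(∑ α ∈ W, ‖U α‖ ^ 2) * √(∑ β ∈ W, ‖V β‖ ^ 2)) := by
  have hs : HasSum (fun η : Path S.lam => ∑ α ∈ W, ∑ β ∈ W,
      conj (U α η) * (x α β η.pt * V β η))
      (∑ α ∈ W, ∑ β ∈ W, ⟪U α, Mop S.lam (x α β) (V β)⟫_ℂ) :=
    hasSum_sum fun α _ => hasSum_sum fun β _ => hasSum_inner_Mop _ _ _
  refine le_of_tendsto (hs.norm) (Filter.Eventually.of_forall ?_)
  intro F
  calc ‖∑ η ∈ F, ∑ α ∈ W, ∑ β ∈ W, conj (U α η) * (x α β η.pt * V β η)‖
      ≤ ∑ η ∈ F, C * (√(∑ α ∈ W, ‖U α η‖ ^ 2) * √(∑ β ∈ W, ‖V β η‖ ^ 2)) := by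
        refine (norm_sum_le _ _).trans (Finset.sum_le_sum fun η _ => ?_)
        exact hx η.pt (fun α => U α η) (fun β => V β η)
    _ = C * ∑ η ∈ F, (√(∑ α ∈ W, ‖U α η‖ ^ 2) * √(∑ β ∈ W, ‖V β η‖ ^ 2)) := by
        rw [Finset.mul_sum]
    _ ≤ C * (√(∑ η ∈ F, (√(∑ α ∈ W, ‖U α η‖ ^ 2)) ^ 2) *
          √(∑ η ∈ F, (√(∑ β ∈ W, ‖V β η‖ ^ 2)) ^ 2)) := by
        gcongr
        exact Real.sum_mul_le_sqrt_mul_sqrt _ _ _
    _ ≤ C * (√(∑ α ∈ W, ‖U α‖ ^ 2) * √(∑ β ∈ W, ‖V β‖ ^ 2)) := by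
        have key : ∀ U : ι → H (Path S.lam),
            ∑ η ∈ F, (√(∑ α ∈ W, ‖U α η‖ ^ 2)) ^ 2 ≤ ∑ α ∈ W, ‖U α‖ ^ 2 := by
          intro U
          have h1 : ∀ η : Path S.lam, (√(∑ α ∈ W, ‖U α η‖ ^ 2)) ^ 2 = ∑ α ∈ W, ‖U α η‖ ^ 2 :=
            fun η => Real.sq_sqrt (Finset.sum_nonneg fun _ _ => by positivity)
          simp only [h1]
          rw [Finset.sum_comm]
          exact Finset.sum_le_sum fun α _ => H.sum_le (U α) F
        have h1 := key U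
        have h2 := key V
        gcongr

/-! ### Properties of the weight operators -/

lemma diagOp_star {c : Path S.lam → ℂ} {C : ℝ} (hc : ∀ ξ, ‖c ξ‖ ≤ C) :
    star (diagOp c) = diagOp (fun ξ => conj (c ξ)) := by
  classical
  have hc' : ∀ ξ, ‖conj (c ξ)‖ ≤ C := fun ξ => by rw [RCLike.norm_conj]; exact hc ξ
  apply op_ext
  intro v ξ
  have h1 : diagOp c (bv ξ) = c ξ • bv ξ := by
    apply H.ext
    intro η
    rw [diagOp_apply hc, lp.coeFn_smul, Pi.smul_apply, bv_apply]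
    split_ifs with h
    · rw [h]; simp
    · simp
  rw [diagOp_apply hc', ← inner_bv_left, ContinuousLinearMap.star_eq_adjoint,
    ContinuousLinearMap.adjoint_inner_right, h1, inner_smul_left, inner_bv_left]

lemma Dop_star (s : Finset L) {N : ℕ} (hN : 0 < N) (k : ℕ) :
    star (Dop S s N k) = Dop S s N k := by
  unfold Dop
  rw [diagOp_star (Dop_bdd s hN k)]
  simp

lemma Dop_mul_Dop (s : Finset L) {N : ℕ} (hN : 0 < N) (k k' : ℕ) :
    Dop S s N k * Dop S s N k' =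
      diagOp (fun ξ => ((dfun s N k ξ * dfun s N k' ξ : ℝ) : ℂ)) := by
  apply op_ext
  intro v ξ
  have hb : ∀ ξ : Path S.lam, ‖((dfun s N k ξ * dfun s N k' ξ : ℝ) : ℂ)‖ ≤ 1 := by
    intro ξ
    push_cast
    rw [norm_mul]
    have h1 := Dop_bdd s hN k ξ
    have h2 := Dop_bdd s hN k' ξ
    calc _ ≤ (1 : ℝ) * 1 := by gcongr
      _ = 1 := one_mul 1
  rw [ContinuousLinearMap.mul_apply, Dop_apply s hN, Dop_apply s hN, diagOp_apply hb]
  push_cast
  ring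

lemma Dop_mul_Mop (s : Finset L) {N : ℕ} (hN : 0 < N) (k : ℕ) (f : C(Q, ℂ)) :
    Dop S s N k * Mop S.lam f = Mop S.lam f * Dop S s N k := by
  apply op_ext
  intro v ξ
  rw [ContinuousLinearMap.mul_apply, ContinuousLinearMap.mul_apply, Dop_apply s hN, Mop_apply,
    Mop_apply, Dop_apply s hN]
  ring

lemma Dop_eq (s : Finset L) {N : ℕ} (hN : 0 < N) (k : ℕ) :
    Dop S s N k = ((Real.sqrt (1 - k / N) : ℝ) : ℂ) • (1 : H (Path S.lam) →L[ℂ] H (Path S.lam)) +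
      ((1 / Real.sqrt N - Real.sqrt (1 - k / N) : ℝ) : ℂ) •
        ∑ l ∈ s, Top S.lam l * star (Top S.lam l) := by
  classical
  have h := sum_Top_diag (S := S) s (fun _ => (1 : ℂ)) zero_le_one (fun _ => by simp)
  have h1 : diagOp (fun _ : Path S.lam => (1 : ℂ)) = 1 := by
    apply op_ext
    intro v ξ
    rw [diagOp_apply (C := 1) (fun _ => by simp)]
    simp
  simp only [h1, mul_one] at h
  rw [h]
  apply op_ext
  intro v ξ
  rw [Dop_apply s hN, ContinuousLinearMap.add_apply, lp.coeFn_add, Pi.add_apply,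
    ContinuousLinearMap.smul_apply, ContinuousLinearMap.smul_apply, lp.coeFn_smul,
    lp.coeFn_smul, Pi.smul_apply, Pi.smul_apply,
    diagOp_apply (shiftF_bdd zero_le_one (fun _ => by simp)), ContinuousLinearMap.one_apply]
  unfold shiftF
  by_cases hin : inS s ξ
  · rw [dfun_pos hin, if_pos hin]
    simp only [smul_eq_mul]
    push_cast
    ring
  · rw [dfun_neg hin, if_neg hin]
    simp

lemma Dop_mul_mem (s : Finset L) {N : ℕ} (hN : 0 < N) (k : ℕ) :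
    ∀ a ∈ alg S, Dop S s N k * a ∈ alg S := by
  intro a ha
  rw [Dop_eq s hN, add_mul, smul_mul_assoc, one_mul, smul_mul_assoc, Finset.sum_mul]
  refine add_mem (SMulMemClass.smul_mem _ ha) (SMulMemClass.smul_mem _ (sum_mem fun l _ => ?_))
  have h1 : Top S.lam l = TT S.lam [l] := by simp
  rw [mul_assoc, h1]
  exact TT_mul_mem _ _ (star_TT_mul_mem _ _ ha)

lemma mul_Dop_mem (s : Finset L) {N : ℕ} (hN : 0 < N) (k : ℕ) :
    ∀ a ∈ alg S, a * Dop S s N k ∈ alg S := by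
  have := mul_star_mem (Dop_mul_mem (S := S) s hN k)
  rwa [Dop_star s hN] at this

lemma sum_norm_sq_eq (s : Finset L) {N : ℕ} (hN : 0 < N) (u : H (Path S.lam)) :
    ∑ α ∈ wordsLt s N, ‖Dop S s N α.length (star (TT S.lam α) u)‖ ^ 2 = ‖u‖ ^ 2 := by
  have h := sum_TT_diag (S := S) s hN N 0 0
  have h2 : diagOp (fun ξ : Path S.lam => ((gfun s N N 0 0 ξ : ℝ) : ℂ)) = 1 := by
    have h3 : ∀ ξ : Path S.lam, gfun s N N 0 0 ξ = 1 := by
      intro ξ
      have hN' : (N : ℝ) ≠ 0 := by exact_mod_cast hN.ne'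
      have := gfun_bounds s hN N 0 0 (by simp) ξ
      simp only [CharP.cast_eq_zero, min_self, sub_zero, div_self hN'] at this
      exact le_antisymm this.2 this.1
    apply op_ext
    intro v ξ
    rw [diagOp_apply (C := 1) (fun ξ => by rw [h3]; simp), h3]
    simp
  rw [h2] at h
  have h4 : ⟪u, u⟫_ℂ = ∑ α ∈ wordsLt s N,
      ⟪Dop S s N α.length (star (TT S.lam α) u), Dop S s N α.length (star (TT S.lam α) u)⟫_ℂ := by
    have h5 : ⟪u, (1 : H (Path S.lam) →L[ℂ] H (Path S.lam)) u⟫_ℂ = ⟪u, u⟫_ℂ := rfl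
    rw [← h5, ← h, ContinuousLinearMap.sum_apply, inner_sum]
    apply Finset.sum_congr rfl
    intro α _
    simp only [zero_add]
    rw [← Dop_mul_Dop s hN, ContinuousLinearMap.mul_apply, ContinuousLinearMap.mul_apply,
      ContinuousLinearMap.mul_apply]
    rw [← ContinuousLinearMap.adjoint_inner_left (TT S.lam α)]
    rw [← ContinuousLinearMap.star_eq_adjoint]
    have h6 : ∀ x y : H (Path S.lam), ⟪x, Dop S s N α.length y⟫_ℂ
        = ⟪Dop S s N α.length x, y⟫_ℂ := by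
      intro x y
      rw [← ContinuousLinearMap.adjoint_inner_left, ← ContinuousLinearMap.star_eq_adjoint,
        Dop_star s hN]
    rw [h6]
  have h7 : ((‖u‖ ^ 2 : ℝ) : ℂ) = ((∑ α ∈ wordsLt s N,
      ‖Dop S s N α.length (star (TT S.lam α) u)‖ ^ 2 : ℝ) : ℂ) := by
    push_cast
    rw [inner_self_eq_norm_sq_to_K] at h4
    simp only [inner_self_eq_norm_sq_to_K] at h4
    exact h4
  exact_mod_cast h7.symm

/-- `Psi x = ∑_{α,β} T_α D x_{αβ} D T_β^*` -/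
def PsiOp (S : Data Q L) (s : Finset L) (N : ℕ) (x : List L → List L → C(Q, ℂ)) :
    H (Path S.lam) →L[ℂ] H (Path S.lam) :=
  ∑ α ∈ wordsLt s N, ∑ β ∈ wordsLt s N, TT S.lam α * Dop S s N α.length * Mop S.lam (x α β) *
    Dop S s N β.length * star (TT S.lam β)

lemma inner_PsiOp (s : Finset L) {N : ℕ} (hN : 0 < N) (x : List L → List L → C(Q, ℂ))
    (u v : H (Path S.lam)) :
    ⟪u, PsiOp S s N x v⟫_ℂ = ∑ α ∈ wordsLt s N, ∑ β ∈ wordsLt s N,
      ⟪Dop S s N α.length (star (TT S.lam α) u),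
        Mop S.lam (x α β) (Dop S s N β.length (star (TT S.lam β) v))⟫_ℂ := by
  unfold PsiOp
  rw [ContinuousLinearMap.sum_apply, inner_sum]
  apply Finset.sum_congr rfl
  intro α _
  rw [ContinuousLinearMap.sum_apply, inner_sum]
  apply Finset.sum_congr rfl
  intro β _
  simp only [ContinuousLinearMap.mul_apply]
  rw [← ContinuousLinearMap.adjoint_inner_left (TT S.lam α),
    ← ContinuousLinearMap.star_eq_adjoint,
    ← ContinuousLinearMap.adjoint_inner_left (Dop S s N α.length),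
    ← ContinuousLinearMap.star_eq_adjoint, Dop_star s hN]

lemma norm_le_of_inner {a : H (Path S.lam) →L[ℂ] H (Path S.lam)} {C : ℝ} (hC : 0 ≤ C)
    (h : ∀ u v, ‖⟪u, a v⟫_ℂ‖ ≤ C * (‖u‖ * ‖v‖)) : ‖a‖ ≤ C := by
  refine ContinuousLinearMap.opNorm_le_bound _ hC fun v => ?_
  by_cases h0 : ‖a v‖ = 0
  · rw [h0]; positivity
  have h1 := h (a v) v
  rw [inner_self_eq_norm_sq_to_K] at h1
  have h2 : ‖((‖a v‖ : ℂ)) ^ 2‖ = ‖a v‖ * ‖a v‖ := by
    rw [norm_pow, Complex.norm_real, norm_norm]; ring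
  rw [show ((RCLike.ofReal ‖a v‖ : ℂ)) = ((‖a v‖ : ℝ) : ℂ) from rfl, h2] at h1
  have h3 : 0 < ‖a v‖ := lt_of_le_of_ne (norm_nonneg _) (Ne.symm h0)
  nlinarith

lemma PsiOp_norm (s : Finset L) {N : ℕ} (hN : 0 < N) (x : List L → List L → C(Q, ℂ)) (C : ℝ)
    (hC : 0 ≤ C)
    (hx : ∀ q, ∀ a b : List L → ℂ, ‖∑ α ∈ wordsLt s N, ∑ β ∈ wordsLt s N,
      conj (a α) * (x α β q * b β)‖ ≤
      C * (√(∑ α ∈ wordsLt s N, ‖a α‖ ^ 2) * √(∑ β ∈ wordsLt s N, ‖b β‖ ^ 2))) :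
    ‖PsiOp S s N x‖ ≤ C := by
  apply norm_le_of_inner hC
  intro u v
  rw [inner_PsiOp s hN]
  refine (bilin_bound (wordsLt s N) x C hC hx _ _).trans ?_
  rw [sum_norm_sq_eq s hN, sum_norm_sq_eq s hN, Real.sqrt_sq (norm_nonneg _),
    Real.sqrt_sq (norm_nonneg _)]

lemma evec_orthonormal (q : Q) : Orthonormal ℂ (evec S q) := by
  classical
  rw [orthonormal_iff_ite]
  intro α β
  rw [inner_evec]

lemma PsiOp_coef_norm (s : Finset L) {N : ℕ} (hN : 0 < N)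
    {a : H (Path S.lam) →L[ℂ] H (Path S.lam)} (ha : a ∈ alg S) :
    ‖PsiOp S s N (coef a)‖ ≤ ‖a‖ := by
  apply PsiOp_norm s hN _ _ (norm_nonneg _)
  intro q u v
  have h1 : ∑ α ∈ wordsLt s N, ∑ β ∈ wordsLt s N, conj (u α) * (coef a α β q * v β)
      = ⟪∑ α ∈ wordsLt s N, u α • evec S q α, a (∑ β ∈ wordsLt s N, v β • evec S q β)⟫_ℂ := by
    rw [sum_inner]
    apply Finset.sum_congr rfl
    intro α _
    rw [map_sum, inner_sum]
    apply Finset.sum_congr rfl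
    intro β _
    rw [map_smul, inner_smul_left, inner_smul_right, coef_apply ha]
    ring
  have h2 : ∀ w : List L → ℂ, ‖∑ α ∈ wordsLt s N, w α • evec S q α‖
      = √(∑ α ∈ wordsLt s N, ‖w α‖ ^ 2) := by
    intro w
    rw [eq_comm, Real.sqrt_eq_iff_mul_self_eq (Finset.sum_nonneg fun _ _ => by positivity)
      (norm_nonneg _)]
    have h3 := (evec_orthonormal (S := S) q).inner_sum w w (wordsLt s N)
    rw [inner_self_eq_norm_sq_to_K] at h3
    have h4 : ((∑ α ∈ wordsLt s N, ‖w α‖ ^ 2 : ℝ) : ℂ)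
        = ((‖∑ α ∈ wordsLt s N, w α • evec S q α‖ ^ 2 : ℝ) : ℂ) := by
      push_cast
      rw [show ((‖∑ α ∈ wordsLt s N, w α • evec S q α‖ : ℝ) : ℂ)
        = RCLike.ofReal ‖∑ α ∈ wordsLt s N, w α • evec S q α‖ from rfl, h3]
      apply Finset.sum_congr rfl
      intro α _
      rw [RCLike.conj_mul]
      rfl
    have h5 := Complex.ofReal_injective h4
    rw [h5]; ring
  rw [h1]
  calc ‖⟪∑ α ∈ wordsLt s N, u α • evec S q α, a (∑ β ∈ wordsLt s N, v β • evec S q β)⟫_ℂ‖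
      ≤ ‖∑ α ∈ wordsLt s N, u α • evec S q α‖ * ‖a (∑ β ∈ wordsLt s N, v β • evec S q β)‖ :=
        norm_inner_le_norm _ _
    _ ≤ ‖∑ α ∈ wordsLt s N, u α • evec S q α‖ *
          (‖a‖ * ‖∑ β ∈ wordsLt s N, v β • evec S q β‖) := by
        gcongr
        exact a.le_opNorm _
    _ = _ := by rw [h2, h2]; ring

lemma coef_sub {a b : H (Path S.lam) →L[ℂ] H (Path S.lam)} (ha : a ∈ alg S) (hb : b ∈ alg S)
    (α β : List L) : coef (a - b) α β = coef a α β - coef b α β := by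
  ext q
  rw [coef_apply (sub_mem ha hb), ContinuousMap.sub_apply, coef_apply ha, coef_apply hb,
    ContinuousLinearMap.sub_apply, inner_sub_right]

lemma coef_add {a b : H (Path S.lam) →L[ℂ] H (Path S.lam)} (ha : a ∈ alg S) (hb : b ∈ alg S)
    (α β : List L) : coef (a + b) α β = coef a α β + coef b α β := by
  ext q
  rw [coef_apply (add_mem ha hb), ContinuousMap.add_apply, coef_apply ha, coef_apply hb,
    ContinuousLinearMap.add_apply, inner_add_right]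

lemma PsiOp_coef_sub (s : Finset L) (N : ℕ)
    {a b : H (Path S.lam) →L[ℂ] H (Path S.lam)} (ha : a ∈ alg S) (hb : b ∈ alg S) :
    PsiOp S s N (coef (a - b)) = PsiOp S s N (coef a) - PsiOp S s N (coef b) := by
  unfold PsiOp
  rw [← Finset.sum_sub_distrib]
  apply Finset.sum_congr rfl
  intro α _
  rw [← Finset.sum_sub_distrib]
  apply Finset.sum_congr rfl
  intro β _
  rw [coef_sub ha hb, Mop_sub, mul_sub, sub_mul, sub_mul]

lemma PsiOp_coef_add (s : Finset L) (N : ℕ)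
    {a b : H (Path S.lam) →L[ℂ] H (Path S.lam)} (ha : a ∈ alg S) (hb : b ∈ alg S) :
    PsiOp S s N (coef (a + b)) = PsiOp S s N (coef a) + PsiOp S s N (coef b) := by
  unfold PsiOp
  rw [← Finset.sum_add_distrib]
  apply Finset.sum_congr rfl
  intro α _
  rw [← Finset.sum_add_distrib]
  apply Finset.sum_congr rfl
  intro β _
  rw [coef_add ha hb, Mop_add, mul_add, add_mul, add_mul]

lemma PsiOp_mem (s : Finset L) {N : ℕ} (hN : 0 < N) (x : List L → List L → C(Q, ℂ))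
    (hx : ∀ α β, ∀ q ∈ S.D, x α β q = 0) : PsiOp S s N x ∈ alg S := by
  unfold PsiOp
  refine sum_mem fun α _ => sum_mem fun β _ => ?_
  apply mul_star_TT_mem
  apply mul_Dop_mem s hN
  rw [mul_assoc]
  apply TT_mul_mem
  apply Dop_mul_mem s hN
  exact Mop_mem (hx α β)

end

end Dini
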