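import Pool.Agent.Dini.Ideal
import Pool.Agent.Dini.Defs

/-!
# Irreducible representations attached to backward paths
-/

open scoped ENNReal InnerProductSpace ComplexConjugate
open ContinuousLinearMap Filter Topology

namespace Dini

noncomputable section

variable {Q L : Type} [TopologicalSpace Q] [CompactSpace Q] {S : Data Q L}

/-- a set of paths closed under adding and removing letters -/
def Inv (O : Set (Path S.lam)) : Prop := ∀ l η, Path.cons l η ∈ O ↔ η ∈ O

lemma Inv.app {O : Set (Path S.lam)} (hO : Inv O) (α : List L) (η : Path S.lam) :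
    Path.app α η ∈ O ↔ η ∈ O := by
  induction α with
  | nil => exact Iff.rfl
  | cons l α ih => rw [Path.app_cons, hO, ih]

/-- restriction to a set of paths -/
def Rop (O : Set (Path S.lam)) : H (Path S.lam) →L[ℂ] H O :=
  comapOp (Ξ := Path S.lam) (Ξ' := O) Subtype.val Subtype.val_injective

/-- extension by zero -/
def Iop (O : Set (Path S.lam)) : H O →L[ℂ] H (Path S.lam) :=
  ContinuousLinearMap.adjoint (Rop O)

lemma Rop_apply (O : Set (Path S.lam)) (v : H (Path S.lam)) (ξ : O) : Rop O v ξ = v ξ.1 := rfl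

lemma Rop_norm (O : Set (Path S.lam)) : ‖Rop O‖ ≤ 1 := comapOp_norm _ _

lemma Iop_norm (O : Set (Path S.lam)) : ‖Iop O‖ ≤ 1 := by
  unfold Iop
  rw [LinearIsometryEquiv.norm_map]
  exact Rop_norm O

lemma Rop_bv (O : Set (Path S.lam)) (ξ : O) : Rop O (bv ξ.1) = bv ξ := by
  classical
  apply H.ext
  intro η
  rw [Rop_apply, bv_apply, bv_apply]
  simp [Subtype.ext_iff]

lemma Rop_bv_of_not {O : Set (Path S.lam)} {ξ : Path S.lam} (h : ξ ∉ O) : Rop O (bv ξ) = 0 := by
  classical
  apply H.ext
  intro η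
  rw [Rop_apply, bv_apply, if_neg]
  · rfl
  · intro h'
    exact h (h' ▸ η.2)

lemma Iop_apply (O : Set (Path S.lam)) (v : H O) (ξ : O) : Iop O v ξ.1 = v ξ := by
  rw [← inner_bv_left, Iop, ContinuousLinearMap.adjoint_inner_right, Rop_bv, inner_bv_left]

lemma Iop_apply_of_not {O : Set (Path S.lam)} (v : H O) {ξ : Path S.lam} (h : ξ ∉ O) :
    Iop O v ξ = 0 := by
  rw [← inner_bv_left, Iop, ContinuousLinearMap.adjoint_inner_right, Rop_bv_of_not h,
    inner_zero_left]

lemma Iop_bv (O : Set (Path S.lam)) (ξ : O) : Iop O (bv ξ) = bv ξ.1 := by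
  classical
  apply H.ext
  intro η
  by_cases h : η ∈ O
  · rw [Iop_apply O (bv ξ) ⟨η, h⟩, bv_apply, bv_apply]
    simp [Subtype.ext_iff]
  · rw [Iop_apply_of_not _ h, bv_apply, if_neg]
    intro h'
    exact h (h' ▸ ξ.2)

lemma Iop_Rop {O : Set (Path S.lam)} {v : H (Path S.lam)} (h : ∀ ξ ∉ O, v ξ = 0) :
    Iop O (Rop O v) = v := by
  apply H.ext
  intro ξ
  by_cases hξ : ξ ∈ O
  · rw [Iop_apply O _ ⟨ξ, hξ⟩, Rop_apply]
  · rw [Iop_apply_of_not _ hξ, h ξ hξ]

lemma TT_apply_of_not (α : List L) (v : H (Path S.lam)) {ξ : Path S.lam}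
    (h : ∀ η, ξ ≠ Path.app α η) : TT S.lam α v ξ = 0 := by
  classical
  have h1 : star (TT S.lam α) (bv ξ) = 0 := by
    apply H.ext
    intro η
    rw [star_TT_apply, bv_apply, if_neg]
    · rfl
    · intro h'
      exact h η h'.symm
  rw [← inner_bv_left, ← ContinuousLinearMap.adjoint_inner_left,
    ← ContinuousLinearMap.star_eq_adjoint, h1, inner_zero_left]

lemma Eop_apply_of_not (α : List L) (f : C(Q, ℂ)) (β : List L) (v : H (Path S.lam))
    {ξ : Path S.lam} (h : ∀ η, ξ ≠ Path.app α η) : Eop S.lam α f β v ξ = 0 := by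
  unfold Eop
  rw [ContinuousLinearMap.mul_apply, ContinuousLinearMap.mul_apply]
  exact TT_apply_of_not α _ h

/-- the algebra preserves the vectors supported on an invariant set -/
lemma alg_support {O : Set (Path S.lam)} (hO : Inv O) : ∀ a ∈ alg S, ∀ v : H O,
    ∀ ξ ∉ O, a (Iop O v) ξ = 0 := by
  intro a ha v ξ hξ
  revert a
  apply alg_induction
  · have hc : Continuous (fun a : H (Path S.lam) →L[ℂ] H (Path S.lam) =>
        ⟪bv ξ, a (Iop O v)⟫_ℂ) := by fun_prop
    simp only [inner_bv_left] at hc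
    exact isClosed_eq hc continuous_const
  · intro a b ha hb
    rw [ContinuousLinearMap.add_apply, lp.coeFn_add, Pi.add_apply, ha, hb, add_zero]
  · intro α f β _
    by_cases h : ∃ η, ξ = Path.app α η
    · obtain ⟨η, rfl⟩ := h
      rw [Eop_apply_app, Iop_apply_of_not, mul_zero]
      rw [hO.app] at hξ ⊢
      exact hξ
    · push Not at h
      exact Eop_apply_of_not _ _ _ _ h

/-- the representation of the algebra on `ℓ²(O)` -/
def rep (O : Set (Path S.lam)) (hO : Inv O) : alg S →⋆ₙₐ[ℂ] (H O →L[ℂ] H O) where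
  toFun a := (Rop O).comp ((a : H (Path S.lam) →L[ℂ] H (Path S.lam)).comp (Iop O))
  map_smul' := by
    intro c a
    apply ContinuousLinearMap.ext
    intro v
    change Rop O ((c • (a : H (Path S.lam) →L[ℂ] H (Path S.lam))) (Iop O v)) =
      c • Rop O ((a : H (Path S.lam) →L[ℂ] H (Path S.lam)) (Iop O v))
    rw [ContinuousLinearMap.smul_apply, map_smul]
  map_zero' := by
    apply ContinuousLinearMap.ext
    intro v
    change Rop O ((0 : H (Path S.lam) →L[ℂ] H (Path S.lam)) (Iop O v)) = 0
    simp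
  map_add' := by
    intro a b
    apply ContinuousLinearMap.ext
    intro v
    change Rop O (((a : H (Path S.lam) →L[ℂ] H (Path S.lam)) + b) (Iop O v)) =
      Rop O ((a : H (Path S.lam) →L[ℂ] H (Path S.lam)) (Iop O v)) +
      Rop O ((b : H (Path S.lam) →L[ℂ] H (Path S.lam)) (Iop O v))
    rw [ContinuousLinearMap.add_apply, map_add]
  map_mul' := by
    intro a b
    apply ContinuousLinearMap.ext
    intro v
    change Rop O ((a : H (Path S.lam) →L[ℂ] H (Path S.lam)) ((b : H (Path S.lam) →L[ℂ]
      H (Path S.lam)) (Iop O v))) =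
      Rop O ((a : H (Path S.lam) →L[ℂ] H (Path S.lam)) (Iop O (Rop O
        ((b : H (Path S.lam) →L[ℂ] H (Path S.lam)) (Iop O v)))))
    rw [Iop_Rop (alg_support hO b.1 b.2 v)]
  map_star' := by
    intro a
    change (Rop O).comp ((star (a : H (Path S.lam) →L[ℂ] H (Path S.lam))).comp (Iop O)) =
      ContinuousLinearMap.adjoint ((Rop O).comp ((a : H (Path S.lam) →L[ℂ]
        H (Path S.lam)).comp (Iop O)))
    rw [ContinuousLinearMap.adjoint_comp, ContinuousLinearMap.adjoint_comp,
      ContinuousLinearMap.star_eq_adjoint]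
    unfold Iop
    rw [ContinuousLinearMap.adjoint_adjoint]
    rfl

lemma rep_apply (O : Set (Path S.lam)) (hO : Inv O) (a : alg S) (v : H O) :
    rep O hO a v = Rop O ((a : H (Path S.lam) →L[ℂ] H (Path S.lam)) (Iop O v)) := rfl

lemma rep_norm_le (O : Set (Path S.lam)) (hO : Inv O) (a : alg S) (v : H O) :
    ‖rep O hO a v‖ ≤ ‖(a : H (Path S.lam) →L[ℂ] H (Path S.lam))‖ * ‖v‖ := by
  rw [rep_apply]
  calc _ ≤ ‖Rop O‖ * (‖(a : H (Path S.lam) →L[ℂ] H (Path S.lam))‖ * (‖Iop O‖ * ‖v‖)) := by
        refine ((Rop O).le_opNorm _).trans ?_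
        gcongr
        refine (ContinuousLinearMap.le_opNorm _ _).trans ?_
        gcongr
        exact (Iop O).le_opNorm _
    _ ≤ 1 * (‖(a : H (Path S.lam) →L[ℂ] H (Path S.lam))‖ * (1 * ‖v‖)) := by
        have h1 := Rop_norm O
        have h2 := Iop_norm O
        gcongr
    _ = _ := by ring

/-- `rep a = 0` iff all matrix coefficients on `O` vanish. -/
lemma rep_eq_zero_iff (O : Set (Path S.lam)) (hO : Inv O) (a : alg S) :
    rep O hO a = 0 ↔ ∀ ξ ∈ O, ∀ η ∈ O,
      ⟪bv η, (a : H (Path S.lam) →L[ℂ] H (Path S.lam)) (bv ξ)⟫_ℂ = 0 := by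
  constructor
  · intro h ξ hξ η hη
    have h1 := congrArg (fun T : H O →L[ℂ] H O => T (bv ⟨ξ, hξ⟩) ⟨η, hη⟩) h
    simp only [rep_apply, Iop_bv, Rop_apply] at h1
    rw [inner_bv_left]
    exact h1
  · intro h
    apply op_ext_bv
    intro ξ
    apply H.ext
    intro η
    rw [rep_apply, Rop_apply, Iop_bv, ← inner_bv_left, h ξ.1 ξ.2 η.1 η.2]
    rfl

/-! ### Comparison with the coefficient functions -/

/-- no periodicity -/
def Aper (η : Path S.lam) : Prop := ∀ γ γ' : List L, Path.app γ η = Path.app γ' η → γ = γ'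

lemma app_eq_of_length {α μ : List L} {ζ η : Path S.lam} (hl : μ.length ≤ α.length)
    (h : Path.app α ζ = Path.app μ η) : ∃ γ, α = μ ++ γ ∧ η = Path.app γ ζ := by
  induction μ generalizing α with
  | nil => exact ⟨α, rfl, h.symm⟩
  | cons m μ ih =>
    cases α with
    | nil => simp at hl
    | cons a α =>
      rw [Path.app_cons, Path.app_cons, Path.cons_inj] at h
      obtain ⟨rfl, h2⟩ := h
      obtain ⟨γ, h3, h4⟩ := ih (by simpa using hl) h2
      exact ⟨γ, by rw [h3]; rfl, h4⟩

lemma app_eq_of_fresh {α μ : List L} {l : L} {ζ η : Path S.lam} (hl : l ∉ μ)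
    (h : Path.app α (Path.cons l ζ) = Path.app μ η) :
    ∃ γ, α = μ ++ γ ∧ η = Path.app γ (Path.cons l ζ) := by
  induction μ generalizing α with
  | nil => exact ⟨α, rfl, h.symm⟩
  | cons m μ ih =>
    cases α with
    | nil =>
      rw [Path.app_nil, Path.app_cons, Path.cons_inj] at h
      exact absurd (by simp [h.1]) hl
    | cons a α =>
      rw [Path.app_cons, Path.app_cons, Path.cons_inj] at h
      obtain ⟨rfl, h2⟩ := h
      obtain ⟨γ, h3, h4⟩ := ih (fun h => hl (by simp [h])) h2
      exact ⟨γ, by rw [h3]; rfl, h4⟩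

lemma star_TT_bv_app (ν : List L) (ξ : Path S.lam) :
    star (TT S.lam ν) (bv (Path.app ν ξ)) = bv ξ := by
  rw [← TT_bv, ← ContinuousLinearMap.mul_apply, star_TT_mul_TT_self]; rfl

lemma star_TT_bv_of_not (ν : List L) {ξ : Path S.lam} (h : ∀ η, ξ ≠ Path.app ν η) :
    star (TT S.lam ν) (bv ξ) = 0 := by
  classical
  apply H.ext
  intro η
  rw [star_TT_apply, bv_apply, if_neg]
  · rfl
  · intro h'
    exact h η h'.symm

lemma Eop_bv_app (μ : List L) (f : C(Q, ℂ)) (ν : List L) (ξ : Path S.lam) :
    Eop S.lam μ f ν (bv (Path.app ν ξ)) = f ξ.pt • bv (Path.app μ ξ) := by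
  unfold Eop
  rw [ContinuousLinearMap.mul_apply, ContinuousLinearMap.mul_apply, star_TT_bv_app, Mop_bv,
    map_smul, TT_bv]

lemma Eop_bv_of_not (μ : List L) (f : C(Q, ℂ)) (ν : List L) {ξ : Path S.lam}
    (h : ∀ η, ξ ≠ Path.app ν η) : Eop S.lam μ f ν (bv ξ) = 0 := by
  unfold Eop
  rw [ContinuousLinearMap.mul_apply, star_TT_bv_of_not _ h, map_zero]

lemma inner_bv_bv (ξ η : Path S.lam) [Decidable (ξ = η)] :
    ⟪bv ξ, bv η⟫_ℂ = if ξ = η then (1 : ℂ) else 0 := by
  classical
  rw [inner_bv_left, bv_apply]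
  split_ifs <;> rfl

lemma Eop_coef {μ ν : List L} {f : C(Q, ℂ)} (hf : ∀ q ∈ S.D, f q = 0) {α β : List L}
    {η : Path S.lam} (hη : Aper η)
    (hν : ∀ η', Path.app β η = Path.app ν η' → ∃ γ, β = ν ++ γ) :
    ⟪bv (Path.app α η), Eop S.lam μ f ν (bv (Path.app β η))⟫_ℂ =
      coef (Eop S.lam μ f ν) α β η.pt := by
  classical
  by_cases h : ∃ γ, β = ν ++ γ
  · obtain ⟨γ, rfl⟩ := h
    rw [Path.app_append, Eop_bv_app, inner_smul_right, inner_bv_bv, ← Path.app_append]
    by_cases h2 : α = μ ++ γ
    · subst h2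
      rw [if_pos rfl, coef_Eop_append hf, mul_one, Path.pt_app]
      rfl
    · rw [if_neg (fun h' => h2 (hη _ _ h')), coef_Eop_of_not hf, mul_zero]
      · rfl
      · rintro γ' ⟨h3, h4⟩
        rw [List.append_cancel_left_eq] at h4
        subst h4
        exact h2 h3
  · rw [Eop_bv_of_not, inner_zero_right, coef_Eop_of_not hf]
    · rfl
    · rintro γ ⟨_, h3⟩
      exact h ⟨γ, h3⟩
    · intro η' h'
      exact h (hν η' h')

theorem alg_coef_approx : ∀ a ∈ alg S, ∀ ε : ℝ, 0 < ε → ∃ (s0 : Finset L) (N0 : ℕ),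
    ∀ (α β : List L) (η : Path S.lam), Aper η →
      (N0 ≤ β.length ∨ ∃ l ζ, η = Path.cons l ζ ∧ l ∉ s0) →
      ‖⟪bv (Path.app α η), a (bv (Path.app β η))⟫_ℂ - coef a α β η.pt‖ < ε := by
  classical
  have key : ∀ a ∈ alg S, a ∈ alg S ∧ ∀ ε : ℝ, 0 < ε → ∃ (s0 : Finset L) (N0 : ℕ),
    ∀ (α β : List L) (η : Path S.lam), Aper η →
      (N0 ≤ β.length ∨ ∃ l ζ, η = Path.cons l ζ ∧ l ∉ s0) →
      ‖⟪bv (Path.app α η), a (bv (Path.app β η))⟫_ℂ - coef a α β η.pt‖ < ε := by
    apply alg_induction
    · rw [← isSeqClosed_iff_isClosed]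
      intro a b ha hab
      have hb : b ∈ alg S := (alg_isClosed S).mem_of_tendsto hab
        (Filter.Eventually.of_forall fun n => (ha n).1)
      refine ⟨hb, fun ε hε => ?_⟩
      have h1 := (Metric.tendsto_nhds.1 hab) (ε / 3) (by positivity)
      obtain ⟨n, hn⟩ := h1.exists
      obtain ⟨s0, N0, h⟩ := (ha n).2 (ε / 3) (by positivity)
      refine ⟨s0, N0, fun α β η hη hc => ?_⟩
      have h2 := h α β η hη hc
      have h4 : ‖b - a n‖ < ε / 3 := by rw [← dist_eq_norm, dist_comm]; exact hn
      have h3 : ⟪bv (Path.app α η), b (bv (Path.app β η))⟫_ℂ - coef b α β η.pt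
          = ⟪bv (Path.app α η), (b - a n) (bv (Path.app β η))⟫_ℂ +
            (⟪bv (Path.app α η), a n (bv (Path.app β η))⟫_ℂ - coef (a n) α β η.pt) -
            coef (b - a n) α β η.pt := by
        rw [coef_sub hb (ha n).1, ContinuousMap.sub_apply, ContinuousLinearMap.sub_apply,
          inner_sub_right]
        ring
      have h5 : ‖⟪bv (Path.app α η), (b - a n) (bv (Path.app β η))⟫_ℂ‖ ≤ ‖b - a n‖ := by
        calc _ ≤ ‖bv (Path.app α η)‖ * ‖(b - a n) (bv (Path.app β η))‖ :=
              norm_inner_le_norm _ _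
          _ ≤ 1 * (‖b - a n‖ * 1) := by
              rw [norm_bv]
              have := (b - a n).le_opNorm (bv (Path.app β η))
              rw [norm_bv] at this
              gcongr
          _ = _ := by ring
      have h6 : ‖coef (b - a n) α β η.pt‖ ≤ ‖b - a n‖ :=
        ((coef (b - a n) α β).norm_coe_le_norm _).trans (norm_coef_le (sub_mem hb (ha n).1) _ _)
      rw [h3]
      calc _ ≤ ‖⟪bv (Path.app α η), (b - a n) (bv (Path.app β η))⟫_ℂ‖ +
            ‖⟪bv (Path.app α η), a n (bv (Path.app β η))⟫_ℂ - coef (a n) α β η.pt‖ +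
            ‖coef (b - a n) α β η.pt‖ := by
              refine (norm_sub_le _ _).trans ?_
              gcongr
              exact norm_add_le _ _
        _ < ε / 3 + ε / 3 + ε / 3 := by
            gcongr
            · exact lt_of_le_of_lt h5 h4
            · exact lt_of_le_of_lt h6 h4
        _ = ε := by ring
    · rintro a b ⟨ha, ha'⟩ ⟨hb, hb'⟩
      refine ⟨add_mem ha hb, fun ε hε => ?_⟩
      obtain ⟨s1, N1, h1⟩ := ha' (ε / 2) (by positivity)
      obtain ⟨s2, N2, h2⟩ := hb' (ε / 2) (by positivity)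
      refine ⟨s1 ∪ s2, max N1 N2, fun α β η hη hc => ?_⟩
      have h3 := h1 α β η hη (by
        rcases hc with hc | ⟨l, ζ, hl, hc⟩
        · exact Or.inl ((le_max_left _ _).trans hc)
        · exact Or.inr ⟨l, ζ, hl, fun h => hc (by simp [h])⟩)
      have h4 := h2 α β η hη (by
        rcases hc with hc | ⟨l, ζ, hl, hc⟩
        · exact Or.inl ((le_max_right _ _).trans hc)
        · exact Or.inr ⟨l, ζ, hl, fun h => hc (by simp [h])⟩)
      rw [coef_add ha hb, ContinuousLinearMap.add_apply, inner_add_right,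
        ContinuousMap.add_apply]
      calc _ = ‖(⟪bv (Path.app α η), a (bv (Path.app β η))⟫_ℂ - coef a α β η.pt) +
            (⟪bv (Path.app α η), b (bv (Path.app β η))⟫_ℂ - coef b α β η.pt)‖ := by
            congr 1
            ring
        _ ≤ _ := norm_add_le _ _
        _ < ε / 2 + ε / 2 := by gcongr
        _ = ε := by ring
    · intro μ f ν hf
      refine ⟨Eop_mem hf, fun ε hε => ⟨ν.toFinset, ν.length, fun α β η hη hc => ?_⟩⟩
      rw [Eop_coef hf hη, sub_self, norm_zero]
      · exact hε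
      · intro η' h
        rcases hc with hc | ⟨l, ζ, rfl, hc⟩
        · obtain ⟨γ, h1, _⟩ := app_eq_of_length hc h
          exact ⟨γ, h1⟩
        · obtain ⟨γ, h1, _⟩ := app_eq_of_fresh (by simpa using hc) h
          exact ⟨γ, h1⟩
  exact fun a ha => (key a ha).2

/-! ### Backward paths with distinct letters -/

/-- A backward infinite path all of whose letters are distinct. -/
structure BPath (S : Data Q L) where
  w : ℕ → L
  p : ℕ → Q
  inj : Function.Injective w
  step : ∀ i, p i = S.lam (w i) (p (i + 1))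

namespace BPath

variable (ω : BPath S)

/-- the `n`-th tail as a path -/
def path (n : ℕ) : Path S.lam :=
  ⟨(fun i => some (ω.w (n + i)), fun i => ω.p (n + i)), by
    intro i
    constructor
    · intro l hl
      have h : ω.w (n + i) = l := Option.some.inj hl
      subst h
      exact ω.step (n + i)
    · intro h
      exact absurd h (by simp)⟩

lemma path_pt (n : ℕ) : (ω.path n).pt = ω.p n := rfl

lemma path_letters (n i : ℕ) : (ω.path n).letters i = some (ω.w (n + i)) := rfl

lemma path_succ (n : ℕ) : ω.path n = Path.cons (ω.w n) (ω.path (n + 1)) := by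
  apply Path.ext'
  · intro i
    cases i with
    | zero => rfl
    | succ i =>
      change some (ω.w (n + (i + 1))) = some (ω.w (n + 1 + i))
      congr 2
      omega
  · intro i
    cases i with
    | zero => exact ω.step n
    | succ i =>
      change ω.p (n + (i + 1)) = ω.p (n + 1 + i)
      congr 1
      omega

/-- the word of the letters `n, ..., n + m - 1` -/
def seg (n : ℕ) : ℕ → List L
  | 0 => []
  | m + 1 => seg n m ++ [ω.w (n + m)]

lemma seg_length (n m : ℕ) : (ω.seg n m).length = m := by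
  induction m with
  | zero => rfl
  | succ m ih => simp [seg, ih]

lemma app_seg (n m : ℕ) : Path.app (ω.seg n m) (ω.path (n + m)) = ω.path n := by
  induction m with
  | zero => rfl
  | succ m ih =>
    rw [seg, Path.app_append, Path.app_cons, Path.app_nil, ← add_assoc, ← path_succ]
    exact ih

/-- the orbit -/
def orb : Set (Path S.lam) := {ξ | ∃ (α : List L) (n : ℕ), ξ = Path.app α (ω.path n)}

lemma path_mem_orb (n : ℕ) : ω.path n ∈ ω.orb := ⟨[], n, rfl⟩

lemma orb_inv : Inv ω.orb := by
  intro l η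
  constructor
  · rintro ⟨α, n, h⟩
    cases α with
    | nil =>
      rw [Path.app_nil, path_succ, Path.cons_inj] at h
      rw [h.2]
      exact ω.path_mem_orb _
    | cons a α =>
      rw [Path.app_cons, Path.cons_inj] at h
      exact ⟨α, n, h.2⟩
  · rintro ⟨α, n, rfl⟩
    exact ⟨l :: α, n, rfl⟩

lemma letters_app_lt (β : List L) (η η' : Path S.lam) {i : ℕ} (hi : i < β.length) :
    (Path.app β η).letters i = (Path.app β η').letters i := by
  induction β generalizing i with
  | nil => simp at hi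
  | cons b β ih =>
    cases i with
    | zero => rfl
    | succ i => exact ih (by simpa using hi)

lemma letters_app_ge (β : List L) (η : Path S.lam) (i : ℕ) :
    (Path.app β η).letters (β.length + i) = η.letters i := by
  induction β with
  | nil => simp
  | cons b β ih =>
    have : (b :: β).length + i = (β.length + i) + 1 := by simp; omega
    rw [this]
    exact ih

lemma points_app_ge (β : List L) (η : Path S.lam) (i : ℕ) :
    (Path.app β η).points (β.length + i) = η.points i := by
  induction β with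
  | nil => simp
  | cons b β ih =>
    have : (b :: β).length + i = (β.length + i) + 1 := by simp; omega
    rw [this]
    exact ih

/-- equality of paths from equality of letters and of one point in every far place -/
lemma path_ext_of_far {ξ η : Path S.lam} (h : ∀ i, ξ.letters i = η.letters i) {N : ℕ}
    (hN : ∀ i, N ≤ i → ξ.points i = η.points i) (hs : ∀ i, ξ.letters i ≠ none) : ξ = η := by
  apply Path.ext' h
  have key : ∀ k i, N ≤ i + k → ξ.points i = η.points i := by
    intro k
    induction k with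
    | zero => intro i hi; exact hN i hi
    | succ k ih =>
      intro i hi
      have h1 := ih (i + 1) (by omega)
      obtain ⟨l, hl⟩ := Option.ne_none_iff_exists'.1 (hs i)
      have h2 := (ξ.2 i).1 l hl
      have h3 := (η.2 i).1 l (by rw [← hl]; exact (h i).symm)
      change ξ.1.2 i = η.1.2 i
      rw [h2, h3]
      exact congrArg _ h1
  intro i
  exact key N i (by omega)

lemma orb_letters_ne {ξ : Path S.lam} (hξ : ξ ∈ ω.orb) (i : ℕ) : ξ.letters i ≠ none := by
  obtain ⟨α, n, rfl⟩ := hξ
  induction α generalizing i with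
  | nil => rw [Path.app_nil, path_letters]; simp
  | cons a α ih =>
    cases i with
    | zero => exact Option.some_ne_none a
    | succ i => exact ih i

lemma orb_ext {ξ η : Path S.lam} (hξ : ξ ∈ ω.orb) (hη : η ∈ ω.orb)
    (h : ∀ i, ξ.letters i = η.letters i) : ξ = η := by
  have hs := ω.orb_letters_ne hξ
  obtain ⟨α, n, rfl⟩ := hξ
  obtain ⟨β, m, rfl⟩ := hη
  -- compare the letters in the place `α.length + β.length`
  have h1 := h (α.length + β.length)
  have h2 := letters_app_ge α (ω.path n) β.length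
  have h3 := letters_app_ge β (ω.path m) α.length
  rw [h2, add_comm α.length, h3, path_letters, path_letters] at h1
  have h4 := ω.inj (Option.some.inj h1)
  refine path_ext_of_far h (N := α.length + β.length) ?_ hs
  intro i hi
  obtain ⟨j, rfl⟩ : ∃ j, i = α.length + (β.length + j) := ⟨i - α.length - β.length, by omega⟩
  rw [points_app_ge]
  have : α.length + (β.length + j) = β.length + (α.length + j) := by omega
  rw [this, points_app_ge]
  change ω.p (n + (β.length + j)) = ω.p (m + (α.length + j))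
  congr 1
  omega

lemma aper_path (n : ℕ) : Aper (ω.path n) := by
  have key : ∀ (γ : List L) (n m : ℕ), Path.app γ (ω.path n) = ω.path m → m + γ.length = n := by
    intro γ n m h
    have h1 := letters_app_ge γ (ω.path n) 0
    rw [h, path_letters, path_letters] at h1
    exact ω.inj (Option.some.inj h1)
  intro γ γ' h
  induction γ generalizing γ' with
  | nil =>
    have := key γ' n n h.symm
    exact (List.length_eq_zero_iff.1 (by omega)).symm
  | cons c γ ih =>
    cases γ' with
    | nil =>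
      have := key (c :: γ) n n h
      simp at this
    | cons c' γ' =>
      rw [Path.app_cons, Path.app_cons, Path.cons_inj] at h
      rw [h.1, ih γ' h.2]

lemma aper_cons {l : L} (n : ℕ) (hl : ∀ i, ω.w i ≠ l) : Aper (Path.cons l (ω.path n)) := by
  have key : ∀ (γ : List L), Path.app γ (Path.cons l (ω.path n)) ≠ ω.path n := by
    intro γ h
    have h1 := letters_app_ge γ (Path.cons l (ω.path n)) 0
    rw [h, path_letters] at h1
    exact hl _ (Option.some.inj h1)
  intro γ γ' h
  induction γ generalizing γ' with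
  | nil =>
    cases γ' with
    | nil => rfl
    | cons c' γ' =>
      rw [Path.app_nil, Path.app_cons, Path.cons_inj] at h
      exact absurd h.2.symm (key γ')
  | cons c γ ih =>
    cases γ' with
    | nil =>
      rw [Path.app_nil, Path.app_cons, Path.cons_inj] at h
      exact absurd h.2 (key γ)
    | cons c' γ' =>
      rw [Path.app_cons, Path.app_cons, Path.cons_inj] at h
      rw [h.1, ih γ' h.2]

/-- kernel, first half -/
lemma coef_eq_zero_of_rep {a : alg S} (h : rep ω.orb ω.orb_inv a = 0) (α β : List L) (n : ℕ)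
    (q : Q) (hfresh : ∀ s : Finset L, ∃ l ∉ s, (∀ i, ω.w i ≠ l) ∧ S.lam l (ω.p n) = q) :
    coef (a : H (Path S.lam) →L[ℂ] H (Path S.lam)) α β q = 0 := by
  by_contra hne
  obtain ⟨s0, N0, h1⟩ := alg_coef_approx a.1 a.2 _ (norm_pos_iff.2 hne)
  obtain ⟨l, hl, hw, hq⟩ := hfresh s0
  have h2 := h1 α β (Path.cons l (ω.path n)) (ω.aper_cons n hw) (Or.inr ⟨l, _, rfl, hl⟩)
  rw [rep_eq_zero_iff] at h
  have hO := (ω.orb_inv l (ω.path n)).2 (ω.path_mem_orb n)
  rw [h _ ((ω.orb_inv.app β _).2 hO) _ ((ω.orb_inv.app α _).2 hO), Path.pt_cons, path_pt, hq,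
    zero_sub, norm_neg] at h2
  exact lt_irrefl _ h2

/-- kernel, second half -/
lemma rep_eq_zero_of_coef {a : alg S} (h : ∀ (α β : List L) (n : ℕ),
    coef (a : H (Path S.lam) →L[ℂ] H (Path S.lam)) α β (ω.p n) = 0) :
    rep ω.orb ω.orb_inv a = 0 := by
  rw [rep_eq_zero_iff]
  rintro ξ ⟨β, m, rfl⟩ η ⟨α, n, rfl⟩
  by_contra hne
  obtain ⟨s0, N0, h1⟩ := alg_coef_approx a.1 a.2 _ (norm_pos_iff.2 hne)
  have e1 : ω.path m = Path.app (ω.seg m (n + N0)) (ω.path (m + (n + N0))) :=
    (ω.app_seg m (n + N0)).symm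
  have e2 : ω.path n = Path.app (ω.seg n (m + N0)) (ω.path (m + (n + N0))) := by
    have := (ω.app_seg n (m + N0)).symm
    rwa [show n + (m + N0) = m + (n + N0) by omega] at this
  have h2 := h1 (α ++ ω.seg n (m + N0)) (β ++ ω.seg m (n + N0)) (ω.path (m + (n + N0)))
    (ω.aper_path _) (Or.inl (by rw [List.length_append, seg_length]; omega))
  rw [Path.app_append, Path.app_append, ← e1, ← e2, path_pt, h, sub_zero] at h2
  exact lt_irrefl _ h2

end BPath

end

end Dini
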