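import Pool.Agent.Dini.Alg

/-!
# Separability of the algebra
-/

open ContinuousLinearMap TopologicalSpace

namespace Dini

noncomputable section

variable {Q L : Type} [TopologicalSpace Q] [CompactSpace Q] {S : Data Q L}

lemma Eop_sub (α : List L) (f g : C(Q, ℂ)) (β : List L) :
    Eop S.lam α (f - g) β = Eop S.lam α f β - Eop S.lam α g β := by
  unfold Eop; rw [Mop_sub, mul_sub, sub_mul]

lemma Eop_continuous (α β : List L) : Continuous (fun f : C(Q, ℂ) => Eop S.lam α f β) := by
  rw [Metric.continuous_iff]
  intro f ε hε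
  refine ⟨ε, hε, fun g hg => ?_⟩
  rw [dist_eq_norm] at hg ⊢
  rw [← Eop_sub]
  exact (Eop_norm _ _ _).trans_lt hg

variable (S) in
theorem alg_separable [T2Space Q] [SecondCountableTopology Q] [Countable L] :
    SeparableSpace (alg S) := by
  have h1 : IsSeparable (gens S) := by
    have h2 : gens S ⊆ ⋃ p : List L × List L,
        (fun f : C(Q, ℂ) => Eop S.lam p.1 f p.2) '' Set.univ := by
      rintro a ⟨α, f, β, _, rfl⟩
      exact Set.mem_iUnion.2 ⟨(α, β), f, trivial, rfl⟩
    refine IsSeparable.mono ?_ h2
    refine IsSeparable.iUnion fun p => ?_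
    refine IsSeparable.image ?_ (Eop_continuous _ _)
    exact IsSeparable.of_separableSpace _
  have h3 : IsSeparable (Submodule.span ℂ (gens S) :
      Set (H (Path S.lam) →L[ℂ] H (Path S.lam))) := h1.span
  have h4 : IsSeparable (alg S : Set (H (Path S.lam) →L[ℂ] H (Path S.lam))) := h3.closure
  exact h4.separableSpace

end

end Dini
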