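import Mathlib

/-!
# Interface between the topological and the C*-algebraic part (MP_6e5c74_an)
-/

open Topology

namespace Dini

universe u

/-- A dynamical presentation of a topological space `X`: a compact metrizable space `Q` with a
closed set `D`, countably many continuous self maps `lam j` of `Q` preserving `D`, and a map
`proj` from `Q \ D` to `X` such that: `proj` is continuous, `proj (lam j q)` is below `proj q` in
the specialisation order, saturations of images of open sets are open, orbits are dense in the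
sets they have to be dense in, and every point of an open set `U` has a point of the image of
`proj` below it inside `U`. -/
structure Presentation (X : Type u) [TopologicalSpace X] where
  Q : Type
  [top : TopologicalSpace Q]
  [compact : CompactSpace Q]
  [t2 : T2Space Q]
  [sc : SecondCountableTopology Q]
  D : Set Q
  isClosed_D : IsClosed D
  J : Type
  [cJ : Countable J]
  lam : J → C(Q, Q)
  lam_mem : ∀ j, ∀ q ∈ D, lam j q ∈ D
  j0 : J
  lam_j0 : ∀ q, lam j0 q = q
  proj : {q : Q // q ∉ D} → X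
  cont : ∀ U : Set X, IsOpen U → IsOpen {q : Q | ∃ h : q ∉ D, proj ⟨q, h⟩ ∈ U}
  lam_spec : ∀ (j : J) (q : Q) (h : q ∉ D) (h' : lam j q ∉ D),
    proj ⟨q, h⟩ ⤳ proj ⟨lam j q, h'⟩
  open_sat : ∀ V : Set Q, IsOpen V → (∀ q ∈ V, q ∉ D) →
    IsOpen {x : X | ∃ (q : Q) (h : q ∉ D), q ∈ V ∧ x ⤳ proj ⟨q, h⟩}
  dense : ∀ V : Set Q, IsOpen V → (∀ q ∈ V, q ∉ D) → ∀ (q : Q) (h : q ∉ D),
    (∃ (q' : Q) (h' : q' ∉ D), q' ∈ V ∧ proj ⟨q, h⟩ ⤳ proj ⟨q', h'⟩) → ∃ j, lam j q ∈ V
  epi : ∀ U : Set X, IsOpen U → ∀ x ∈ U, ∃ (q : Q) (h : q ∉ D), proj ⟨q, h⟩ ∈ U ∧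
    x ⤳ proj ⟨q, h⟩

attribute [instance] Presentation.top Presentation.compact Presentation.t2 Presentation.sc
  Presentation.cJ

end Dini
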