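import Mathlib

/-!
Chains of open sets in a locally compact space (MP_6e5c74_an, topological part).
-/

open Topology Set TopologicalSpace

namespace Dini

universe u

section WB

variable {X : Type u} [TopologicalSpace X]

/-- `U` is relatively compact in `V`. -/
def WB (U V : Set X) : Prop := ∃ K, IsCompact K ∧ U ⊆ K ∧ K ⊆ V

lemma WB.subset {U V : Set X} (h : WB U V) : U ⊆ V := by
  obtain ⟨K, _, h1, h2⟩ := h
  exact h1.trans h2

lemma WB.mono {U V U' V' : Set X} (h : WB U V) (hU : U' ⊆ U) (hV : V ⊆ V') : WB U' V' := by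
  obtain ⟨K, hK, h1, h2⟩ := h
  exact ⟨K, hK, hU.trans h1, h2.trans hV⟩

lemma WB.union {U U' V : Set X} (h : WB U V) (h' : WB U' V) : WB (U ∪ U') V := by
  obtain ⟨K, hK, h1, h2⟩ := h
  obtain ⟨K', hK', h1', h2'⟩ := h'
  exact ⟨K ∪ K', hK.union hK', union_subset_union h1 h1', union_subset h2 h2'⟩

lemma WB.empty (V : Set X) : WB (∅ : Set X) V := ⟨∅, isCompact_empty, Subset.rfl, empty_subset _⟩

lemma WB.interp [LocallyCompactSpace X] {U V : Set X} (hV : IsOpen V) (h : WB U V) :
    ∃ W, IsOpen W ∧ WB U W ∧ WB W V := by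
  obtain ⟨K, hK, h1, h2⟩ := h
  obtain ⟨L, hL, h3, h4⟩ := exists_compact_between hK hV h2
  exact ⟨interior L, isOpen_interior, ⟨K, hK, h1, h3⟩, ⟨L, hL, interior_subset, h4⟩⟩

lemma WB.split [LocallyCompactSpace X] {U A B : Set X} (hA : IsOpen A) (hB : IsOpen B)
    (h : WB U (A ∪ B)) :
    ∃ A' B', IsOpen A' ∧ IsOpen B' ∧ WB A' A ∧ WB B' B ∧ U ⊆ A' ∪ B' := by
  obtain ⟨K, hK, h1, h2⟩ := h
  have key : ∃ A' B', IsOpen A' ∧ IsOpen B' ∧ WB A' A ∧ WB B' B ∧ K ⊆ A' ∪ B' := by
    refine hK.induction_on (p := fun S => ∃ A' B', IsOpen A' ∧ IsOpen B' ∧ WB A' A ∧ WB B' B ∧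
      S ⊆ A' ∪ B') ?_ ?_ ?_ ?_
    · exact ⟨∅, ∅, isOpen_empty, isOpen_empty, WB.empty _, WB.empty _, by simp⟩
    · rintro s t hst ⟨A', B', a1, a2, a3, a4, a5⟩
      exact ⟨A', B', a1, a2, a3, a4, hst.trans a5⟩
    · rintro s t ⟨A', B', a1, a2, a3, a4, a5⟩ ⟨A'', B'', b1, b2, b3, b4, b5⟩
      refine ⟨A' ∪ A'', B' ∪ B'', a1.union b1, a2.union b2, a3.union b3, a4.union b4, ?_⟩
      refine union_subset ?_ ?_
      · exact a5.trans (union_subset_union subset_union_left subset_union_left)
      · exact b5.trans (union_subset_union subset_union_right subset_union_right)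
    · intro x hx
      rcases h2 hx with hxA | hxB
      · obtain ⟨L, hL, h3, h4⟩ := exists_compact_subset hA hxA
        refine ⟨interior L, mem_nhdsWithin_of_mem_nhds (isOpen_interior.mem_nhds h3),
          interior L, ∅, isOpen_interior, isOpen_empty, ⟨L, hL, interior_subset, h4⟩,
          WB.empty _, by simp⟩
      · obtain ⟨L, hL, h3, h4⟩ := exists_compact_subset hB hxB
        refine ⟨interior L, mem_nhdsWithin_of_mem_nhds (isOpen_interior.mem_nhds h3),
          ∅, interior L, isOpen_empty, isOpen_interior, WB.empty _,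
          ⟨L, hL, interior_subset, h4⟩, by simp⟩
  obtain ⟨A', B', a1, a2, a3, a4, a5⟩ := key
  exact ⟨A', B', a1, a2, a3, a4, h1.trans a5⟩

end WB

/-- A finite decreasing chain of open sets, each relatively compact in the previous one. -/
structure Chain (X : Type u) [TopologicalSpace X] where
  u : ℕ → Set X
  isOpen : ∀ k, IsOpen (u k)
  wb : ∀ k, WB (u (k + 1)) (u k)
  fin : ∃ N, ∀ k, N ≤ k → u k = ∅

section Chain

variable {X : Type u} [TopologicalSpace X]

lemma Chain.anti (c : Chain X) {j k : ℕ} (h : j ≤ k) : c.u k ⊆ c.u j := by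
  induction k, h using Nat.le_induction with
  | base => exact Subset.rfl
  | succ k _ ih => exact (c.wb k).subset.trans ih

/-- the empty chain -/
def Chain.bot : Chain X where
  u := fun _ => ∅
  isOpen := fun _ => isOpen_empty
  wb := fun _ => WB.empty _
  fin := ⟨0, fun _ _ => rfl⟩

/-- the chain `X, ∅, ∅, ...` -/
def Chain.top : Chain X where
  u := fun k => if k = 0 then univ else ∅
  isOpen := fun k => by split_ifs <;> simp
  wb := fun k => by simpa using WB.empty _
  fin := ⟨1, fun k hk => by simp; omega⟩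

/-- the tail of a chain -/
def Chain.tail (c : Chain X) : Chain X where
  u := fun k => c.u (k + 1)
  isOpen := fun k => c.isOpen _
  wb := fun k => c.wb _
  fin := by
    obtain ⟨N, hN⟩ := c.fin
    exact ⟨N, fun k hk => hN _ (by omega)⟩

/-- put an open set in front of a chain -/
def Chain.cons (U : Set X) (hU : IsOpen U) (c : Chain X) (h : WB (c.u 0) U) : Chain X where
  u := fun k => match k with
    | 0 => U
    | k + 1 => c.u k
  isOpen := fun k => by
    cases k with
    | zero => exact hU
    | succ k => exact c.isOpen k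
  wb := fun k => by
    cases k with
    | zero => exact h
    | succ k => exact c.wb k
  fin := by
    obtain ⟨N, hN⟩ := c.fin
    refine ⟨N + 1, fun k hk => ?_⟩
    cases k with
    | zero => omega
    | succ k => exact hN _ (by omega)

/-- the splitting lemma -/
lemma Chain.exists_split [LocallyCompactSpace X] {A B : Set X} (hA : IsOpen A) (hB : IsOpen B)
    (N : ℕ) : ∀ c : Chain X, (∀ k, N ≤ k → c.u k = ∅) → ∃ a b : Chain X,
      (∀ k, c.u (k + 1) ⊆ a.u k ∪ b.u k) ∧ (∀ k, WB (a.u k) (c.u k)) ∧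
      (∀ k, WB (b.u k) (c.u k)) ∧
      (∀ k, c.u k ⊆ A ∪ B → WB (a.u k) (c.u k ∩ A) ∧ WB (b.u k) (c.u k ∩ B)) := by
  induction N with
  | zero =>
    intro c hc
    refine ⟨Chain.bot, Chain.bot, fun k => ?_, fun k => WB.empty _, fun k => WB.empty _,
      fun k _ => ⟨WB.empty _, WB.empty _⟩⟩
    rw [hc (k + 1) (Nat.zero_le _)]
    exact empty_subset _
  | succ N ih =>
    intro c hc
    obtain ⟨a, b, h1, h2, h3, h4⟩ := ih c.tail (fun k hk => hc _ (by omega))
    have h20 : WB (a.u 0) (c.u 0) := (h2 0).mono Subset.rfl (c.wb 0).subset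
    have h30 : WB (b.u 0) (c.u 0) := (h3 0).mono Subset.rfl (c.wb 0).subset
    by_cases hcAB : c.u 0 ⊆ A ∪ B
    · have hA0 : IsOpen (c.u 0 ∩ A) := (c.isOpen 0).inter hA
      have hB0 : IsOpen (c.u 0 ∩ B) := (c.isOpen 0).inter hB
      have hw : WB (c.u 1) ((c.u 0 ∩ A) ∪ (c.u 0 ∩ B)) := by
        refine (c.wb 0).mono Subset.rfl ?_
        rw [← inter_union_distrib_left]
        exact subset_inter Subset.rfl hcAB
      obtain ⟨A', B', _, _, a3, a4, a5⟩ := hw.split hA0 hB0
      have h40 := h4 0 ((c.wb 0).subset.trans hcAB)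
      have hsub : c.tail.u 0 ⊆ c.u 0 := (c.wb 0).subset
      have ha : WB (A' ∪ a.u 0) (c.u 0 ∩ A) :=
        a3.union (h40.1.mono Subset.rfl (inter_subset_inter_left _ hsub))
      have hb : WB (B' ∪ b.u 0) (c.u 0 ∩ B) :=
        a4.union (h40.2.mono Subset.rfl (inter_subset_inter_left _ hsub))
      obtain ⟨WA, wa1, wa2, wa3⟩ := ha.interp hA0
      obtain ⟨WBB, wb1, wb2, wb3⟩ := hb.interp hB0
      refine ⟨Chain.cons WA wa1 a (wa2.mono subset_union_right Subset.rfl),
        Chain.cons WBB wb1 b (wb2.mono subset_union_right Subset.rfl), ?_, ?_, ?_, ?_⟩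
      · intro k
        cases k with
        | zero =>
          exact a5.trans (union_subset_union (subset_union_left.trans wa2.subset)
            (subset_union_left.trans wb2.subset))
        | succ k => exact h1 k
      · intro k
        cases k with
        | zero => exact wa3.mono Subset.rfl inter_subset_left
        | succ k => exact h2 k
      · intro k
        cases k with
        | zero => exact wb3.mono Subset.rfl inter_subset_left
        | succ k => exact h3 k
      · intro k hk
        cases k with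
        | zero => exact ⟨wa3, wb3⟩
        | succ k => exact h4 k hk
    · obtain ⟨W, w1, w2, w3⟩ := (c.wb 0).interp (c.isOpen 0)
      refine ⟨Chain.cons W w1 a (w2.mono (h2 0).subset Subset.rfl),
        Chain.cons W w1 b (w2.mono (h3 0).subset Subset.rfl), ?_, ?_, ?_, ?_⟩
      · intro k
        cases k with
        | zero => exact w2.subset.trans subset_union_left
        | succ k => exact h1 k
      · intro k
        cases k with
        | zero => exact w3
        | succ k => exact h2 k
      · intro k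
        cases k with
        | zero => exact w3
        | succ k => exact h3 k
      · intro k hk
        cases k with
        | zero => exact absurd hk hcAB
        | succ k => exact h4 k hk

/-- doubling a chain `a` with `a k` relatively compact in `c k`: `c 0, a 0, *, a 1, *, ...` -/
lemma Chain.exists_double [LocallyCompactSpace X] (c a : Chain X)
    (h : ∀ k, WB (a.u k) (c.u k)) :
    ∃ v : Chain X, (∀ k, v.u (2 * k + 1) = a.u k) ∧ (∀ k, v.u k ⊆ c.u ((k - 1) / 2)) := by
  choose W w1 w2 w3 using fun k => (a.wb k).interp (a.isOpen k)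
  let f : ℕ → Set X := fun k => if k = 0 then c.u 0 else
    if k % 2 = 1 then a.u (k / 2) else W (k / 2 - 1)
  have f0 : f 0 = c.u 0 := by simp [f]
  have fodd : ∀ k, f (2 * k + 1) = a.u k := by
    intro k
    have e1 : (2 * k + 1) % 2 = 1 := by omega
    have e2 : (2 * k + 1) / 2 = k := by omega
    simp only [f, e1, e2]
    simp
  have feven : ∀ k, f (2 * k + 2) = W k := by
    intro k
    have e1 : ¬ (2 * k + 2) % 2 = 1 := by omega
    have e2 : (2 * k + 2) / 2 - 1 = k := by omega
    have e3 : ¬ (2 * k + 2 = 0) := by omega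
    simp only [f]
    rw [if_neg e3, if_neg e1, e2]
  refine ⟨⟨f, ?_, ?_, ?_⟩, fodd, ?_⟩
  · intro k
    simp only [f]
    split_ifs
    · exact c.isOpen 0
    · exact a.isOpen _
    · exact w1 _
  · intro k
    rcases Nat.even_or_odd' k with ⟨j, rfl | rfl⟩
    · rw [fodd]
      cases j with
      | zero => simpa [f0] using h 0
      | succ j =>
        have : 2 * (j + 1) = 2 * j + 2 := by ring
        rw [this, feven]
        exact w2 j
    · have : 2 * j + 1 + 1 = 2 * j + 2 := by ring
      rw [this, feven, fodd]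
      exact w3 j
  · obtain ⟨N, hN⟩ := a.fin
    refine ⟨2 * N + 2, fun k hk => ?_⟩
    rcases Nat.even_or_odd' k with ⟨j, rfl | rfl⟩
    · have : 2 * j = 2 * (j - 1) + 2 := by omega
      rw [this, feven]
      have h1 := (w3 (j - 1)).subset
      rw [hN (j - 1) (by omega)] at h1
      exact subset_empty_iff.1 h1
    · rw [fodd]
      exact hN j (by omega)
  · intro k
    change f k ⊆ _
    rcases Nat.even_or_odd' k with ⟨j, rfl | rfl⟩
    · cases j with
      | zero => simp [f0]
      | succ j =>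
        have : 2 * (j + 1) = 2 * j + 2 := by ring
        have e : (2 * j + 2 - 1) / 2 = j := by omega
        rw [this, feven, e]
        exact (w3 j).subset.trans (h j).subset
    · have e : (2 * j + 1 - 1) / 2 = j := by omega
      rw [fodd, e]
      exact (h j).subset

/-- the two children of a chain -/
lemma Chain.exists_child [LocallyCompactSpace X] (c : Chain X) {A B : Set X} (hA : IsOpen A)
    (hB : IsOpen B) : ∃ v : Bool → Chain X,
      (∀ k, c.u (k + 1) ⊆ (v false).u (2 * k + 1) ∪ (v true).u (2 * k + 1)) ∧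
      (∀ b k, (v b).u k ⊆ c.u ((k - 1) / 2)) ∧
      (∀ k, c.u k ⊆ A ∪ B → (v false).u (2 * k + 1) ⊆ A ∧ (v true).u (2 * k + 1) ⊆ B) := by
  obtain ⟨N, hN⟩ := c.fin
  obtain ⟨a, b, h1, h2, h3, h4⟩ := Chain.exists_split hA hB N c hN
  obtain ⟨va, va1, va2⟩ := Chain.exists_double c a h2
  obtain ⟨vb, vb1, vb2⟩ := Chain.exists_double c b h3
  refine ⟨fun t => if t then vb else va, ?_, ?_, ?_⟩
  · intro k
    simp only [Bool.false_eq_true, if_false, if_true]
    rw [va1, vb1]
    exact h1 k
  · intro t k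
    cases t
    · simpa using va2 k
    · simpa using vb2 k
  · intro k hk
    simp only [Bool.false_eq_true, if_false, if_true]
    rw [va1, vb1]
    exact ⟨(h4 k hk).1.subset.trans inter_subset_right,
      (h4 k hk).2.subset.trans inter_subset_right⟩

/-- root chains -/
lemma Chain.exists_root [LocallyCompactSpace X] {B B' : Set X} (hB : IsOpen B) :
    ∃ R : Chain X, (WB B' B → B' ⊆ R.u 2) ∧ R.u 0 ⊆ B ∧ ∀ k, 3 ≤ k → R.u k = ∅ := by
  by_cases h : WB B' B
  · obtain ⟨e1, a1, a2, a3⟩ := h.interp hB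
    obtain ⟨e2, b1, b2, b3⟩ := a2.interp a1
    refine ⟨Chain.cons B hB (Chain.cons e1 a1 (Chain.cons e2 b1 Chain.bot (WB.empty _)) b3) a3,
      fun _ => b2.subset, Subset.rfl, ?_⟩
    intro k hk
    obtain ⟨j, rfl⟩ : ∃ j, k = j + 3 := ⟨k - 3, by omega⟩
    rfl
  · exact ⟨Chain.bot, fun h' => absurd h' h, empty_subset _, fun _ _ => rfl⟩

end Chain

section Basis

variable (X : Type u) [TopologicalSpace X]

/-- a countable family of open sets interpolating the relation `WB` -/
lemma exists_family [SecondCountableTopology X] :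
    ∃ b : ℕ → Set X, (∀ n, IsOpen (b n)) ∧
      ∀ U V : Set X, IsOpen V → WB U V → ∃ n, U ⊆ b n ∧ b n ⊆ V := by
  obtain ⟨B, hBc, _, hB⟩ := exists_countable_basis X
  have hne : (insert (∅ : Set X) B).Nonempty := ⟨∅, mem_insert _ _⟩
  obtain ⟨e, he⟩ := (hBc.insert (∅ : Set X)).exists_eq_range hne
  have heo : ∀ n, IsOpen (e n) := by
    intro n
    have : e n ∈ insert (∅ : Set X) B := by rw [he]; exact mem_range_self n
    rcases this with h | h
    · rw [h]; exact isOpen_empty
    · exact hB.isOpen h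
  refine ⟨fun n => ⋃ i ∈ ((Encodable.decode (α := Finset ℕ) n).getD ∅), e i,
    fun n => isOpen_biUnion fun i _ => heo i, ?_⟩
  intro U V hV h
  obtain ⟨K, hK, h1, h2⟩ := h
  have key : ∃ F : Finset ℕ, K ⊆ ⋃ i ∈ F, e i ∧ ⋃ i ∈ F, e i ⊆ V := by
    refine hK.induction_on (p := fun S => ∃ F : Finset ℕ, S ⊆ ⋃ i ∈ F, e i ∧ ⋃ i ∈ F, e i ⊆ V)
      ?_ ?_ ?_ ?_
    · exact ⟨∅, by simp, by simp⟩
    · rintro s t hst ⟨F, a1, a2⟩
      exact ⟨F, hst.trans a1, a2⟩
    · classical
      rintro s t ⟨F, a1, a2⟩ ⟨G, b1, b2⟩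
      refine ⟨F ∪ G, ?_, ?_⟩
      · rw [Finset.set_biUnion_union]
        exact union_subset_union a1 b1
      · rw [Finset.set_biUnion_union]
        exact union_subset a2 b2
    · intro x hx
      obtain ⟨W, hW, hxW, hWV⟩ := hB.exists_subset_of_mem_open (h2 hx) hV
      have : W ∈ range e := by rw [← he]; exact mem_insert_of_mem _ hW
      obtain ⟨i, rfl⟩ := this
      refine ⟨e i, mem_nhdsWithin_of_mem_nhds ((heo i).mem_nhds hxW), {i}, by simp, by simpa⟩
  obtain ⟨F, a1, a2⟩ := key
  refine ⟨Encodable.encode F, ?_, ?_⟩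
  · simp only [Encodable.encodek, Option.getD_some]
    exact h1.trans a1
  · simp only [Encodable.encodek, Option.getD_some]
    exact a2

end Basis

end Dini
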