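import Pool.Agent.Dini.TopTree

/-!
The open sets `w s t` and the filters `F(t,c)` (MP_6e5c74_an, topological part).
-/

open Topology Set TopologicalSpace PiNat

namespace Dini

universe u

variable {X : Type u} [TopologicalSpace X] (T : ChainTree X)

namespace ChainTree

/-- the open set attached to a word and a level -/
def w (s : List Bool) (t : ℝ) : Set X :=
  {x | ∃ (r : List Bool) (k : ℕ), s <:+ r ∧ 2 ^ r.length * t + 1 < k ∧ x ∈ (T.node r).u k}

lemma isOpen_w (s : List Bool) (t : ℝ) : IsOpen (T.w s t) := by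
  have : T.w s t = ⋃ (r : List Bool) (k : ℕ) (_ : s <:+ r) (_ : 2 ^ r.length * t + 1 < k),
      (T.node r).u k := by
    ext x
    simp only [w, mem_ofPred_eq, mem_iUnion, exists_prop]
  rw [this]
  exact isOpen_iUnion fun r => isOpen_iUnion fun k => isOpen_iUnion fun _ =>
    isOpen_iUnion fun _ => (T.node r).isOpen k

lemma w_anti {s : List Bool} {t t' : ℝ} (h : t ≤ t') : T.w s t' ⊆ T.w s t := by
  rintro x ⟨r, k, h1, h2, h3⟩
  refine ⟨r, k, h1, lt_of_le_of_lt ?_ h2, h3⟩
  have : (2 : ℝ) ^ r.length * t ≤ 2 ^ r.length * t' := mul_le_mul_of_nonneg_left h (by positivity)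
  linarith

lemma w_suffix {s r : List Bool} (t : ℝ) (h : s <:+ r) : T.w r t ⊆ T.w s t := by
  rintro x ⟨r', k, h1, h2, h3⟩
  exact ⟨r', k, h.trans h1, h2, h3⟩

lemma w_right {s : List Bool} {t : ℝ} {x : X} (h : x ∈ T.w s t) :
    ∃ t', t < t' ∧ x ∈ T.w s t' := by
  obtain ⟨r, k, h1, h2, h3⟩ := h
  have hp : (0 : ℝ) < 2 ^ r.length := by positivity
  refine ⟨t + (k - (2 ^ r.length * t + 1)) / (2 * 2 ^ r.length), ?_, r, k, h1, ?_, h3⟩
  · have : 0 < (k - (2 ^ r.length * t + 1)) / (2 * 2 ^ r.length) := by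
      apply div_pos <;> linarith
    linarith
  · rw [mul_add]
    have : (2 : ℝ) ^ r.length * ((k - (2 ^ r.length * t + 1)) / (2 * 2 ^ r.length))
        = (k - (2 ^ r.length * t + 1)) / 2 := by field_simp
    rw [this]
    linarith

lemma w_split (s : List Bool) (t : ℝ) (ht : 0 ≤ t) :
    T.w s t = T.w (false :: s) t ∪ T.w (true :: s) t := by
  apply Subset.antisymm
  · rintro x ⟨r, k, h1, h2, h3⟩
    obtain ⟨p, rfl⟩ := h1
    rcases List.eq_nil_or_concat' p with rfl | ⟨p', b, rfl⟩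
    · -- r = s
      rw [List.nil_append] at h2 h3
      have hk1 : 1 < k := by
        have : (1 : ℝ) < k := by
          have : (0 : ℝ) ≤ 2 ^ s.length * t := by positivity
          linarith
        exact_mod_cast this
      obtain ⟨j, rfl⟩ : ∃ j, k = j + 1 := ⟨k - 1, by omega⟩
      have hlen : (2 : ℝ) ^ (s.length + 1) * t + 1 < ((2 * j + 1 : ℕ) : ℝ) := by
        push_cast at h2 ⊢
        rw [pow_succ]
        linarith
      rcases T.down s j h3 with h | h
      · exact Or.inl ⟨false :: s, 2 * j + 1, List.suffix_rfl, by simpa using hlen, h⟩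
      · exact Or.inr ⟨true :: s, 2 * j + 1, List.suffix_rfl, by simpa using hlen, h⟩
    · have e : p' ++ [b] ++ s = p' ++ (b :: s) := by simp
      cases b
      · exact Or.inl ⟨p' ++ [false] ++ s, k, ⟨p', by simp⟩, h2, h3⟩
      · exact Or.inr ⟨p' ++ [true] ++ s, k, ⟨p', by simp⟩, h2, h3⟩
  · exact union_subset (T.w_suffix t (List.suffix_cons _ _)) (T.w_suffix t (List.suffix_cons _ _))

lemma node_sub (s : List Bool) (p : List Bool) : ∀ (k j : ℕ), (j + 2) * 2 ^ p.length ≤ k + 2 →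
    (T.node (p ++ s)).u k ⊆ (T.node s).u j := by
  induction p with
  | nil =>
    intro k j h
    simp only [List.length_nil, pow_zero, mul_one] at h
    exact (T.node s).anti (by omega)
  | cons b p ih =>
    intro k j h
    rw [List.length_cons, pow_succ, ← mul_assoc] at h
    refine (T.up (p ++ s) b k).trans (ih _ _ ?_)
    set M := (j + 2) * 2 ^ p.length
    omega

lemma w_sub_node {s : List Bool} {t : ℝ} {j : ℕ} (h : (j : ℝ) + 2 ≤ 2 ^ s.length * t) :
    T.w s t ⊆ (T.node s).u j := by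
  rintro x ⟨r, k, h1, h2, h3⟩
  obtain ⟨p, rfl⟩ := h1
  refine T.node_sub s p k j ?_ h3
  rw [List.length_append, pow_add, mul_assoc] at h2
  have h4 : (2 : ℝ) ^ p.length * (j + 2) ≤ 2 ^ p.length * (2 ^ s.length * t) :=
    mul_le_mul_of_nonneg_left h (by positivity)
  have h5 : ((j : ℝ) + 2) * 2 ^ p.length ≤ (k : ℝ) + 2 := by linarith
  exact_mod_cast h5

lemma node_sub_w {s : List Bool} {t : ℝ} {k : ℕ} (h : 2 ^ s.length * t + 1 < k) :
    (T.node s).u k ⊆ T.w s t := fun _ hx => ⟨s, k, List.suffix_rfl, h, hx⟩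

lemma exists_pow_ge (a b : ℝ) (ha : 0 < a) (N : ℕ) : ∃ n, N ≤ n ∧ b ≤ 2 ^ n * a := by
  obtain ⟨n, hn⟩ := pow_unbounded_of_one_lt (b / a) (by norm_num : (1 : ℝ) < 2)
  refine ⟨max n N, le_max_right _ _, ?_⟩
  have h1 : (2 : ℝ) ^ n ≤ 2 ^ max n N := pow_le_pow_right₀ (by norm_num) (le_max_left _ _)
  rw [div_lt_iff₀ ha] at hn
  nlinarith

lemma w_wb {s : List Bool} {t t' : ℝ} (ht : 0 ≤ t) (h : t < t') : WB (T.w s t') (T.w s t) := by
  obtain ⟨n, hn, hn2⟩ := exists_pow_ge (t' - t) 5 (by linarith) s.length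
  obtain ⟨d, rfl⟩ := Nat.exists_eq_add_of_le hn
  clear hn
  induction d generalizing s with
  | zero =>
    rw [add_zero] at hn2
    set P : ℝ := 2 ^ s.length with hP
    have hP0 : 0 < P := by positivity
    set j := ⌊P * t + 1⌋₊ + 1 with hj
    have h1 : P * t + 1 < j := by
      rw [hj]; push_cast; exact Nat.lt_floor_add_one _
    have h2 : (j : ℝ) ≤ P * t + 2 := by
      rw [hj]; push_cast
      have := Nat.floor_le (by positivity : 0 ≤ P * t + 1)
      linarith
    have h3 : ((j + 1 : ℕ) : ℝ) + 2 ≤ 2 ^ s.length * t' := by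
      push_cast
      rw [← hP]
      nlinarith
    exact ((T.node s).wb j).mono (T.w_sub_node h3) (T.node_sub_w h1)
  | succ d ih =>
    rw [T.w_split s t' (by linarith)]
    refine WB.union ?_ ?_
    · refine (ih (s := false :: s) ?_).mono Subset.rfl (T.w_suffix t (List.suffix_cons _ _))
      rw [List.length_cons]
      have : s.length + 1 + d = s.length + (d + 1) := by ring
      rw [this]; exact hn2
    · refine (ih (s := true :: s) ?_).mono Subset.rfl (T.w_suffix t (List.suffix_cons _ _))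
      rw [List.length_cons]
      have : s.length + 1 + d = s.length + (d + 1) := by ring
      rw [this]; exact hn2

/-- the Scott open filter `F(t,c)` -/
def InF (t : ℝ) (c : ℕ → Bool) (U : Set X) : Prop :=
  ∃ (m : ℕ) (σ : ℝ), 0 ≤ σ ∧ σ < t ∧ T.w (res c m) σ ⊆ U

variable {T}

lemma res_suffix (c : ℕ → Bool) {m n : ℕ} (h : m ≤ n) : res c m <:+ res c n := by
  induction n, h using Nat.le_induction with
  | base => exact List.suffix_rfl
  | succ k _ ih => exact ih.trans (List.suffix_cons _ _)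

lemma InF.mono {t : ℝ} {c : ℕ → Bool} {U V : Set X} (h : T.InF t c U) (hUV : U ⊆ V) :
    T.InF t c V := by
  obtain ⟨m, σ, h1, h2, h3⟩ := h
  exact ⟨m, σ, h1, h2, h3.trans hUV⟩

lemma InF.mono_t {t t' : ℝ} {c : ℕ → Bool} {U : Set X} (h : T.InF t c U) (ht : t ≤ t') :
    T.InF t' c U := by
  obtain ⟨m, σ, h1, h2, h3⟩ := h
  exact ⟨m, σ, h1, h2.trans_le ht, h3⟩

lemma InF.inter {t : ℝ} {c : ℕ → Bool} {U V : Set X} (h : T.InF t c U) (h' : T.InF t c V) :
    T.InF t c (U ∩ V) := by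
  obtain ⟨m, σ, h1, h2, h3⟩ := h
  obtain ⟨m', σ', h1', h2', h3'⟩ := h'
  refine ⟨max m m', max σ σ', h1.trans (le_max_left _ _), max_lt h2 h2', subset_inter ?_ ?_⟩
  · exact ((T.w_suffix _ (res_suffix c (le_max_left m m'))).trans
      (T.w_anti (le_max_left σ σ'))).trans h3
  · exact ((T.w_suffix _ (res_suffix c (le_max_right m m'))).trans
      (T.w_anti (le_max_right σ σ'))).trans h3'

lemma InF.pos {t : ℝ} {c : ℕ → Bool} {U : Set X} (h : T.InF t c U) : 0 < t := by
  obtain ⟨m, σ, h1, h2, _⟩ := h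
  linarith

lemma inF_univ {t : ℝ} (ht : 0 < t) (c : ℕ → Bool) : T.InF t c univ :=
  ⟨0, 0, le_rfl, ht, subset_univ _⟩

lemma inF_w {t σ : ℝ} (h0 : 0 ≤ σ) (h : σ < t) (c : ℕ → Bool) (m : ℕ) :
    T.InF t c (T.w (res c m) σ) := ⟨m, σ, h0, h, Subset.rfl⟩

/-- the filter of the all-true branch is improper -/
lemma inF_true {t : ℝ} (ht : 0 < t) {c : ℕ → Bool} (hc : ∀ i, c i = true) : T.InF t c ∅ := by
  obtain ⟨n, _, hn⟩ := exists_pow_ge (t / 2) 3 (by linarith) 0
  refine ⟨n, t / 2, by linarith, by linarith, ?_⟩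
  have e : res c n = List.replicate n true := by
    clear * - hc
    induction n with
    | zero => rfl
    | succ n ih => rw [res_succ, hc, ih, List.replicate_succ]
  have h := T.w_sub_node (s := res c n) (t := t / 2) (j := 1) (by
    rw [res_length]; push_cast; linarith)
  rw [e, T.spine n] at h
  rwa [e]

/-- primeness -/
lemma InF.prime {t : ℝ} {c : ℕ → Bool} {A B : Set X} (hA : IsOpen A) (hB : IsOpen B)
    (h : T.InF t c (A ∪ B)) : T.InF t c A ∨ T.InF t c B := by
  by_cases hc : ∀ i, c i = true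
  · exact Or.inl ((inF_true h.pos hc).mono (empty_subset _))
  · push Not at hc
    obtain ⟨i, hi⟩ := hc
    obtain ⟨m, σ, h0, h1, h2⟩ := h
    set σ₁ := (2 * σ + t) / 3 with hσ₁
    set σ₂ := (σ + 2 * t) / 3 with hσ₂
    have hwb : WB (T.w (res c m) σ₁) (A ∪ B) :=
      (T.w_wb h0 (by rw [hσ₁]; linarith)).mono Subset.rfl h2
    obtain ⟨N, hN, hN2⟩ := exists_pow_ge (σ₂ - σ₁) 7 (by rw [hσ₁, hσ₂]; linarith) (max m (i + 1))
    obtain ⟨n, hn, h3, h4, h5⟩ := T.task A B _ hA hB hwb N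
    have hn2 : 7 ≤ 2 ^ n * (σ₂ - σ₁) := by
      have h6 : (2 : ℝ) ^ N ≤ 2 ^ n := pow_le_pow_right₀ (by norm_num) hn
      have h7 : 0 ≤ σ₂ - σ₁ := by rw [hσ₁, hσ₂]; linarith
      nlinarith
    set s := res c n with hs
    have hlen : s.length = n := res_length c n
    have hsm : res c m <:+ s := res_suffix c (le_trans (le_max_left _ _) (hN.trans hn))
    have hne : s ≠ List.replicate s.length true := by
      intro h
      have h6 : i < n := by
        have := le_trans (le_max_right m (i + 1)) (hN.trans hn)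
        omega
      have h7 : res c n = res (fun _ => true) n := by
        rw [← hs, h, hlen]
        clear * -
        induction n with
        | zero => rfl
        | succ n ih => rw [List.replicate_succ, ih, res_succ]
      exact hi ((res_eq_res.1 h7) h6)
    have hσ1 : 0 ≤ σ₁ := by rw [hσ₁]; linarith
    have hP0 : (0 : ℝ) < 2 ^ n := by positivity
    set k := ⌊(2 : ℝ) ^ n * σ₁ + 1⌋₊ + 1 with hk
    have hk1 : (2 : ℝ) ^ n * σ₁ + 1 < k := by
      rw [hk]; push_cast; exact Nat.lt_floor_add_one _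
    have hk2 : (k : ℝ) ≤ 2 ^ n * σ₁ + 2 := by
      rw [hk]; push_cast
      have := Nat.floor_le (by positivity : 0 ≤ (2 : ℝ) ^ n * σ₁ + 1)
      linarith
    have h6 : (T.node s).u k ⊆ T.TA s.length ∪ T.TB s.length := by
      rw [hlen]
      refine Subset.trans ?_ h3
      exact (T.node_sub_w (by rw [hlen]; exact hk1)).trans (T.w_suffix σ₁ hsm)
    obtain ⟨h7, h8⟩ := T.prime s k hne h6
    rw [hlen] at h7 h8
    have h9 : T.w (res c (n + 1)) σ₂ ⊆ (T.node (res c (n + 1))).u (2 * k + 1) := by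
      refine T.w_sub_node ?_
      rw [res_length, pow_succ]
      push_cast
      nlinarith
    rw [res_succ] at h9
    have hσ₂0 : 0 ≤ σ₂ := by rw [hσ₂]; linarith
    have hσ₂t : σ₂ < t := by rw [hσ₂]; linarith
    cases hcn : c n
    · left
      rw [hcn] at h9
      refine ⟨n + 1, σ₂, hσ₂0, hσ₂t, ?_⟩
      rw [res_succ, hcn]
      exact h9.trans (h7.trans h4)
    · right
      rw [hcn] at h9
      refine ⟨n + 1, σ₂, hσ₂0, hσ₂t, ?_⟩
      rw [res_succ, hcn]
      exact h9.trans (h8.trans h5)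

/-- the point of a proper filter -/
lemma exists_point [QuasiSober X] {t : ℝ} {c : ℕ → Bool} (ht : 0 < t) (h : ¬ T.InF t c ∅) :
    ∃ x : X, ∀ U : Set X, IsOpen U → (x ∈ U ↔ T.InF t c U) := by
  set G : Set X := ⋃₀ {V | IsOpen V ∧ ¬ T.InF t c V} with hG
  have hGo : IsOpen G := isOpen_sUnion fun V hV => hV.1
  -- compact subsets of `G` are contained in open sets not in the filter
  have hcomp : ∀ K, IsCompact K → K ⊆ G → ∃ V, IsOpen V ∧ ¬ T.InF t c V ∧ K ⊆ V := by
    intro K hK hKG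
    refine hK.induction_on (p := fun S => ∃ V, IsOpen V ∧ ¬ T.InF t c V ∧ S ⊆ V)
      ?_ ?_ ?_ ?_
    · exact ⟨∅, isOpen_empty, h, empty_subset _⟩
    · rintro s s' hss ⟨V, h1, h2, h3⟩
      exact ⟨V, h1, h2, hss.trans h3⟩
    · rintro s s' ⟨V, h1, h2, h3⟩ ⟨V', h1', h2', h3'⟩
      refine ⟨V ∪ V', h1.union h1', ?_, union_subset_union h3 h3'⟩
      intro hcon
      rcases hcon.prime h1 h1' with h4 | h4
      · exact h2 h4
      · exact h2' h4
    · intro x hx
      obtain ⟨V, ⟨h1, h2⟩, h3⟩ := hKG hx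
      exact ⟨V, mem_nhdsWithin_of_mem_nhds (h1.mem_nhds h3), V, h1, h2, Subset.rfl⟩
  have key : ∀ U, IsOpen U → ((U ∩ Gᶜ).Nonempty ↔ T.InF t c U) := by
    intro U hU
    constructor
    · rintro ⟨x, hxU, hxG⟩
      by_contra hcon
      exact hxG ⟨U, ⟨hU, hcon⟩, hxU⟩
    · intro hF
      by_contra hcon
      have hUG : U ⊆ G := by
        intro x hx
        by_contra hxG
        exact hcon ⟨x, hx, hxG⟩
      obtain ⟨m, σ, h0, h1, h2⟩ := hF
      obtain ⟨K, hK, hK1, hK2⟩ := T.w_wb (s := res c m) h0 (by linarith : σ < (σ + t) / 2)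
      obtain ⟨V, _, hV2, hV3⟩ := hcomp K hK (hK2.trans (h2.trans hUG))
      exact hV2 ⟨m, (σ + t) / 2, by linarith, by linarith, hK1.trans hV3⟩
  have hirr : IsIrreducible Gᶜ := by
    refine ⟨?_, ?_⟩
    · have := (key univ isOpen_univ).2 (inF_univ ht c)
      rwa [univ_inter] at this
    · intro U V hU hV hUG hVG
      rw [inter_comm] at hUG hVG
      have h1 := (key U hU).1 hUG
      have h2 := (key V hV).1 hVG
      have h3 := (key (U ∩ V) (hU.inter hV)).2 (h1.inter h2)
      rwa [inter_comm] at h3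
  obtain ⟨x, hx⟩ := QuasiSober.sober hirr hGo.isClosed_compl
  refine ⟨x, fun U hU => ?_⟩
  rw [← key U hU, hx.mem_open_set_iff hU, inter_comm]

end ChainTree

end Dini
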