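import Pool.Agent.Dini.TopChain

/-!
The tree of chains (MP_6e5c74_an, topological part).
-/

open Topology Set TopologicalSpace PiNat

namespace Dini

universe u

/-- A tree of chains. -/
structure ChainTree (X : Type u) [TopologicalSpace X] where
  node : List Bool → Chain X
  TA : ℕ → Set X
  TB : ℕ → Set X
  openA : ∀ n, IsOpen (TA n)
  openB : ∀ n, IsOpen (TB n)
  task : ∀ A B W : Set X, IsOpen A → IsOpen B → WB W (A ∪ B) → ∀ N, ∃ n, N ≤ n ∧
    W ⊆ TA n ∪ TB n ∧ TA n ⊆ A ∧ TB n ⊆ B
  down : ∀ s k, (node s).u (k + 1) ⊆ (node (false :: s)).u (2 * k + 1) ∪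
    (node (true :: s)).u (2 * k + 1)
  up : ∀ s b k, (node (b :: s)).u k ⊆ (node s).u ((k - 1) / 2)
  prime : ∀ s k, s ≠ List.replicate s.length true → (node s).u k ⊆ TA s.length ∪ TB s.length →
    (node (false :: s)).u (2 * k + 1) ⊆ TA s.length ∧
    (node (true :: s)).u (2 * k + 1) ⊆ TB s.length
  root : ∀ U : Set X, IsOpen U → ∀ x ∈ U, ∃ s, x ∈ (node s).u 2 ∧ (node s).u 0 ⊆ U
  spine : ∀ n, (node (List.replicate n true)).u 1 = ∅

section construct

variable {X : Type u} [TopologicalSpace X]

/-- recursive construction of the nodes -/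
noncomputable def mkNode (child : Chain X → ℕ → Bool → Chain X) (root : ℕ → Chain X) :
    List Bool → Chain X
  | [] => Chain.top
  | b :: s => if s = List.replicate s.length true then (if b then Chain.top else root s.length)
      else child (mkNode child root s) s.length b

lemma mkNode_spine (child : Chain X → ℕ → Bool → Chain X) (root : ℕ → Chain X) (n : ℕ) :
    mkNode child root (List.replicate n true) = Chain.top := by
  induction n with
  | zero => rfl
  | succ n _ =>
    rw [List.replicate_succ, mkNode]
    simp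

lemma exists_tree [SecondCountableTopology X] [LocallyCompactSpace X] :
    Nonempty (ChainTree X) := by
  obtain ⟨b, hbo, hb⟩ := exists_family X
  -- tasks: code n -> pair -> (pair of indices, repetition)
  let TA : ℕ → Set X := fun n => b (Nat.unpair (Nat.unpair n).1).1
  let TB : ℕ → Set X := fun n => b (Nat.unpair (Nat.unpair n).1).2
  choose child h1 h2 h3 using fun (c : Chain X) (n : ℕ) =>
    Chain.exists_child c (hbo (Nat.unpair (Nat.unpair n).1).1) (hbo (Nat.unpair (Nat.unpair n).1).2)
  choose root r1 r2 r3 using fun (n : ℕ) =>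
    Chain.exists_root (B := b (Nat.unpair n).1) (B' := b (Nat.unpair n).2) (hbo (Nat.unpair n).1)
  have htop : ∀ k, 1 ≤ k → (Chain.top : Chain X).u k = ∅ := by
    intro k hk
    have : k ≠ 0 := by omega
    simp [Chain.top, this]
  have htop0 : (Chain.top : Chain X).u 0 = univ := by simp [Chain.top]
  refine ⟨⟨mkNode child root, TA, TB, fun n => hbo _, fun n => hbo _, ?_, ?_, ?_, ?_, ?_, ?_⟩⟩
  · intro A B W hA hB hW N
    obtain ⟨A', B', a1, a2, a3, a4, a5⟩ := hW.split hA hB
    obtain ⟨i, hi1, hi2⟩ := hb A' A hA a3
    obtain ⟨j, hj1, hj2⟩ := hb B' B hB a4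
    refine ⟨Nat.pair (Nat.pair i j) N, Nat.right_le_pair _ _, ?_⟩
    simp only [TA, TB, Nat.unpair_pair]
    exact ⟨a5.trans (union_subset_union hi1 hj1), hi2, hj2⟩
  · intro s k
    by_cases hs : s = List.replicate s.length true
    · rw [hs, mkNode_spine, htop _ (by omega)]
      exact empty_subset _
    · rw [mkNode, mkNode, if_neg hs, if_neg hs]
      exact h1 _ _ k
  · intro s t k
    by_cases hs : s = List.replicate s.length true
    · rw [mkNode, if_pos hs]
      have e : mkNode child root s = Chain.top := by rw [hs, mkNode_spine]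
      rw [e]
      by_cases hk : k ≤ 2
      · have : (k - 1) / 2 = 0 := by omega
        rw [this, htop0]
        exact subset_univ _
      · have hk3 : 3 ≤ k := by omega
        cases t
        · simp only [Bool.false_eq_true, if_false]
          rw [r3 _ k hk3]
          exact empty_subset _
        · simp only [if_true]
          rw [htop k (by omega)]
          exact empty_subset _
    · rw [mkNode, if_neg hs]
      exact h2 _ _ t k
  · intro s k hs hk
    rw [mkNode, mkNode, if_neg hs, if_neg hs]
    exact h3 _ _ k hk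
  · intro U hU x hx
    obtain ⟨L, hL, h4, h5⟩ := exists_compact_subset hU hx
    have w0 : WB (interior L) U := ⟨L, hL, interior_subset, h5⟩
    obtain ⟨W1, v1, w1, w1'⟩ := w0.interp hU
    obtain ⟨W2, v2, w2, w2'⟩ := w1'.interp hU
    obtain ⟨j, hj1, hj2⟩ := hb _ _ v1 w1
    obtain ⟨i, hi1, hi2⟩ := hb _ _ hU w2'
    set n := Nat.pair i j with hn
    have e1 : (Nat.unpair n).1 = i := by rw [hn, Nat.unpair_pair]
    have e2 : (Nat.unpair n).2 = j := by rw [hn, Nat.unpair_pair]
    refine ⟨false :: List.replicate n true, ?_, ?_⟩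
    · rw [mkNode, List.length_replicate, if_pos rfl]
      simp only [Bool.false_eq_true, if_false]
      have h6 := r1 n (by rw [e1, e2]; exact w2.mono hj2 hi1)
      rw [e2] at h6
      exact h6 (hj1 h4)
    · rw [mkNode, List.length_replicate, if_pos rfl]
      simp only [Bool.false_eq_true, if_false]
      have h6 := r2 n
      rw [e1] at h6
      exact h6.trans hi2
  · intro n
    rw [mkNode_spine, htop 1 le_rfl]

end construct

end Dini
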