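import Pool.Agent.Dini.System
import Pool.Agent.Dini.TopFilter

/-!
Every second countable locally compact sober space has a dynamical presentation
(MP_6e5c74_an, topological part).
-/

open Topology Set TopologicalSpace PiNat

namespace Dini

universe u

section Words

lemma isOpen_res (P : List Bool → Prop) (m : ℕ) : IsOpen {c : ℕ → Bool | P (res c m)} := by
  rw [isOpen_iff_forall_mem_open]
  intro c hc
  refine ⟨cylinder c m, ?_, isOpen_cylinder _ c m, self_mem_cylinder c m⟩
  intro c' hc'
  rw [cylinder_eq_res] at hc'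
  have h : res c' m = res c m := hc'
  change P (res c' m)
  rw [h]; exact hc

lemma isClopen_res (P : List Bool → Prop) (m : ℕ) : IsClopen {c : ℕ → Bool | P (res c m)} :=
  ⟨⟨isOpen_res (fun l => ¬ P l) m⟩, isOpen_res P m⟩

/-- prepend one bit to an infinite word -/
def bcons (b : Bool) (d : ℕ → Bool) : ℕ → Bool := fun n => if n = 0 then b else d (n - 1)

lemma res_bcons (b : Bool) (d : ℕ → Bool) (n : ℕ) : res (bcons b d) (n + 1) = res d n ++ [b] := by
  induction n with
  | zero => simp [bcons]
  | succ n ih =>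
    rw [res_succ, ih, res_succ]
    simp [bcons]

/-- the infinite word starting with the finite word `s` (last bit in front) and then `d` -/
def cat : List Bool → (ℕ → Bool) → (ℕ → Bool)
  | [], d => d
  | b :: s, d => cat s (bcons b d)

lemma res_cat (s : List Bool) : ∀ (d : ℕ → Bool) (n : ℕ),
    res (cat s d) (s.length + n) = res d n ++ s := by
  induction s with
  | nil => intro d n; simp [cat]
  | cons b s ih =>
    intro d n
    have e : (b :: s).length + n = s.length + (n + 1) := by
      rw [List.length_cons]; ring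
    rw [cat, e, ih, res_bcons]
    simp

lemma res_cat_length (s : List Bool) (d : ℕ → Bool) : res (cat s d) s.length = s := by
  have := res_cat s d 0
  simpa using this

lemma continuous_bcons (b : Bool) : Continuous (bcons b) := by
  refine continuous_pi fun n => ?_
  unfold bcons
  by_cases hn : n = 0
  · simp only [hn, if_true]; exact continuous_const
  · simp only [hn, if_false]; exact continuous_apply _

lemma continuous_cat (s : List Bool) : Continuous (cat s) := by
  induction s with
  | nil => exact continuous_id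
  | cons b s ih => exact ih.comp (continuous_bcons b)

/-- an infinite word determined by its next-bit function -/
def path (next : List Bool → Bool) : ℕ → List Bool
  | 0 => []
  | n + 1 => next (path next n) :: path next n

/-- an infinite word determined by its next-bit function -/
def branch (next : List Bool → Bool) : ℕ → Bool := fun n => next (path next n)

lemma res_branch (next : List Bool → Bool) (n : ℕ) : res (branch next) n = path next n := by
  induction n with
  | zero => rfl
  | succ n ih => rw [res_succ, ih]; rfl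

end Words

variable {X : Type u} [TopologicalSpace X] (T : ChainTree X)

namespace ChainTree

variable {T}

lemma isOpen_inF (U : Set X) : IsOpen {p : ℝ × (ℕ → Bool) | T.InF p.1 p.2 U} := by
  have : {p : ℝ × (ℕ → Bool) | T.InF p.1 p.2 U} =
      ⋃ (m : ℕ) (σ : ℝ) (_ : 0 ≤ σ), {p : ℝ × (ℕ → Bool) | σ < p.1} ∩
        (Prod.snd ⁻¹' {c : ℕ → Bool | T.w (res c m) σ ⊆ U}) := by
    ext p
    simp only [InF, mem_ofPred_eq, mem_iUnion, mem_inter_iff, mem_preimage, exists_prop]
  rw [this]
  refine isOpen_iUnion fun m => isOpen_iUnion fun σ => isOpen_iUnion fun _ => ?_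
  refine (isOpen_lt continuous_const continuous_fst).inter ?_
  exact (isOpen_res (fun l => T.w l σ ⊆ U) m).preimage continuous_snd

/-- saturation property -/
lemma exists_sat {s : List Bool} {σ τ : ℝ} {x : X} (h0 : 0 ≤ σ) (hτ : σ < τ)
    (hx : x ∈ T.w s σ) : ∃ (t : ℝ) (c : ℕ → Bool), σ < t ∧ t < τ ∧ res c s.length = s ∧
      ∀ U : Set X, T.InF t c U → x ∈ U := by
  classical
  obtain ⟨t', ht', hxt'⟩ := T.w_right hx
  set t := min t' ((σ + τ) / 2) with ht
  have h1 : σ < t := lt_min ht' (by linarith)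
  have h2 : t < τ := lt_of_le_of_lt (min_le_right _ _) (by linarith)
  have hxt : x ∈ T.w s t := T.w_anti (min_le_left _ _) hxt'
  let next : List Bool → Bool := fun r => if x ∈ T.w (false :: (r ++ s)) t then false else true
  have hpath : ∀ n, x ∈ T.w (path next n ++ s) t := by
    intro n
    induction n with
    | zero => exact hxt
    | succ n ih =>
      rw [T.w_split _ _ (by linarith)] at ih
      change x ∈ T.w ((next (path next n) :: path next n) ++ s) t
      by_cases hh : x ∈ T.w (false :: (path next n ++ s)) t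
      · have : next (path next n) = false := if_pos hh
        rw [this]; exact hh
      · have : next (path next n) = true := if_neg hh
        rw [this]
        exact ih.resolve_left hh
  refine ⟨t, cat s (branch next), h1, h2, res_cat_length _ _, ?_⟩
  rintro U ⟨m, σ', h3, h4, h5⟩
  apply h5
  have h6 := hpath m
  rw [← res_branch, ← res_cat] at h6
  exact T.w_anti h4.le (T.w_suffix t (res_suffix _ (Nat.le_add_left m s.length)) h6)

/-- selection of branches -/
lemma exists_psi {r s : List Bool} {a b : ℝ} (hb : 0 ≤ b)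
    (h : ∀ c : ℕ → Bool, res c r.length = r → T.InF a c (T.w s b)) :
    ∃ ψ : (ℕ → Bool) → (ℕ → Bool), Continuous ψ ∧ ∀ c, res c r.length = r →
      res (ψ c) s.length = s ∧ ∀ n, T.InF a c (T.w (res (ψ c) n) b) := by
  classical
  let G : List Bool → Set (ℕ → Bool) := fun v => {c | T.InF a c (T.w (v ++ s) b)}
  have hGo : ∀ v, IsOpen (G v) := by
    intro v
    have h1 := isOpen_inF (T := T) (T.w (v ++ s) b)
    exact h1.preimage (Continuous.prodMk_right a)
  have hGs : ∀ v, G v ⊆ G (false :: v) ∪ G (true :: v) := by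
    intro v c hc
    have hc' : T.InF a c (T.w (v ++ s) b) := hc
    rw [T.w_split _ _ hb] at hc'
    exact hc'.prime (T.isOpen_w _ _) (T.isOpen_w _ _)
  have ex : ∀ (C : Set (ℕ → Bool)) (v : List Bool), ∃ E : Set (ℕ → Bool),
      IsClopen C → C ⊆ G v → IsClopen E ∧ E ⊆ G (false :: v) ∧ C \ E ⊆ G (true :: v) := by
    intro C v
    by_cases hC : IsClopen C ∧ C ⊆ G v
    · obtain ⟨hC1, hC2⟩ := hC
      have hcl : IsClosed (C \ G (true :: v)) := hC1.isClosed.sdiff (hGo _)
      have hsub : C \ G (true :: v) ⊆ G (false :: v) := by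
        rintro c ⟨h1, h2⟩
        exact (hGs v (hC2 h1)).resolve_right h2
      obtain ⟨E, hE1, hE2, hE3⟩ := exists_clopen_of_closed_subset_open hcl (hGo (false :: v)) hsub
      refine ⟨E, fun _ _ => ⟨hE1, hE3, ?_⟩⟩
      rintro c ⟨h1, h2⟩
      by_contra h3
      exact h2 (hE2 ⟨h1, h3⟩)
    · exact ⟨∅, fun h1 h2 => absurd ⟨h1, h2⟩ hC⟩
  choose E hE using ex
  let C0 : Set (ℕ → Bool) := {c | res c r.length = r}
  let Cl : List Bool → Set (ℕ → Bool) := fun v =>
    List.rec C0 (fun b v S => if b then S \ E S v else E S v ∩ S) v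
  have hCl0 : Cl [] = C0 := rfl
  have hClf : ∀ v, Cl (false :: v) = E (Cl v) v ∩ Cl v := fun v => rfl
  have hClt : ∀ v, Cl (true :: v) = Cl v \ E (Cl v) v := fun v => rfl
  have hinv : ∀ v, IsClopen (Cl v) ∧ Cl v ⊆ G v := by
    intro v
    induction v with
    | nil =>
      refine ⟨isClopen_res (fun l => l = r) r.length, ?_⟩
      intro c hc
      exact h c hc
    | cons b v ih =>
      obtain ⟨h1, h2, h3⟩ := hE (Cl v) v ih.1 ih.2
      cases b
      · rw [hClf]
        exact ⟨h1.inter ih.1, inter_subset_left.trans h2⟩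
      · rw [hClt]
        exact ⟨ih.1.diff h1, h3⟩
  have hEcl : ∀ v, IsClopen (E (Cl v) v) := fun v => (hE (Cl v) v (hinv v).1 (hinv v).2).1
  let next : (ℕ → Bool) → List Bool → Bool := fun c v => if c ∈ E (Cl v) v then false else true
  have hpath : ∀ c, res c r.length = r → ∀ n, c ∈ Cl (path (next c) n) := by
    intro c hc n
    induction n with
    | zero => exact hc
    | succ n ih =>
      change c ∈ Cl (next c (path (next c) n) :: path (next c) n)
      by_cases hh : c ∈ E (Cl (path (next c) n)) (path (next c) n)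
      · have : next c (path (next c) n) = false := if_pos hh
        rw [this, hClf]; exact ⟨hh, ih⟩
      · have : next c (path (next c) n) = true := if_neg hh
        rw [this, hClt]; exact ⟨ih, hh⟩
  have hloc : ∀ n, IsLocallyConstant fun c => path (next c) n := by
    intro n
    induction n with
    | zero => exact IsLocallyConstant.const _
    | succ n ih =>
      rw [IsLocallyConstant.iff_eventually_eq] at ih ⊢
      intro c
      have h1 := ih c
      set v := path (next c) n with hv
      have h2 : ∀ᶠ c' in 𝓝 c, (c' ∈ E (Cl v) v ↔ c ∈ E (Cl v) v) := by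
        by_cases hh : c ∈ E (Cl v) v
        · filter_upwards [(hEcl v).isOpen.mem_nhds hh] with c' hc'
          exact ⟨fun _ => hh, fun _ => hc'⟩
        · filter_upwards [(hEcl v).compl.isOpen.mem_nhds hh] with c' hc'
          exact ⟨fun h => absurd h hc', fun h => absurd h hh⟩
      filter_upwards [h1, h2] with c' h1' h2'
      change next c' (path (next c') n) :: path (next c') n = next c (path (next c) n) :: path (next c) n
      rw [h1', ← hv]
      congr 1
      change (if c' ∈ E (Cl v) v then false else true) = (if c ∈ E (Cl v) v then false else true)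
      simp only [h2']
  have hcont : Continuous fun c => branch (next c) := by
    refine continuous_pi fun n => ?_
    have h1 : IsLocallyConstant fun c => branch (next c) n := by
      have h2 := (hloc (n + 1)).comp (fun l => l.headD false)
      exact h2
    exact h1.continuous
  refine ⟨fun c => cat s (branch (next c)), (continuous_cat s).comp hcont, ?_⟩
  intro c hc
  refine ⟨res_cat_length _ _, fun n => ?_⟩
  have h1 : c ∈ G (path (next c) n) := (hinv _).2 (hpath c hc n)
  have h2 : T.InF a c (T.w (path (next c) n ++ s) b) := h1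
  rw [← res_branch, ← res_cat] at h2
  exact h2.mono (T.w_suffix b (res_suffix _ (Nat.le_add_left n s.length)))

/-! ### the presentation -/

variable (T)

/-- the ambient closed set -/
def S : Set (ℝ × (ℕ → Bool)) := {p | 0 ≤ p.1 ∧ p.1 ≤ 1 ∧ ¬ T.InF p.1 p.2 ∅}

lemma isClosed_S : IsClosed T.S := by
  have : T.S = {p : ℝ × (ℕ → Bool) | 0 ≤ p.1} ∩ ({p : ℝ × (ℕ → Bool) | p.1 ≤ 1} ∩
      {p : ℝ × (ℕ → Bool) | T.InF p.1 p.2 ∅}ᶜ) := rfl
  rw [this]
  exact (isClosed_le continuous_const continuous_fst).inter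
    ((isClosed_le continuous_fst continuous_const).inter (isOpen_inF ∅).isClosed_compl)

lemma isCompact_S : IsCompact T.S := by
  have h : IsCompact ((Icc (0 : ℝ) 1) ×ˢ (univ : Set (ℕ → Bool))) :=
    isCompact_Icc.prod isCompact_univ
  refine h.of_isClosed_subset T.isClosed_S ?_
  rintro p ⟨h1, h2, _⟩
  exact ⟨⟨h1, h2⟩, mem_univ _⟩

/-- the compact space -/
abbrev QS : Type := ↥T.S

/-- data of a partial map -/
structure Data where
  r : List Bool
  s : List Bool
  a : ℚ
  b : ℚ
  M : ℕ

/-- validity of the data -/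
def Valid (d : Data) : Prop := 0 ≤ (d.a : ℝ) ∧ 0 < (d.b : ℝ) ∧ (d.b : ℝ) ≤ 1 ∧
  ∀ c : ℕ → Bool, res c d.r.length = d.r → T.InF d.a c (T.w d.s d.b)

lemma countable_data : Countable Data := by
  have hinj : Function.Injective
      (fun d : Data => (d.r, d.s, d.a, d.b, d.M)) := by
    rintro ⟨r, s, a, b, M⟩ ⟨r', s', a', b', M'⟩ h
    simp only [Prod.mk.injEq] at h
    obtain ⟨h1, h2, h3, h4, h5⟩ := h
    subst h1; subst h2; subst h3; subst h4; subst h5
    rfl
  exact hinj.countable

/-- for valid data there is a good continuous self map of the closed set -/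
lemma exists_lam (d : Data) (hd : T.Valid d) : ∃ lam : C(T.QS, T.QS),
    (∀ q : T.QS, q.1.1 = 0 → (lam q).1.1 = 0) ∧
    (∀ (q : T.QS) (U : Set X), T.InF (lam q).1.1 (lam q).1.2 U → T.InF q.1.1 q.1.2 U) ∧
    (∀ q : T.QS, res q.1.2 d.r.length = d.r → (d.b : ℝ) ≤ d.M * (q.1.1 - d.a) →
      (lam q).1.1 = d.b ∧ res (lam q).1.2 d.s.length = d.s) := by
  classical
  obtain ⟨ha, hb0, hb1, hv⟩ := hd
  obtain ⟨ψ, hψc, hψ⟩ := exists_psi hb0.le hv
  let L : ℝ × (ℕ → Bool) → ℝ × (ℕ → Bool) := fun p =>
    if res p.2 d.r.length = d.r then (min (d.b : ℝ) (d.M * max (p.1 - d.a) 0), ψ p.2)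
    else (0, p.2)
  have hLc : Continuous L := by
    refine Continuous.if ?_ ?_ ?_
    · intro p hp
      have hcl : IsClopen {p : ℝ × (ℕ → Bool) | res p.2 d.r.length = d.r} :=
        (isClopen_res (fun l => l = d.r) d.r.length).preimage continuous_snd
      rw [hcl.frontier_eq] at hp
      exact absurd hp (notMem_empty _)
    · refine Continuous.prodMk ?_ (hψc.comp continuous_snd)
      fun_prop
    · exact Continuous.prodMk continuous_const continuous_snd
  have htrans : ∀ p : ℝ × (ℕ → Bool), ∀ U, T.InF (L p).1 (L p).2 U → T.InF p.1 p.2 U := by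
    intro p U hU
    by_cases hp : res p.2 d.r.length = d.r
    · have e : L p = (min (d.b : ℝ) (d.M * max (p.1 - d.a) 0), ψ p.2) := if_pos hp
      rw [e] at hU
      have hpos := hU.pos
      have h1 : 0 < (d.M : ℝ) * max (p.1 - d.a) 0 := (lt_min_iff.1 hpos).2
      have h2 : (d.a : ℝ) ≤ p.1 := by
        by_contra hcon
        push Not at hcon
        rw [max_eq_right (by linarith)] at h1
        simp at h1
      obtain ⟨n, σ, h3, h4, h5⟩ := hU
      have h6 : σ ≤ d.b := h4.le.trans (min_le_left _ _)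
      exact (((hψ p.2 hp).2 n).mono ((T.w_anti h6).trans h5)).mono_t h2
    · have e : L p = (0, p.2) := if_neg hp
      rw [e] at hU
      exact absurd hU.pos (lt_irrefl _)
  have hLS : ∀ p ∈ T.S, L p ∈ T.S := by
    intro p hp
    refine ⟨?_, ?_, fun h => hp.2.2 (htrans p ∅ h)⟩
    · by_cases hp : res p.2 d.r.length = d.r
      · have e : L p = (min (d.b : ℝ) (d.M * max (p.1 - d.a) 0), ψ p.2) := if_pos hp
        rw [e]
        exact le_min hb0.le (by positivity)
      · have e : L p = (0, p.2) := if_neg hp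
        rw [e]
    · by_cases hp : res p.2 d.r.length = d.r
      · have e : L p = (min (d.b : ℝ) (d.M * max (p.1 - d.a) 0), ψ p.2) := if_pos hp
        rw [e]
        exact (min_le_left _ _).trans hb1
      · have e : L p = (0, p.2) := if_neg hp
        rw [e]
        exact zero_le_one
  refine ⟨⟨fun q => ⟨L q.1, hLS q.1 q.2⟩, ?_⟩, ?_, ?_, ?_⟩
  · exact (hLc.comp continuous_subtype_val).subtype_mk _
  · intro q hq
    change (L q.1).1 = 0
    by_cases hp : res q.1.2 d.r.length = d.r
    · have e : L q.1 = (min (d.b : ℝ) (d.M * max (q.1.1 - d.a) 0), ψ q.1.2) := if_pos hp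
      rw [e, hq]
      simp only
      rw [max_eq_right (by linarith), mul_zero, min_eq_right hb0.le]
    · have e : L q.1 = (0, q.1.2) := if_neg hp
      rw [e]
  · intro q U hU
    exact htrans q.1 U hU
  · intro q hq hM
    have e : L q.1 = (min (d.b : ℝ) (d.M * max (q.1.1 - d.a) 0), ψ q.1.2) := if_pos hq
    change (L q.1).1 = d.b ∧ res (L q.1).2 d.s.length = d.s
    rw [e]
    refine ⟨?_, (hψ q.1.2 hq).1⟩
    simp only
    apply min_eq_left
    refine hM.trans ?_
    exact mul_le_mul_of_nonneg_left (le_max_left _ _) (Nat.cast_nonneg _)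

/-- basic neighbourhoods in the closed set -/
lemma exists_basic {V : Set T.QS} (hV : IsOpen V) {q : T.QS} (hq : q ∈ V) (hq0 : 0 < q.1.1) :
    ∃ (σ : ℝ) (m : ℕ), 0 ≤ σ ∧ σ < q.1.1 ∧ ∀ q' : T.QS, σ < q'.1.1 → q'.1.1 ≤ q.1.1 →
      res q'.1.2 m = res q.1.2 m → q' ∈ V := by
  obtain ⟨V', hV', rfl⟩ := isOpen_induced_iff.1 hV
  have h1 : V' ∈ 𝓝 q.1 := hV'.mem_nhds hq
  rw [show q.1 = (q.1.1, q.1.2) from rfl, nhds_prod_eq, Filter.mem_prod_iff] at h1
  obtain ⟨A, hA, B, hB, hAB⟩ := h1
  obtain ⟨l, hl, hlA⟩ := exists_Ioc_subset_of_mem_nhds hA ⟨0, hq0⟩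
  obtain ⟨C, ⟨x, m, rfl⟩, hxC, hCB⟩ :=
    (isTopologicalBasis_cylinders (fun _ : ℕ => Bool)).mem_nhds_iff.1 hB
  refine ⟨max l 0, m, le_max_right _ _, max_lt hl hq0, ?_⟩
  intro q' h2 h3 h4
  change q'.1 ∈ V'
  apply hAB
  refine ⟨hlA ⟨(le_max_left _ _).trans_lt h2, h3⟩, hCB ?_⟩
  rw [cylinder_eq_res] at hxC ⊢
  have h5 : res q.1.2 m = res x m := hxC
  change res q'.1.2 m = res x m
  rw [h4, h5]

end ChainTree

open ChainTree in
/-- **Every second countable locally compact sober space has a dynamical presentation.** -/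
theorem exists_presentation (X : Type u) [TopologicalSpace X] [SecondCountableTopology X]
    [LocallyCompactSpace X] [T0Space X] [QuasiSober X] : Nonempty (Presentation X) := by
  classical
  obtain ⟨T⟩ := exists_tree (X := X)
  have : CompactSpace T.QS := isCompact_iff_compactSpace.1 T.isCompact_S
  -- the self maps
  let J := Option {d : Data // T.Valid d}
  have : Countable Data := countable_data
  choose lam hlam1 hlam2 hlam3 using fun d : {d : Data // T.Valid d} => T.exists_lam d.1 d.2
  let Lam : J → C(T.QS, T.QS) := fun j => match j with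
    | none => ContinuousMap.id _
    | some d => lam d
  have hLam1 : ∀ j (q : T.QS), q.1.1 = 0 → (Lam j q).1.1 = 0 := by
    intro j q hq
    cases j with
    | none => exact hq
    | some d => exact hlam1 d q hq
  have hLam2 : ∀ j (q : T.QS) (U : Set X), T.InF (Lam j q).1.1 (Lam j q).1.2 U →
      T.InF q.1.1 q.1.2 U := by
    intro j q U hU
    cases j with
    | none => exact hU
    | some d => exact hlam2 d q U hU
  let D : Set T.QS := {q | q.1.1 = 0}
  have hpos : ∀ q : T.QS, q ∉ D → 0 < q.1.1 := fun q hq =>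
    lt_of_le_of_ne q.2.1 (Ne.symm hq)
  have hpt : ∀ q : {q : T.QS // q ∉ D}, ∃ x : X, ∀ U : Set X, IsOpen U →
      (x ∈ U ↔ T.InF q.1.1.1 q.1.1.2 U) := fun q => exists_point (hpos q.1 q.2) q.1.2.2.2
  choose proj hproj using hpt
  have hspec : ∀ (q : {q : T.QS // q ∉ D}) (x : X),
      (∀ U : Set X, T.InF q.1.1.1 q.1.1.2 U → x ∈ U) → x ⤳ proj q := by
    intro q x h
    rw [specializes_iff_forall_open]
    intro U hU hx
    exact h U ((hproj q U hU).1 hx)
  refine ⟨{
    Q := T.QS
    D := D
    isClosed_D := isClosed_eq (continuous_fst.comp continuous_subtype_val) continuous_const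
    J := J
    lam := Lam
    lam_mem := hLam1
    j0 := none
    lam_j0 := fun q => rfl
    proj := proj
    cont := ?_
    lam_spec := ?_
    open_sat := ?_
    dense := ?_
    epi := ?_ }⟩
  · intro U hU
    have h1 : {q : T.QS | ∃ h : q ∉ D, proj ⟨q, h⟩ ∈ U} =
        Subtype.val ⁻¹' {p : ℝ × (ℕ → Bool) | T.InF p.1 p.2 U} := by
      ext q
      constructor
      · rintro ⟨h, hq⟩
        exact (hproj ⟨q, h⟩ U hU).1 hq
      · intro hq
        have hq' : T.InF q.1.1 q.1.2 U := hq
        have h : q ∉ D := fun h => absurd hq'.pos (by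
          have : q.1.1 = 0 := h
          rw [this]; exact lt_irrefl _)
        exact ⟨h, (hproj ⟨q, h⟩ U hU).2 hq'⟩
    rw [h1]
    exact (isOpen_inF U).preimage continuous_subtype_val
  · intro j q h h'
    rw [specializes_iff_forall_open]
    intro U hU hx
    exact (hproj ⟨q, h⟩ U hU).2 (hLam2 j q U ((hproj ⟨Lam j q, h'⟩ U hU).1 hx))
  · intro V hV hVD
    rw [isOpen_iff_forall_mem_open]
    rintro x ⟨q, h, hqV, hxq⟩
    obtain ⟨σ, m, h0, h1, h2⟩ := T.exists_basic hV hqV (hpos q h)
    refine ⟨T.w (res q.1.2 m) σ, ?_, T.isOpen_w _ _, ?_⟩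
    · intro y hy
      obtain ⟨t, c, h3, h4, h5, h6⟩ := exists_sat h0 h1 hy
      rw [res_length] at h5
      have hmem : ((t, c) : ℝ × (ℕ → Bool)) ∈ T.S := by
        refine ⟨by linarith, by have := q.2.2.1; linarith, fun hcon => ?_⟩
        exact absurd (h6 ∅ hcon) (notMem_empty _)
      have hV2 : (⟨(t, c), hmem⟩ : T.QS) ∈ V := h2 ⟨(t, c), hmem⟩ h3 h4.le h5
      refine ⟨⟨(t, c), hmem⟩, hVD _ hV2, hV2, ?_⟩
      exact hspec ⟨⟨(t, c), hmem⟩, hVD _ hV2⟩ y h6
    · have h3 := (hproj ⟨q, h⟩ _ (T.isOpen_w (res q.1.2 m) σ)).2 (inF_w h0 h1 q.1.2 m)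
      exact (specializes_iff_forall_open.1 hxq) _ (T.isOpen_w _ _) h3
  · rintro V hV hVD q h ⟨q', h', hq'V, hqq'⟩
    obtain ⟨σ, m, h0, h1, h2⟩ := T.exists_basic hV hq'V (hpos q' h')
    obtain ⟨b, hb1, hb2⟩ := exists_rat_btwn h1
    have hb0 : (0 : ℝ) < b := lt_of_le_of_lt h0 hb1
    have h3 := (hproj ⟨q', h'⟩ _ (T.isOpen_w (res q'.1.2 m) b)).2 (inF_w hb0.le hb2 q'.1.2 m)
    have h4 := (specializes_iff_forall_open.1 hqq') _ (T.isOpen_w _ _) h3
    have h5 := (hproj ⟨q, h⟩ _ (T.isOpen_w (res q'.1.2 m) b)).1 h4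
    obtain ⟨m1, σ1, h6, h7, h8⟩ := h5
    obtain ⟨a, ha1, ha2⟩ := exists_rat_btwn h7
    have hta : 0 < q.1.1 - a := by linarith
    obtain ⟨M, hM⟩ := exists_nat_ge ((b : ℝ) / (q.1.1 - a))
    rw [div_le_iff₀ hta] at hM
    let d : Data := ⟨res q.1.2 m1, res q'.1.2 m, a, b, M⟩
    have hd : T.Valid d := by
      refine ⟨by change (0 : ℝ) ≤ a; linarith, hb0, ?_, ?_⟩
      · have := q'.2.2.1
        change (b : ℝ) ≤ 1
        linarith
      · intro c hc
        change res c (res q.1.2 m1).length = res q.1.2 m1 at hc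
        rw [res_length] at hc
        refine ⟨m1, σ1, h6, ha1, ?_⟩
        rw [hc]; exact h8
    refine ⟨some ⟨d, hd⟩, ?_⟩
    change lam ⟨d, hd⟩ q ∈ V
    obtain ⟨h9, h10⟩ := hlam3 ⟨d, hd⟩ q (by
      change res q.1.2 (res q.1.2 m1).length = res q.1.2 m1
      rw [res_length]) hM
    change res _ (res q'.1.2 m).length = res q'.1.2 m at h10
    rw [res_length] at h10
    have h9' : (lam ⟨d, hd⟩ q).1.1 = (b : ℝ) := h9
    exact h2 _ (by rw [h9']; exact hb1) (by rw [h9']; exact hb2.le) h10
  · intro U hU x hx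
    obtain ⟨s, hs1, hs2⟩ := T.root U hU x hx
    have hP : (0 : ℝ) < 2 ^ s.length := by positivity
    -- level small enough
    set σ : ℝ := 1 / (4 * 2 ^ s.length) with hσ
    have hσ0 : 0 ≤ σ := by positivity
    have hxw : x ∈ T.w s σ := by
      refine T.node_sub_w ?_ hs1
      have : (2 : ℝ) ^ s.length * σ = 1 / 4 := by rw [hσ]; field_simp
      rw [this]; norm_num
    have hσ1 : σ < 1 := by
      have h1 : (1 : ℝ) ≤ 2 ^ s.length := one_le_pow₀ (by norm_num)
      rw [hσ, div_lt_one (by positivity)]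
      linarith
    obtain ⟨t, c, h3, h4, h5, h6⟩ := exists_sat hσ0 hσ1 hxw
    have hmem : ((t, c) : ℝ × (ℕ → Bool)) ∈ T.S := by
      refine ⟨by linarith, by linarith, fun hcon => ?_⟩
      exact absurd (h6 ∅ hcon) (notMem_empty _)
    have hnD : (⟨(t, c), hmem⟩ : T.QS) ∉ D := by
      intro h
      have : t = 0 := h
      linarith
    refine ⟨⟨(t, c), hmem⟩, hnD, ?_, hspec ⟨_, hnD⟩ x h6⟩
    refine (hproj ⟨_, hnD⟩ U hU).2 ⟨s.length, σ, hσ0, h3, ?_⟩
    change T.w (res c s.length) σ ⊆ U
    rw [h5]
    rintro y ⟨r, k, h7, h8, h9⟩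
    apply hs2
    obtain ⟨p, rfl⟩ := h7
    have hk1 : 1 < k := by
      have : (1 : ℝ) < k := by
        have : (0 : ℝ) ≤ 2 ^ (p ++ s).length * σ := by positivity
        linarith
      exact_mod_cast this
    -- all nodes below `s` with index at least one are in the first set
    have hgen : ∀ (p : List Bool) (k : ℕ), (T.node (p ++ s)).u k ⊆ (T.node s).u 0 := by
      intro p
      induction p with
      | nil => intro k; exact (T.node s).anti (Nat.zero_le _)
      | cons b p ih => intro k; exact (T.up (p ++ s) b k).trans (ih _)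
    exact hgen p k h9

end Dini
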